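import Pool.Agent.Lib_helper29.OCN.CellsV

/-!
# MP_aeb124_co: exit edges with a quadratic condition

On an exit edge all parameters are linear. A quadratic inequality holds on the whole edge if it holds
at the two ends and for the polar form.
-/

set_option autoImplicit false

namespace Pool.Agent.OCN

/-- an exit record: at both ends upper bounds for the deficits `e`, `G`, `D` and the numbers `f`, `h`,
in units of `1 / 16` of the grid -/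
structure XRec where
  /-- the first end -/
  e₀ : ℕ
  /-- the first end -/
  G₀ : ℕ
  /-- the first end -/
  D₀ : ℕ
  /-- the first end -/
  f₀ : ℕ
  /-- the first end -/
  h₀ : ℕ
  /-- the second end -/
  e₁ : ℕ
  /-- the second end -/
  G₁ : ℕ
  /-- the second end -/
  D₁ : ℕ
  /-- the second end -/
  f₁ : ℕ
  /-- the second end -/
  h₁ : ℕ

/-- the coefficients of the conditions -/
structure XPar where
  /-- the coefficient of the quadratic condition -/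
  L : ℕ
  /-- the coefficient of the square of `h` -/
  J : ℕ
  /-- the coefficient of `f` in the bound for `D` -/
  κ : ℕ
  /-- the coefficient of `G + f` in the bound for `o` -/
  ρ : ℕ
  /-- the coefficient of `f` in the bound for `f` -/
  A : ℕ
  /-- the coefficient of `D` in the bound for `f` -/
  B : ℕ
  /-- the coefficient of `g - D` in the bound for `f` -/
  A' : ℕ
  /-- the coefficient of `f ^ 2` in the second quadratic condition -/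
  a : ℕ
  /-- the coefficient of `2 * f * (D - f)` in the second quadratic condition -/
  b : ℕ
  /-- the coefficient of `(D - f) ^ 2` in the second quadratic condition -/
  c : ℕ

/-- the number `16 (o - e)` at an end -/
def oX (H N M y x e : ℕ) : ℕ := 16 * H - 16 * (y + N + (x + M)) - e

/-- the linear conditions at an end `(N, M, y, x)` -/
def linX (p : XPar) (H g N M y x e G D f h : ℕ) : Bool :=
  Nat.ble (16 * g) (16 * (y + N) + e) && (Nat.ble g x && (Nat.ble (16 * g) (16 * y + G) &&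
  (Nat.ble (32 * g) (16 * (y + M + x) + D) && (Nat.ble f D && (Nat.ble f (16 * N) &&
  (Nat.ble D (16 * g) && (Nat.ble D (p.κ * f + h) && (Nat.ble h (16 * g) &&
  (Nat.ble (16 * (y + N + (x + M)) + e + 16 * g) (16 * H) &&
  (Nat.ble (p.ρ * (G + f) + 1) (oX H N M y x e) &&
  (Nat.ble (p.A * f + p.B * D + 1) (p.A' * (16 * g - D)) &&
  Nat.ble ((p.L - p.J) * (D - f) + 1) (p.L * (16 * g - D)))))))))))))

/-- the polar form of the quadratic condition -/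
def polX (p : XPar) (g O₀ G₀ D₀ f₀ h₀ O₁ G₁ D₁ f₁ h₁ : ℕ) : Bool :=
  Nat.ble (p.L * (O₀ * G₁ + O₁ * G₀ + 4 * (f₀ * f₁) + ((D₀ - f₀) * (16 * g - D₁) +
    (D₁ - f₁) * (16 * g - D₀))) + p.J * (h₀ * h₁) + 1) (p.L * (O₀ * O₁))

/-- the polar form of the second quadratic condition -/
def polH (p : XPar) (O₀ G₀ D₀ f₀ O₁ G₁ D₁ f₁ : ℕ) : Bool :=
  Nat.ble (p.L * (O₀ * G₁ + O₁ * G₀) + p.a * (f₀ * f₁) + p.b * (f₀ * (D₁ - f₁) + f₁ * (D₀ - f₀)) +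
    p.c * ((D₀ - f₀) * (D₁ - f₁)) + 1) (p.L * (O₀ * O₁))

/-- the conditions on an exit edge from `(N, M, y, x)` to `(N', M', y', x')` -/
def exX (p : XPar) (H g N M y x N' M' y' x' : ℕ) (r : XRec) : Bool :=
  linX p H g N M y x r.e₀ r.G₀ r.D₀ r.f₀ r.h₀ && (linX p H g N' M' y' x' r.e₁ r.G₁ r.D₁ r.f₁ r.h₁ &&
  (polX p g (oX H N M y x r.e₀) r.G₀ r.D₀ r.f₀ r.h₀ (oX H N M y x r.e₀) r.G₀ r.D₀ r.f₀ r.h₀ &&
  (polX p g (oX H N M y x r.e₀) r.G₀ r.D₀ r.f₀ r.h₀ (oX H N' M' y' x' r.e₁) r.G₁ r.D₁ r.f₁ r.h₁ &&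
  (polX p g (oX H N' M' y' x' r.e₁) r.G₁ r.D₁ r.f₁ r.h₁ (oX H N' M' y' x' r.e₁) r.G₁ r.D₁ r.f₁
    r.h₁ &&
  (polH p (oX H N M y x r.e₀) r.G₀ r.D₀ r.f₀ (oX H N M y x r.e₀) r.G₀ r.D₀ r.f₀ &&
  (polH p (oX H N M y x r.e₀) r.G₀ r.D₀ r.f₀ (oX H N' M' y' x' r.e₁) r.G₁ r.D₁ r.f₁ &&
  polH p (oX H N' M' y' x' r.e₁) r.G₁ r.D₁ r.f₁ (oX H N' M' y' x' r.e₁) r.G₁ r.D₁ r.f₁))))))

/-- a point on an exit edge -/
def OnX (p : XPar) (H g q N M y x : ℕ) : Prop :=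
  ∃ (r : XRec) (a b u v a' b' u' v' w w' : ℕ), exX p H g a b u v a' b' u' v' r = true ∧
    w + w' = q ∧ N = w * a + w' * a' ∧ M = w * b + w' * b' ∧ y = w * u + w' * u' ∧
    x = w * v + w' * v'

/-- the exit edges of a cell, the records have the numbers `C, C + 1, …` -/
def okXV (p : XPar) (H g C : ℕ) (X : ℕ → XRec) (c : CellV) : Bool :=
  (Nat.beq c.ty 3 && exX p H g (c.N + 1) c.M c.yL c.xL c.N (c.M + 1) c.yT c.xT (X (c.iR - C))) ||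
  ((Nat.beq c.ty 1 || Nat.beq c.ty 2) &&
  ((Nat.ble (c.iR + 1) C ||
    exX p H g (c.N + 1) c.M c.yL c.xL (c.N + 1) (c.M + 1) c.yQ c.xQ (X (c.iR - C))) &&
  (Nat.ble (c.iT + 1) C ||
    exX p H g c.N (c.M + 1) c.yT c.xT (c.N + 1) (c.M + 1) c.yQ c.xQ (X (c.iT - C)))))

/-- the points on the exit edges -/
theorem VExit.onX {c : ℕ → CellV} {C q N M y x H g : ℕ} {p : XPar} {X : ℕ → XRec}
    (hX : ∀ e < C, okXV p H g C X (c e) = true) (h : VExit c C q N M y x) :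
    OnX p H g q N M y x := by
  obtain ⟨e, he, h⟩ := h
  have hx := hX e he
  unfold okXV at hx
  simp only [Bool.or_eq_true, Bool.and_eq_true] at hx
  rcases h with ⟨h3, hi, w₁, w₃, hp⟩ | ⟨h3, hi, w₂, w₃, hp⟩ | ⟨h3, w₁, w₂, hp⟩
  · obtain ⟨k1, k2, k3, k4, k5⟩ := hp
    rcases hx with h1 | h1
    · exact absurd (Nat.eq_of_beq_eq_true h1.1) h3
    · rcases h1.2.1 with h2 | h2
      · have := Nat.le_of_ble_eq_true h2
        omega
      · have k1' : w₁ + w₃ = q := by omega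
        refine ⟨_, _, _, _, _, _, _, _, _, w₁, w₃, h2, k1', ?_, ?_, ?_, ?_⟩
        · rw [k2, ← k1']
          ring
        · rw [k3, ← k1']
          ring
        · rw [k4]
          ring
        · rw [k5]
          ring
  · obtain ⟨k1, k2, k3, k4, k5⟩ := hp
    rcases hx with h1 | h1
    · exact absurd (Nat.eq_of_beq_eq_true h1.1) h3
    · rcases h1.2.2 with h2 | h2
      · have := Nat.le_of_ble_eq_true h2
        omega
      · have k1' : w₂ + w₃ = q := by omega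
        refine ⟨_, _, _, _, _, _, _, _, _, w₂, w₃, h2, k1', ?_, ?_, ?_, ?_⟩
        · rw [k2, ← k1']
          ring
        · rw [k3, ← k1']
          ring
        · rw [k4]
          ring
        · rw [k5]
          ring
  · obtain ⟨k1, k2, k3, k4, k5⟩ := hp
    rcases hx with h1 | h1
    · have k1' : w₁ + w₂ = q := by omega
      refine ⟨_, _, _, _, _, _, _, _, _, w₁, w₂, h1.2, k1', ?_, ?_, ?_, ?_⟩
      · rw [k2, ← k1']
        ring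
      · rw [k3, ← k1']
        ring
      · rw [k4]
        ring
      · rw [k5]
        ring
    · rcases h1.1 with h2 | h2
      · have := Nat.eq_of_beq_eq_true h2
        omega
      · have := Nat.eq_of_beq_eq_true h2
        omega

/-- the linear conditions -/
theorem linX_iff {p : XPar} {H g N M y x e G D f h : ℕ}
    (hx : linX p H g N M y x e G D f h = true) :
    16 * g ≤ 16 * (y + N) + e ∧ g ≤ x ∧ 16 * g ≤ 16 * y + G ∧ 32 * g ≤ 16 * (y + M + x) + D ∧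
    f ≤ D ∧ f ≤ 16 * N ∧ D ≤ 16 * g ∧ D ≤ p.κ * f + h ∧ h ≤ 16 * g ∧
    16 * (y + N + (x + M)) + e + 16 * g ≤ 16 * H ∧ p.ρ * (G + f) + 1 ≤ oX H N M y x e ∧
    p.A * f + p.B * D + 1 ≤ p.A' * (16 * g - D) ∧ (p.L - p.J) * (D - f) + 1 ≤ p.L * (16 * g - D) := by
  unfold linX at hx
  simp only [Bool.and_eq_true] at hx
  obtain ⟨h1, h2, h3, h4, h5, h6, h7, h8, h9, h10, h11, h12, h13⟩ := hx
  exact ⟨Nat.le_of_ble_eq_true h1, Nat.le_of_ble_eq_true h2, Nat.le_of_ble_eq_true h3,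
    Nat.le_of_ble_eq_true h4, Nat.le_of_ble_eq_true h5, Nat.le_of_ble_eq_true h6,
    Nat.le_of_ble_eq_true h7, Nat.le_of_ble_eq_true h8, Nat.le_of_ble_eq_true h9,
    Nat.le_of_ble_eq_true h10, Nat.le_of_ble_eq_true h11, Nat.le_of_ble_eq_true h12,
    Nat.le_of_ble_eq_true h13⟩

/-- the floor of a combination -/
theorem div16 (s : ℕ) : 16 * (s / 16) ≤ s ∧ s ≤ 16 * (s / 16) + 15 := by omega

/-- the polar inequality without truncated subtraction -/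
theorem polX_iff {p : XPar} {g O₀ G₀ D₀ f₀ h₀ O₁ G₁ D₁ f₁ h₁ a₀ a₁ b₀ b₁ : ℕ}
    (ha₀ : D₀ = f₀ + a₀) (ha₁ : D₁ = f₁ + a₁) (hb₀ : 16 * g = D₀ + b₀) (hb₁ : 16 * g = D₁ + b₁)
    (h : polX p g O₀ G₀ D₀ f₀ h₀ O₁ G₁ D₁ f₁ h₁ = true) :
    (p.L : ℤ) * (O₀ * G₁ + O₁ * G₀ + 4 * (f₀ * f₁) + (a₀ * b₁ + a₁ * b₀)) + p.J * (h₀ * h₁) + 1 ≤
      p.L * (O₀ * O₁) := by
  unfold polX at h
  have h := Nat.le_of_ble_eq_true h
  have e1 : D₀ - f₀ = a₀ := by omega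
  have e2 : D₁ - f₁ = a₁ := by omega
  have e3 : 16 * g - D₀ = b₀ := by omega
  have e4 : 16 * g - D₁ = b₁ := by omega
  rw [e1, e2, e3, e4] at h
  exact_mod_cast h

theorem polH_iff {p : XPar} {O₀ G₀ D₀ f₀ O₁ G₁ D₁ f₁ a₀ a₁ : ℕ}
    (ha₀ : D₀ = f₀ + a₀) (ha₁ : D₁ = f₁ + a₁)
    (h : polH p O₀ G₀ D₀ f₀ O₁ G₁ D₁ f₁ = true) :
    (p.L : ℤ) * (O₀ * G₁ + O₁ * G₀) + p.a * (f₀ * f₁) + p.b * (f₀ * a₁ + f₁ * a₀) +
      p.c * (a₀ * a₁) + 1 ≤ p.L * (O₀ * O₁) := by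
  unfold polH at h
  have h := Nat.le_of_ble_eq_true h
  have e1 : D₀ - f₀ = a₀ := by omega
  have e2 : D₁ - f₁ = a₁ := by omega
  rw [e1, e2] at h
  exact_mod_cast h

/-- the second quadratic inequality on a segment -/
theorem polH_seg {p : XPar} {O₀ G₀ D₀ f₀ O₁ G₁ D₁ f₁ a₀ a₁ w w' : ℕ}
    (ha₀ : D₀ = f₀ + a₀) (ha₁ : D₁ = f₁ + a₁)
    (p₀ : polH p O₀ G₀ D₀ f₀ O₀ G₀ D₀ f₀ = true)
    (p₁ : polH p O₀ G₀ D₀ f₀ O₁ G₁ D₁ f₁ = true)
    (p₂ : polH p O₁ G₁ D₁ f₁ O₁ G₁ D₁ f₁ = true) :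
    (p.L : ℤ) * (2 * ((w * O₀ + w' * O₁ : ℕ) * (w * G₀ + w' * G₁ : ℕ))) +
      (p.a * (w * f₀ + w' * f₁ : ℕ) ^ 2 + 2 * (p.b * ((w * f₀ + w' * f₁ : ℕ) *
      (w * a₀ + w' * a₁ : ℕ))) + p.c * (w * a₀ + w' * a₁ : ℕ) ^ 2) + (w + w' : ℕ) ^ 2 ≤
      p.L * (w * O₀ + w' * O₁ : ℕ) ^ 2 := by
  have z₀ := polH_iff ha₀ ha₀ p₀
  have z₁ := polH_iff ha₀ ha₁ p₁
  have z₂ := polH_iff ha₁ ha₁ p₂
  have q0 : (0 : ℤ) ≤ (w : ℤ) * w := by positivity
  have q1 : (0 : ℤ) ≤ 2 * ((w : ℤ) * w') := by positivity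
  have q2 : (0 : ℤ) ≤ (w' : ℤ) * w' := by positivity
  have y0 := mul_le_mul_of_nonneg_left z₀ q0
  have y1 := mul_le_mul_of_nonneg_left z₁ q1
  have y2 := mul_le_mul_of_nonneg_left z₂ q2
  push_cast
  have e1 : (p.L : ℤ) * (2 * ((w * O₀ + w' * O₁) * (w * G₀ + w' * G₁))) +
      (p.a * (w * f₀ + w' * f₁) ^ 2 + 2 * (p.b * ((w * f₀ + w' * f₁) * (w * a₀ + w' * a₁))) +
      p.c * (w * a₀ + w' * a₁) ^ 2) + (w + w') ^ 2 =
      w * w * (p.L * (O₀ * G₀ + O₀ * G₀) + p.a * (f₀ * f₀) + p.b * (f₀ * a₀ + f₀ * a₀) +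
        p.c * (a₀ * a₀) + 1) +
      2 * (w * w') * (p.L * (O₀ * G₁ + O₁ * G₀) + p.a * (f₀ * f₁) + p.b * (f₀ * a₁ + f₁ * a₀) +
        p.c * (a₀ * a₁) + 1) +
      w' * w' * (p.L * (O₁ * G₁ + O₁ * G₁) + p.a * (f₁ * f₁) + p.b * (f₁ * a₁ + f₁ * a₁) +
        p.c * (a₁ * a₁) + 1) := by
    ring
  have e2 : (p.L : ℤ) * (w * O₀ + w' * O₁) ^ 2 =
      w * w * (p.L * (O₀ * O₀)) + 2 * (w * w') * (p.L * (O₀ * O₁)) +
      w' * w' * (p.L * (O₁ * O₁)) := by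
    ring
  rw [e1, e2]
  exact add_le_add (add_le_add y0 y1) y2

/-- the quadratic inequality on a segment -/
theorem pol_seg {p : XPar} {g O₀ G₀ D₀ f₀ h₀ O₁ G₁ D₁ f₁ h₁ a₀ a₁ b₀ b₁ w w' : ℕ}
    (ha₀ : D₀ = f₀ + a₀) (ha₁ : D₁ = f₁ + a₁) (hb₀ : 16 * g = D₀ + b₀) (hb₁ : 16 * g = D₁ + b₁)
    (p₀ : polX p g O₀ G₀ D₀ f₀ h₀ O₀ G₀ D₀ f₀ h₀ = true)
    (p₁ : polX p g O₀ G₀ D₀ f₀ h₀ O₁ G₁ D₁ f₁ h₁ = true)
    (p₂ : polX p g O₁ G₁ D₁ f₁ h₁ O₁ G₁ D₁ f₁ h₁ = true) :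
    (p.L : ℤ) * (2 * ((w * O₀ + w' * O₁ : ℕ) * (w * G₀ + w' * G₁ : ℕ)) +
      4 * (w * f₀ + w' * f₁ : ℕ) ^ 2 + 2 * ((w * a₀ + w' * a₁ : ℕ) * (w * b₀ + w' * b₁ : ℕ))) +
      p.J * (w * h₀ + w' * h₁ : ℕ) ^ 2 + (w + w' : ℕ) ^ 2 ≤
      p.L * (w * O₀ + w' * O₁ : ℕ) ^ 2 := by
  have z₀ := polX_iff ha₀ ha₀ hb₀ hb₀ p₀
  have z₁ := polX_iff ha₀ ha₁ hb₀ hb₁ p₁
  have z₂ := polX_iff ha₁ ha₁ hb₁ hb₁ p₂
  have q0 : (0 : ℤ) ≤ (w : ℤ) * w := by positivity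
  have q1 : (0 : ℤ) ≤ 2 * ((w : ℤ) * w') := by positivity
  have q2 : (0 : ℤ) ≤ (w' : ℤ) * w' := by positivity
  have y0 := mul_le_mul_of_nonneg_left z₀ q0
  have y1 := mul_le_mul_of_nonneg_left z₁ q1
  have y2 := mul_le_mul_of_nonneg_left z₂ q2
  push_cast
  have e1 : (p.L : ℤ) * (2 * ((w * O₀ + w' * O₁) * (w * G₀ + w' * G₁)) +
      4 * (w * f₀ + w' * f₁) ^ 2 + 2 * ((w * a₀ + w' * a₁) * (w * b₀ + w' * b₁))) +
      p.J * (w * h₀ + w' * h₁) ^ 2 + (w + w') ^ 2 =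
      w * w * (p.L * (O₀ * G₀ + O₀ * G₀ + 4 * (f₀ * f₀) + (a₀ * b₀ + a₀ * b₀)) +
        p.J * (h₀ * h₀) + 1) +
      2 * (w * w') * (p.L * (O₀ * G₁ + O₁ * G₀ + 4 * (f₀ * f₁) + (a₀ * b₁ + a₁ * b₀)) +
        p.J * (h₀ * h₁) + 1) +
      w' * w' * (p.L * (O₁ * G₁ + O₁ * G₁ + 4 * (f₁ * f₁) + (a₁ * b₁ + a₁ * b₁)) +
        p.J * (h₁ * h₁) + 1) := by
    ring
  have e2 : (p.L : ℤ) * (w * O₀ + w' * O₁) ^ 2 =
      w * w * (p.L * (O₀ * O₀)) + 2 * (w * w') * (p.L * (O₀ * O₁)) +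
      w' * w' * (p.L * (O₁ * O₁)) := by
    ring
  rw [e1, e2]
  exact add_le_add (add_le_add y0 y1) y2

/-- the rounding of the quadratic inequality -/
theorem round_lin {L J T T1 h2 h12 O2 O12 a b c q2 : ℤ} (hL : 0 ≤ L) (hJ : 0 ≤ J)
    (hT : 256 * T1 ≤ T + a) (hh : 256 * h12 ≤ h2 + b) (hO : O2 ≤ 256 * O12 + c)
    (key : L * T + J * h2 + q2 ≤ L * O2) (hq : 2 * (L * a + J * b + L * c) ≤ q2) :
    512 * (L * T1 + J * h12) + q2 ≤ 512 * (L * O12) := by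
  have h1 := mul_le_mul_of_nonneg_left hT hL
  have h2 := mul_le_mul_of_nonneg_left hh hJ
  have h3 := mul_le_mul_of_nonneg_left hO hL
  have e1 : L * (256 * T1) = 256 * (L * T1) := by ring
  have e2 : L * (T + a) = L * T + L * a := by ring
  have e3 : J * (256 * h12) = 256 * (J * h12) := by ring
  have e5 : L * (256 * O12 + c) = 256 * (L * O12) + L * c := by ring
  rw [e1, e2] at h1
  rw [e3, mul_add] at h2
  rw [e5] at h3
  linarith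

theorem round_T {O G F a b O1 G1 F1 a1 b1 m : ℤ} (z1 : 16 * O1 ≤ O) (z3 : 16 * G1 ≤ G)
    (z4 : 16 * F1 ≤ F) (z5 : 16 * a1 ≤ a + 15) (z6 : 16 * b1 ≤ b + 15) (ha : a ≤ 16 * m)
    (hb : b ≤ 16 * m) (n1 : 0 ≤ O1) (n2 : 0 ≤ G1) (n3 : 0 ≤ F1) (n4 : 0 ≤ a1) (n5 : 0 ≤ b1) :
    256 * (2 * (O1 * G1) + 4 * F1 ^ 2 + 2 * (a1 * b1)) ≤
      2 * (O * G) + 4 * F ^ 2 + 2 * (a * b) + (960 * m + 450) := by
  have t1 : (16 * O1) * (16 * G1) ≤ O * G := mul_le_mul z1 z3 (by linarith) (by linarith)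
  have t2 : (16 * F1) * (16 * F1) ≤ F * F := mul_le_mul z4 z4 (by linarith) (by linarith)
  have t3 : (16 * a1) * (16 * b1) ≤ (a + 15) * (b + 15) :=
    mul_le_mul z5 z6 (by linarith) (by linarith)
  linarith

/-- the rounding of the second quadratic inequality -/
theorem round_H {L a b c O G F A O1 G1 F1 A1 m n q2 : ℤ} (hL : 0 ≤ L) (ha : 0 ≤ a) (hb : 0 ≤ b)
    (hc : 0 ≤ c) (z1 : 16 * O1 ≤ O) (z3 : 16 * G1 ≤ G) (z4 : 16 * F1 ≤ F)
    (z5 : 16 * A1 ≤ A + 15) (hF : F ≤ 16 * m) (hA : A ≤ 16 * m) (n1 : 0 ≤ O1) (n2 : 0 ≤ G1)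
    (n3 : 0 ≤ F1) (n4 : 0 ≤ A1) (hO : O ^ 2 ≤ 256 * O1 ^ 2 + 512 * n)
    (key : L * (2 * (O * G)) + (a * F ^ 2 + 2 * (b * (F * A)) + c * A ^ 2) + q2 ≤ L * O ^ 2)
    (hq : 2 * (b * (480 * m) + c * (480 * m + 225) + L * (512 * n)) ≤ q2) :
    512 * (L * (2 * (O1 * G1)) + (a * F1 ^ 2 + 2 * (b * (F1 * A1)) + c * A1 ^ 2)) + q2 ≤
      512 * (L * O1 ^ 2) := by
  have t1 : (16 * O1) * (16 * G1) ≤ O * G := mul_le_mul z1 z3 (by linarith) (by linarith)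
  have t2 : (16 * F1) * (16 * F1) ≤ F * F := mul_le_mul z4 z4 (by linarith) (by linarith)
  have t3 : (16 * F1) * (16 * A1) ≤ F * (A + 15) := mul_le_mul z4 z5 (by linarith) (by linarith)
  have t4 : (16 * A1) * (16 * A1) ≤ (A + 15) * (A + 15) :=
    mul_le_mul z5 z5 (by linarith) (by linarith)
  have t3' : 256 * (F1 * A1) ≤ F * A + 240 * m := by linarith
  have t4' : 256 * A1 ^ 2 ≤ A ^ 2 + (480 * m + 225) := by linarith
  have t2' : 256 * F1 ^ 2 ≤ F ^ 2 := by linarith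
  have t1' : 256 * (O1 * G1) ≤ O * G := by linarith
  have s1 := mul_le_mul_of_nonneg_left t1' hL
  have s2 := mul_le_mul_of_nonneg_left t2' ha
  have s3 := mul_le_mul_of_nonneg_left t3' hb
  have s4 := mul_le_mul_of_nonneg_left t4' hc
  have s5 := mul_le_mul_of_nonneg_left hO hL
  linarith

theorem round_h {h h1 m : ℤ} (z : 16 * h1 ≤ h + 48) (hh : h ≤ 16 * m) (n : 0 ≤ h1) :
    256 * h1 ^ 2 ≤ h ^ 2 + (1536 * m + 2304) := by
  have t1 : (16 * h1) * (16 * h1) ≤ (h + 48) * (h + 48) :=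
    mul_le_mul z z (by linarith) (by linarith)
  linarith

theorem round_O {O O1 m : ℤ} (z : O ≤ 16 * O1 + 16) (hO : O ≤ 16 * m) (h16 : 16 ≤ O) :
    O ^ 2 ≤ 256 * O1 ^ 2 + 512 * m := by
  have t1 : (O - 16) * (O - 16) ≤ (16 * O1) * (16 * O1) :=
    mul_le_mul (by linarith) (by linarith) (by linarith) (by linarith)
  linarith

/-- the entry data of the end class -/
def Ent (p : XPar) (H g q N M y x : ℕ) : Prop :=
  ∃ o₁ e₁ G₁ D₁ f h₁ : ℕ,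
    g * q ≤ y + N + e₁ ∧ g * q ≤ x ∧ g * q ≤ y + G₁ ∧ 2 * (g * q) ≤ y + M + x + D₁ ∧ f ≤ D₁ ∧
    f ≤ N ∧ D₁ ≤ g * q ∧ D₁ ≤ p.κ * f + h₁ ∧ y + N + (x + M) + e₁ + o₁ + 1 = H * q ∧
    g * q ≤ o₁ + 1 ∧ 16 * (p.ρ * (G₁ + f)) + q ≤ 16 * o₁ + 16 ∧
    16 * (p.A * f + p.B * D₁) + q ≤ 16 * (p.A' * (g * q - D₁)) ∧
    (p.L - p.J) * (D₁ - f) ≤ p.L * (g * q - D₁) ∧
    512 * ((p.L : ℤ) * (2 * (o₁ * G₁) + 4 * f ^ 2 + 2 * ((D₁ - f) * (g * q - D₁))) +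
      p.J * h₁ ^ 2) + q ^ 2 ≤ 512 * (p.L * o₁ ^ 2) ∧
    512 * ((p.L : ℤ) * (2 * (o₁ * G₁)) + (p.a * f ^ 2 + 2 * (p.b * (f * (D₁ - f))) +
      p.c * (D₁ - f) ^ 2)) + q ^ 2 ≤ 512 * (p.L * o₁ ^ 2)

/-- the bound for `q` -/
def qX (p : XPar) (H g : ℕ) : ℕ :=
  2 * (p.L * (960 * g + 450) + p.J * (1536 * g + 2304) + p.L * (512 * H) +
    (p.b * (480 * g) + p.c * (480 * g + 225))) + 1

/-- The entry data at a point of an exit edge, for all large `q`. -/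
theorem OnX.ent {p : XPar} {H g q N M y x : ℕ} (hκ : p.κ ≤ 2)
    (hq : qX p H g ≤ q)
    (h : OnX p H g q N M y x) : Ent p H g q N M y x := by
  unfold qX at hq
  obtain ⟨r, a, b, u, v, a', b', u', v', w, w', hx, hw, eN, eM, ey, ex⟩ := h
  unfold exX at hx
  simp only [Bool.and_eq_true] at hx
  obtain ⟨l₀, l₁, p₀, p₁, p₂, s₀, s₁, s₂⟩ := hx
  obtain ⟨a1, a2, a3, a4, a5, a6, a7, a9, a10, a8, a11, a12, a13⟩ := linX_iff l₀
  obtain ⟨b1, b2, b3, b4, b5, b6, b7, b9, b10, b8, b11, b12, b13⟩ := linX_iff l₁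
  obtain ⟨α₀, hα₀⟩ := Nat.exists_eq_add_of_le a5
  obtain ⟨α₁, hα₁⟩ := Nat.exists_eq_add_of_le b5
  obtain ⟨β₀, hβ₀⟩ := Nat.exists_eq_add_of_le a7
  obtain ⟨β₁, hβ₁⟩ := Nat.exists_eq_add_of_le b7
  have key := pol_seg (w := w) (w' := w') hα₀ hα₁ hβ₀ hβ₁ p₀ p₁ p₂
  have key2 := polH_seg (w := w) (w' := w') hα₀ hα₁ s₀ s₁ s₂
  obtain ⟨E, hE⟩ : ∃ z, z = w * r.e₀ + w' * r.e₁ := ⟨_, rfl⟩
  obtain ⟨Gt, hG⟩ : ∃ z, z = w * r.G₀ + w' * r.G₁ := ⟨_, rfl⟩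
  obtain ⟨Dt, hD⟩ : ∃ z, z = w * r.D₀ + w' * r.D₁ := ⟨_, rfl⟩
  obtain ⟨Ft, hF⟩ : ∃ z, z = w * r.f₀ + w' * r.f₁ := ⟨_, rfl⟩
  obtain ⟨ht, hh⟩ : ∃ z, z = w * r.h₀ + w' * r.h₁ := ⟨_, rfl⟩
  obtain ⟨At, hA⟩ : ∃ z, z = w * α₀ + w' * α₁ := ⟨_, rfl⟩
  obtain ⟨Bt, hB⟩ : ∃ z, z = w * β₀ + w' * β₁ := ⟨_, rfl⟩
  obtain ⟨O, hO⟩ : ∃ z, z = w * oX H a b u v r.e₀ + w' * oX H a' b' u' v' r.e₁ := ⟨_, rfl⟩
  rw [← hG, ← hF, ← hO, ← hh, ← hA, ← hB, hw] at key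
  rw [← hG, ← hF, ← hO, ← hA, hw] at key2
  -- linear combinations
  have lin : ∀ {s t s' t' : ℕ}, s ≤ t → s' ≤ t' → w * s + w' * s' ≤ w * t + w' * t' :=
    fun h1 h2 => Nat.add_le_add (Nat.mul_le_mul_left _ h1) (Nat.mul_le_mul_left _ h2)
  have c1 : 16 * (g * q) ≤ 16 * (y + N) + E := by
    have := lin a1 b1
    rw [← hw, ey, eN, hE]
    linarith
  have c2 : g * q ≤ x := by
    have := lin a2 b2
    rw [← hw, ex]
    linarith
  have c3 : 16 * (g * q) ≤ 16 * y + Gt := by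
    have := lin a3 b3
    rw [← hw, ey, hG]
    linarith
  have c4 : 32 * (g * q) ≤ 16 * (y + M + x) + Dt := by
    have := lin a4 b4
    rw [← hw, ey, eM, ex, hD]
    linarith
  have cA : Dt = Ft + At := by
    rw [hD, hF, hA, hα₀, hα₁]
    ring
  have cB : 16 * (g * q) = Dt + Bt := by
    calc 16 * (g * q) = w * (16 * g) + w' * (16 * g) := by rw [← hw]; ring
      _ = Dt + Bt := by rw [hD, hB]; nth_rewrite 1 [hβ₀]; rw [hβ₁]; ring
  have c6 : Ft ≤ 16 * N := by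
    have := lin a6 b6
    rw [hF, eN]
    linarith
  have c10 : Dt ≤ p.κ * Ft + ht := by
    have := lin a9 b9
    rw [hD, hF, hh]
    calc w * r.D₀ + w' * r.D₁ ≤ w * (p.κ * r.f₀ + r.h₀) + w' * (p.κ * r.f₁ + r.h₁) := this
      _ = p.κ * (w * r.f₀ + w' * r.f₁) + (w * r.h₀ + w' * r.h₁) := by ring
  have c11 : ht ≤ 16 * (g * q) := by
    have := lin a10 b10
    rw [← hw, hh]
    linarith
  have c12 : p.ρ * (Gt + Ft) + q ≤ O := by
    have := lin a11 b11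
    rw [hG, hF, hO, ← hw]
    calc p.ρ * (w * r.G₀ + w' * r.G₁ + (w * r.f₀ + w' * r.f₁)) + (w + w')
        = w * (p.ρ * (r.G₀ + r.f₀) + 1) + w' * (p.ρ * (r.G₁ + r.f₁) + 1) := by ring
      _ ≤ _ := this
  have c13 : p.A * Ft + p.B * Dt + q ≤ p.A' * Bt := by
    have y₀ : 16 * g - r.D₀ = β₀ := by omega
    have y₁ : 16 * g - r.D₁ = β₁ := by omega
    rw [y₀] at a12
    rw [y₁] at b12
    have := lin a12 b12
    rw [hF, hB, hD, ← hw]
    calc p.A * (w * r.f₀ + w' * r.f₁) + p.B * (w * r.D₀ + w' * r.D₁) + (w + w')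
        = w * (p.A * r.f₀ + p.B * r.D₀ + 1) + w' * (p.A * r.f₁ + p.B * r.D₁ + 1) := by ring
      _ ≤ w * (p.A' * β₀) + w' * (p.A' * β₁) := this
      _ = p.A' * (w * β₀ + w' * β₁) := by ring
  have c15 : (p.L - p.J) * At + q ≤ p.L * Bt := by
    have x₀ : r.D₀ - r.f₀ = α₀ := by omega
    have x₁ : r.D₁ - r.f₁ = α₁ := by omega
    have y₀ : 16 * g - r.D₀ = β₀ := by omega
    have y₁ : 16 * g - r.D₁ = β₁ := by omega
    rw [x₀, y₀] at a13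
    rw [x₁, y₁] at b13
    have := lin a13 b13
    rw [hA, hB, ← hw]
    calc (p.L - p.J) * (w * α₀ + w' * α₁) + (w + w')
        = w * ((p.L - p.J) * α₀ + 1) + w' * ((p.L - p.J) * α₁ + 1) := by ring
      _ ≤ w * (p.L * β₀) + w' * (p.L * β₁) := this
      _ = p.L * (w * β₀ + w' * β₁) := by ring
  have o₀ : oX H a b u v r.e₀ + 16 * (u + a + (v + b)) + r.e₀ = 16 * H := by
    unfold oX
    omega
  have o₁ : oX H a' b' u' v' r.e₁ + 16 * (u' + a' + (v' + b')) + r.e₁ = 16 * H := by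
    unfold oX
    omega
  have c8 : O + 16 * (y + N + (x + M)) + E = 16 * (H * q) := by
    calc O + 16 * (y + N + (x + M)) + E
        = w * (oX H a b u v r.e₀ + 16 * (u + a + (v + b)) + r.e₀) +
          w' * (oX H a' b' u' v' r.e₁ + 16 * (u' + a' + (v' + b')) + r.e₁) := by
          rw [hO, hE, ey, eN, ex, eM]
          ring
      _ = 16 * (H * q) := by
          rw [o₀, o₁, ← hw]
          ring
  have g₀ : 16 * g ≤ oX H a b u v r.e₀ := by omega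
  have g₁ : 16 * g ≤ oX H a' b' u' v' r.e₁ := by omega
  have c9 : 16 * (g * q) ≤ O := by
    have := lin g₀ g₁
    rw [← hw, hO]
    linarith
  have i₀ : 1 ≤ oX H a b u v r.e₀ := by omega
  have i₁ : 1 ≤ oX H a' b' u' v' r.e₁ := by omega
  have c14 : q ≤ O := by
    have := lin i₀ i₁
    rw [← hw, hO]
    linarith
  clear hG hD hF hh hO hE hA hB lin a1 a2 a3 a4 a5 a6 a7 a8 a9 a10 a11 a12 a13 b1 b2 b3 b4 b5 b6 b7 b8
    b9 b10 b11 b12 b13 p₀ p₁ p₂ s₀ s₁ s₂ l₀ l₁ o₀ o₁ g₀ g₁ i₀ i₁ hα₀ hα₁ hβ₀ hβ₁ eN eM ey ex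
  obtain ⟨m, hm⟩ : ∃ m, m = g * q := ⟨_, rfl⟩
  obtain ⟨n, hn⟩ : ∃ n, n = H * q := ⟨_, rfl⟩
  -- the bound for `q`
  have hq0 : 2 * (p.L * (960 * m + 450) + p.J * (1536 * m + 2304) + p.L * (512 * n) +
      (p.b * (480 * m) + p.c * (480 * m + 225))) ≤ q ^ 2 := by
    have hq1 : 1 ≤ q := by omega
    have h450 : 450 ≤ 450 * q := by omega
    have h225 : 225 ≤ 225 * q := by omega
    have h2304 : 2304 ≤ 2304 * q := by omega
    calc 2 * (p.L * (960 * m + 450) + p.J * (1536 * m + 2304) + p.L * (512 * n) +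
          (p.b * (480 * m) + p.c * (480 * m + 225)))
        ≤ 2 * (p.L * (960 * m + 450 * q) + p.J * (1536 * m + 2304 * q) + p.L * (512 * n) +
          (p.b * (480 * m) + p.c * (480 * m + 225 * q))) := by
          gcongr
      _ = 2 * (p.L * (960 * g + 450) + p.J * (1536 * g + 2304) + p.L * (512 * H) +
          (p.b * (480 * g) + p.c * (480 * g + 225))) * q := by
          rw [hm, hn]
          ring
      _ ≤ q * q := Nat.mul_le_mul_right _ (by omega)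
      _ = q ^ 2 := (sq q).symm
  have hq2 : (2 : ℤ) * (p.L * (960 * m + 450) + p.J * (1536 * m + 2304) + p.L * (512 * n)) ≤
      (q : ℤ) ^ 2 := by
    have h1 : 2 * (p.L * (960 * m + 450) + p.J * (1536 * m + 2304) + p.L * (512 * n)) ≤ q ^ 2 :=
      le_trans (Nat.mul_le_mul_left 2 (Nat.le_add_right _ _)) hq0
    exact_mod_cast h1
  have hq3 : (2 : ℤ) * (p.b * (480 * m) + p.c * (480 * m + 225) + p.L * (512 * n)) ≤
      (q : ℤ) ^ 2 := by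
    have h1 : 2 * (p.b * (480 * m) + p.c * (480 * m + 225) + p.L * (512 * n)) ≤ q ^ 2 := by
      refine le_trans (Nat.mul_le_mul_left 2 ?_) hq0
      rw [Nat.add_comm]
      exact Nat.add_le_add_right (Nat.le_add_left _ _) _
    exact_mod_cast h1
  have hqL : p.L = 0 ∨ 16 ≤ q := by
    rcases Nat.eq_zero_or_pos p.L with h | h
    · exact Or.inl h
    · refine Or.inr ?_
      have h1 : 1 * (960 * g + 450) ≤ p.L * (960 * g + 450) := Nat.mul_le_mul_right _ h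
      omega
  have hLO : p.L ≠ 0 := by
    intro h0
    rw [h0] at key
    have h1 : (0 : ℤ) ≤ p.J * (ht : ℤ) ^ 2 := by positivity
    have h2 : (0 : ℤ) < (q : ℤ) ^ 2 := by
      have : (0 : ℤ) < q := by
        have : 0 < q := by omega
        exact_mod_cast this
      positivity
    push_cast at key
    linarith
  have hO16 : 16 ≤ O := by
    rcases hqL with h | h
    · exact absurd h hLO
    · omega
  obtain ⟨O1, hO1⟩ : ∃ z, z = H * q - 1 - (y + N + (x + M)) - E / 16 := ⟨_, rfl⟩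
  rw [← hn] at c8 hO1
  rw [← hm] at cB c1 c2 c3 c4 c9 c11
  have dE := div16 E
  have dG := div16 Gt
  have dD := div16 Dt
  have dF := div16 Ft
  have dh := div16 ht
  have hO1a : 16 * O1 ≤ O := by omega
  have hO1b : O ≤ 16 * O1 + 16 := by omega
  have h10 : Dt / 16 ≤ p.κ * (Ft / 16) + (ht / 16 + 3) := by
    have h11 : p.κ * Ft ≤ p.κ * (16 * (Ft / 16) + 15) := Nat.mul_le_mul_left _ dF.2
    have h12 : p.κ * (16 * (Ft / 16) + 15) = 16 * (p.κ * (Ft / 16)) + p.κ * 15 := by ring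
    have h13 : p.κ * 15 ≤ 30 := by omega
    omega
  have h14 : 16 * (p.ρ * (Gt / 16 + Ft / 16)) + q ≤ 16 * O1 + 16 := by
    have h11 : p.ρ * (16 * (Gt / 16) + 16 * (Ft / 16)) ≤ p.ρ * (Gt + Ft) :=
      Nat.mul_le_mul_left _ (Nat.add_le_add dG.1 dF.1)
    have h12 : p.ρ * (16 * (Gt / 16) + 16 * (Ft / 16)) = 16 * (p.ρ * (Gt / 16 + Ft / 16)) := by
      ring
    omega
  have hBB : Bt ≤ 16 * (m - Dt / 16) := by omega
  have h15 : 16 * (p.A * (Ft / 16) + p.B * (Dt / 16)) + q ≤ 16 * (p.A' * (m - Dt / 16)) := by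
    have h11 : p.A * (16 * (Ft / 16)) ≤ p.A * Ft := Nat.mul_le_mul_left _ dF.1
    have h12 : p.A * (16 * (Ft / 16)) = 16 * (p.A * (Ft / 16)) := by ring
    have h21 : p.B * (16 * (Dt / 16)) ≤ p.B * Dt := Nat.mul_le_mul_left _ dD.1
    have h22 : p.B * (16 * (Dt / 16)) = 16 * (p.B * (Dt / 16)) := by ring
    have h13 : p.A' * Bt ≤ p.A' * (16 * (m - Dt / 16)) := Nat.mul_le_mul_left _ hBB
    have h16 : p.A' * (16 * (m - Dt / 16)) = 16 * (p.A' * (m - Dt / 16)) := by ring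
    omega
  have h17 : (p.L - p.J) * (Dt / 16 - Ft / 16) ≤ p.L * (m - Dt / 16) := by
    have k0 : 16 * (Dt / 16 - Ft / 16) ≤ At + 15 := by omega
    have k1 : (p.L - p.J) * (16 * (Dt / 16 - Ft / 16)) ≤ (p.L - p.J) * (At + 15) :=
      Nat.mul_le_mul_left _ k0
    have k2 : (p.L - p.J) * (At + 15) = (p.L - p.J) * At + (p.L - p.J) * 15 := by ring
    have k3 : (p.L - p.J) * (16 * (Dt / 16 - Ft / 16)) =
        16 * ((p.L - p.J) * (Dt / 16 - Ft / 16)) := by ring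
    have k4 : p.L * Bt ≤ p.L * (16 * (m - Dt / 16)) := Nat.mul_le_mul_left _ hBB
    have k5 : p.L * (16 * (m - Dt / 16)) = 16 * (p.L * (m - Dt / 16)) := by ring
    have k6 : (p.L - p.J) * 15 ≤ q := by
      have z1 : (p.L - p.J) * 15 ≤ p.L * 15 := Nat.mul_le_mul_right _ (Nat.sub_le _ _)
      have z2 : p.L * 450 ≤ p.L * (960 * g + 450) := Nat.mul_le_mul_left _ (by omega)
      omega
    omega
  refine ⟨O1, E / 16, Gt / 16, Dt / 16, Ft / 16, ht / 16 + 3, by omega, by omega, by omega,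
    by omega, by omega, by omega, by omega, h10, by omega, by omega, h14, ?_, ?_, ?_⟩
  · rw [← hm]
    exact h15
  · rw [← hm]
    exact h17
  obtain ⟨G1, hG1⟩ : ∃ z, z = Gt / 16 := ⟨_, rfl⟩
  obtain ⟨D1, hD1⟩ : ∃ z, z = Dt / 16 := ⟨_, rfl⟩
  obtain ⟨F1, hF1⟩ : ∃ z, z = Ft / 16 := ⟨_, rfl⟩
  obtain ⟨h1, hh1⟩ : ∃ z, z = ht / 16 + 3 := ⟨_, rfl⟩
  rw [← hG1, ← hD1, ← hF1, ← hh1]
  rw [← hG1] at dG
  rw [← hD1] at dD
  rw [← hF1] at dF
  have dh1 : 16 * h1 ≤ ht + 48 := by omega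
  have w1 : F1 ≤ D1 := by omega
  have w2 : D1 ≤ m := by omega
  obtain ⟨α, hα⟩ := Nat.exists_eq_add_of_le w1
  obtain ⟨β, hβ⟩ := Nat.exists_eq_add_of_le w2
  have e1 : ((D1 : ℤ) - F1) = α := by
    rw [hα]
    push_cast
    ring
  have e2 : ((g : ℤ) * q - D1) = β := by
    have : ((m : ℕ) : ℤ) = D1 + β := by exact_mod_cast hβ
    rw [hm] at this
    push_cast at this
    linarith
  rw [e1, e2]
  clear e1 e2
  have k1 : 16 * α ≤ At + 15 := by omega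
  have k2 : 16 * β ≤ Bt + 15 := by omega
  have k3 : At ≤ 16 * m := by omega
  have k4 : Bt ≤ 16 * m := by omega
  have k5 : O ≤ 16 * n := by omega
  have k6 : Ft ≤ 16 * m := by omega
  have hL : (0 : ℤ) ≤ p.L := Int.natCast_nonneg _
  have hJ : (0 : ℤ) ≤ p.J := Int.natCast_nonneg _
  have r1 : (256 : ℤ) * (h1 : ℤ) ^ 2 ≤ (ht : ℤ) ^ 2 + (1536 * m + 2304) :=
    round_h (h := ht) (m := m) (by exact_mod_cast dh1) (by exact_mod_cast c11)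
      (Int.natCast_nonneg _)
  have r2 : (O : ℤ) ^ 2 ≤ 256 * (O1 : ℤ) ^ 2 + 512 * n :=
    round_O (O := O) (m := n) (by exact_mod_cast hO1b) (by exact_mod_cast k5)
      (by exact_mod_cast hO16)
  refine ⟨round_lin hL hJ
    (round_T (O := O) (G := Gt) (F := Ft) (a := At) (b := Bt) (m := m) (by exact_mod_cast hO1a)
      (by exact_mod_cast dG.1) (by exact_mod_cast dF.1) (by exact_mod_cast k1)
      (by exact_mod_cast k2) (by exact_mod_cast k3) (by exact_mod_cast k4)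
      (Int.natCast_nonneg _) (Int.natCast_nonneg _) (Int.natCast_nonneg _) (Int.natCast_nonneg _)
      (Int.natCast_nonneg _)) r1 r2 key hq2, 
    round_H (O := O) (G := Gt) (F := Ft) (A := At) (m := m) (n := n) hL (Int.natCast_nonneg _)
      (Int.natCast_nonneg _) (Int.natCast_nonneg _) (by exact_mod_cast hO1a)
      (by exact_mod_cast dG.1) (by exact_mod_cast dF.1) (by exact_mod_cast k1)
      (by exact_mod_cast k6) (by exact_mod_cast k3) (Int.natCast_nonneg _)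
      (Int.natCast_nonneg _) (Int.natCast_nonneg _) (Int.natCast_nonneg _) r2 key2 hq3⟩

end Pool.Agent.OCN
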