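import Pool.Agent.Lib_helper29.OCN.CellsV4

/-!
# MP_aeb124_co: from a table and an end class to the negation of the statement
-/

set_option autoImplicit false

namespace Pool.Agent.OCN

/-- The negation of the statement from a table of cells of three kinds with exit records and, for all
large `q`, an end class which contains all positions of the exact phase 1 with the entry data. -/
theorem final_of_tab {K G g S C R0 q0 : ℕ} {p : XPar} {T XT : BT} (hKG : 2 * (K * K) < G * G)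
    (hK : 1 ≤ K) (hκ : p.κ ≤ 2) (hR : 1 + S + S * S ≤ R0) (hC : 1 ≤ C)
    (tab : ∀ e < C, okCV K G S (cgetV T e) = true ∧ okNV (cgetV T) C e = true ∧
      okXT p G g C XT (cgetV T e) = true)
    (h0 : (cgetV T 0).N = 0 ∧ (cgetV T 0).M = 0 ∧ (cgetV T 0).y = 0 ∧ 1 ≤ (cgetV T 0).x ∧
      (cgetV T 0).x ≤ G)
    (hE : ∀ q, q0 ≤ q → ∃ E : Set (Fin (G * q) → Fin (G * q) → Prop), (∀ r ∈ E, SO r) ∧
      ClosedR (K * q + R0) E ∧ ∀ (r : Fin (G * q) → Fin (G * q) → Prop) (o N M y x : ℕ),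
        P1e r (G * q) o y N x M → Ent p G g q N M y x → r ∈ E) :
    ¬ (∀ ε : ℝ, 0 < ε → ∃ N : ℕ, ∀ n : ℕ, N ≤ n → ∀ b : ℕ, 1 ≤ b →
    (b : ℝ) ≤ (1 / Real.sqrt 2 - ε) * (n : ℝ) →
    ∀ WM WB : Set (Finset (Fin n × Fin n)),
      (∀ D : Finset (Fin n × Fin n),
          (∃ v : Fin n, Relation.TransGen (fun x y => (x, y) ∈ D) v v) →
            D ∈ WM ∧ D ∈ WB) →
      (∀ D : Finset (Fin n × Fin n),
          (∃ i j : Fin n, i ≠ j ∧ (i, j) ∉ D ∧ (j, i) ∉ D ∧ insert (i, j) D ∈ WB) →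
            D ∈ WM) →
      (∀ D : Finset (Fin n × Fin n),
          (∃ i j : Fin n, i ≠ j ∧ (i, j) ∉ D ∧ (j, i) ∉ D) →
          (∀ A : Finset (Fin n × Fin n), A.Nonempty → A.card ≤ b →
              (∀ p ∈ A, p.1 ≠ p.2 ∧ p ∉ D ∧ p.swap ∉ D ∧ p.swap ∉ A) →
                D ∪ A ∈ WM) →
            D ∈ WB) →
      (∅ : Finset (Fin n × Fin n)) ∈ WM) := by
  refine final_of_cellsE (q0 := q0 + qX p G g) hKG hK hR hC (fun e he => (tab e he).1)
    (fun e he => (tab e he).2.1) h0 fun q hq => ?_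
  obtain ⟨E, hE1, hE2, hE3⟩ := hE q (by omega)
  refine ⟨E, hE1, hE2, fun r o N M y x h1 _ h3 => hE3 r o N M y x h3 ?_⟩
  have h4 : OnX p G g q N M y x :=
    h1.onX (X := xget XT) fun e he => by
      rw [← okXT_eq]
      exact (tab e he).2.2
  exact h4.ent hκ (by omega)

end Pool.Agent.OCN
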