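import Pool.Agent.Lib_helper29.OCN.Assembly

/-!
# MP_aeb124_co: three nested tables

Level 0 is the coarse table with exit records, the exit edges of level 1 are parts of edges of level 0,
the exit edges of level 2 are parts of edges of level 1. The start is the cell 0 of level 2.
-/

set_option autoImplicit false

namespace Pool.Agent.OCN

section

variable {V : Type} [Fintype V]

/-- the positions of the exact phase 1 over a plan -/
def PDom (n : ℕ) (c : ℕ → CellV) (C u : ℕ) : Set (V → V → Prop) :=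
  {r | ∃ o y N x M, P1e r n o y N x M ∧ (VDom c C u N M y x ∧ 1 ≤ x)}

/-- the positions over a plan may be added to a closed class which contains the exits -/
theorem PDom.add {B n u K G S C : ℕ} {E : Set (V → V → Prop)} {c : ℕ → CellV}
    (hq : 2 * S + 1 ≤ u) (hB : K * u + (1 + S + S * S) ≤ B) (hn : G * u ≤ n)
    (hok : ∀ e < C, okCV K G S (c e) = true) (hN : ∀ e < C, okNV c C e = true)
    (hs : ∀ r ∈ E, SO r) (hE : ClosedR B E)
    (hx : ∀ (r : V → V → Prop) (o N M y x : ℕ), VExit c C u N M y x → 1 ≤ x →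
      P1e r n o y N x M → r ∈ E) :
    (∀ r ∈ E ∪ PDom n c C u, SO r) ∧ ClosedR B (E ∪ PDom n c C u) := by
  refine ⟨?_, ?_⟩
  · rintro r (h1 | ⟨o, y, N, x, M, h1, _⟩)
    · exact hs r h1
    · exact h1.p1s.so
  · exact P1e.cellsV hq hB hn hok hN hx
      (fun r hr => ((closedR_iff _ _).1 hE r hr).mono Set.subset_union_left)

end

/-- The negation of the statement from three nested tables and, for all large `q`, an end class which
contains all positions of the exact phase 1 with the entry data. -/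
theorem final_of_tab3 {K G g S S' S'' C C' C'' R0 q0 : ℕ} {p : XPar} {T XT T' F' T'' F'' : BT}
    (hKG : 2 * (K * K) < G * G) (hK : 1 ≤ K) (hκ : p.κ ≤ 2) (hR : 1 + S + S * S ≤ R0)
    (hR' : 1 + S' + S' * S' ≤ R0) (hR'' : 1 + S'' + S'' * S'' ≤ R0) (hC : 1 ≤ C'')
    (tab : ∀ e < C, okCV K G S (cgetV T e) = true ∧ okNV (cgetV T) C e = true ∧
      okXT p G g C XT (cgetV T e) = true)
    (tab' : ∀ e < C', okCV (2 * K) (2 * G) S' (cgetV T' e) = true ∧
      okNV (cgetV T') C' e = true ∧ okF 2 C (cgetV T) C' (fget2 F') (cgetV T' e) = true)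
    (tab'' : ∀ e < C'', okCV (2 * (2 * K)) (2 * (2 * G)) S'' (cgetV T'' e) = true ∧
      okNV (cgetV T'') C'' e = true ∧ okF 2 C' (cgetV T') C'' (fget2 F'') (cgetV T'' e) = true)
    (h0 : (cgetV T'' 0).N = 0 ∧ (cgetV T'' 0).M = 0 ∧ (cgetV T'' 0).y = 0 ∧
      1 ≤ (cgetV T'' 0).x ∧ (cgetV T'' 0).x ≤ 2 * (2 * G))
    (hE : ∀ q, q0 ≤ q → ∃ E : Set (Fin (G * q) → Fin (G * q) → Prop), (∀ r ∈ E, SO r) ∧
      ClosedR (K * q + R0) E ∧ ∀ (r : Fin (G * q) → Fin (G * q) → Prop) (o N M y x : ℕ),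
        P1e r (G * q) o y N x M → Ent p G g q N M y x → r ∈ E) :
    ¬ (∀ ε : ℝ, 0 < ε → ∃ N : ℕ, ∀ n : ℕ, N ≤ n → ∀ b : ℕ, 1 ≤ b →
    (b : ℝ) ≤ (1 / Real.sqrt 2 - ε) * (n : ℝ) →
    ∀ WM WB : Set (Finset (Fin n × Fin n)),
      (∀ D : Finset (Fin n × Fin n),
          (∃ v : Fin n, Relation.TransGen (fun x y => (x, y) ∈ D) v v) →
            D ∈ WM ∧ D ∈ WB) →
      (∀ D : Finset (Fin n × Fin n),
          (∃ i j : Fin n, i ≠ j ∧ (i, j) ∉ D ∧ (j, i) ∉ D ∧ insert (i, j) D ∈ WB) →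
            D ∈ WM) →
      (∀ D : Finset (Fin n × Fin n),
          (∃ i j : Fin n, i ≠ j ∧ (i, j) ∉ D ∧ (j, i) ∉ D) →
          (∀ A : Finset (Fin n × Fin n), A.Nonempty → A.card ≤ b →
              (∀ p ∈ A, p.1 ≠ p.2 ∧ p ∉ D ∧ p.swap ∉ D ∧ p.swap ∉ A) →
                D ∪ A ∈ WM) →
            D ∈ WB) →
      (∅ : Finset (Fin n × Fin n)) ∈ WM) := by
  have hKG' : 2 * (2 * (2 * K) * (2 * (2 * K))) < 2 * (2 * G) * (2 * (2 * G)) := by
    calc 2 * (2 * (2 * K) * (2 * (2 * K))) = 16 * (2 * (K * K)) := by ring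
      _ < 16 * (G * G) := Nat.mul_lt_mul_of_pos_left hKG (by norm_num)
      _ = 2 * (2 * G) * (2 * (2 * G)) := by ring
  refine final_of_cellsE (q0 := q0 + qX p G g + (2 * S + 1) + (2 * S' + 1)) hKG' (by omega) hR'' hC
    (fun e he => (tab'' e he).1) (fun e he => (tab'' e he).2.1) h0 fun q hq => ?_
  have e1 : 2 * (2 * G) * q = G * (2 * (2 * q)) := by ring
  have e2 : 2 * (2 * K) * q = K * (2 * (2 * q)) := by ring
  have e3 : 2 * K * (2 * q) = K * (2 * (2 * q)) := by ring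
  have e4 : 2 * G * (2 * q) = G * (2 * (2 * q)) := by ring
  rw [e1, e2]
  obtain ⟨E, hE1, hE2, hE3⟩ := hE (2 * (2 * q)) (by omega)
  -- level 0
  obtain ⟨a1, a2⟩ := PDom.add (n := G * (2 * (2 * q))) (u := 2 * (2 * q)) (c := cgetV T) (C := C)
    (S := S) (by omega) (by omega) le_rfl (fun e he => (tab e he).1) (fun e he => (tab e he).2.1)
    hE1 hE2 fun r o N M y x h1 _ h3 => hE3 r o N M y x h3 <| by
      have h4 : OnX p G g (2 * (2 * q)) N M y x :=
        h1.onX (X := xget XT) fun e he => by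
          rw [← okXT_eq]
          exact (tab e he).2.2
      exact h4.ent hκ (by omega)
  -- level 1
  obtain ⟨b1, b2⟩ := PDom.add (n := G * (2 * (2 * q))) (u := 2 * q) (c := cgetV T') (C := C')
    (S := S') (K := 2 * K) (G := 2 * G) (by omega) (by omega) (le_of_eq e4)
    (fun e he => (tab' e he).1) (fun e he => (tab' e he).2.1) a1 a2
    fun r o N M y x h1 h2 h3 => Or.inr ⟨o, y, N, x, M, h3,
      h1.coarse (fun e he => (tab e he).1) (fun e he => (tab' e he).2.2), h2⟩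
  -- level 2
  exact ⟨_, b1, b2, fun r o N M y x h1 h2 h3 => Or.inr ⟨o, y, N, x, M, h3,
    h1.coarse (fun e he => (tab' e he).1) (fun e he => (tab'' e he).2.2), h2⟩⟩

end Pool.Agent.OCN
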