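import Pool.Agent.Lib_helper29.OCN.Lift2

/-!
# MP_aeb124_co: plans made of cells with four corners

A cell has the corners `P = (N, M, y, x)`, `P_L = (N + 1, M, yL, xL)`, `P_T = (N, M + 1, yT, xT)`,
`Q = (N + 1, M + 1, yQ, xQ)`. In the game with parameters scaled by `q` the position moves in the
triangle `P, P_L, P_T` with the slopes `P_L - P` and `P_T - P`, and then in the triangle
`P_L, P_T, Q` with the slopes `Q - P_T` and `Q - P_L`. Behind the right edge `P_L, Q` and behind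
the top edge `P_T, Q` there is a further cell or the exit.
-/

set_option autoImplicit false

namespace Pool.Agent.OCN

/-- a cell of a plan -/
structure Cell where
  /-- the first corner -/
  N : ℕ
  /-- the first corner -/
  M : ℕ
  /-- the first corner -/
  y : ℕ
  /-- the first corner -/
  x : ℕ
  /-- the corner `P_L` -/
  yL : ℕ
  /-- the corner `P_L` -/
  xL : ℕ
  /-- the corner `P_T` -/
  yT : ℕ
  /-- the corner `P_T` -/
  xT : ℕ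
  /-- the corner `Q` -/
  yQ : ℕ
  /-- the corner `Q` -/
  xQ : ℕ
  /-- the next cell behind the right edge -/
  iR : ℕ
  /-- the next cell behind the top edge -/
  iT : ℕ

/-- `(N, M, y, x)` is the point `l₀ P + l₁ P_L + l₂ P_T` -/
structure InLL (c : Cell) (q l₀ l₁ l₂ N M y x : ℕ) : Prop where
  sum : l₀ + l₁ + l₂ = q
  eN : N = q * c.N + l₁
  eM : M = q * c.M + l₂
  ey : y = l₀ * c.y + l₁ * c.yL + l₂ * c.yT
  ex : x = l₀ * c.x + l₁ * c.xL + l₂ * c.xT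

/-- `(N, M, y, x)` is the point `m₁ P_L + m₂ P_T + m₃ Q` -/
structure InUR (c : Cell) (q m₁ m₂ m₃ N M y x : ℕ) : Prop where
  sum : m₁ + m₂ + m₃ = q
  eN : N = q * c.N + (m₁ + m₃)
  eM : M = q * c.M + (m₂ + m₃)
  ey : y = m₁ * c.yL + m₂ * c.yT + m₃ * c.yQ
  ex : x = m₁ * c.xL + m₂ * c.xT + m₃ * c.xQ

/-- the cell `c'` lies behind the right edge of `c` -/
def matchR (c c' : Cell) : Bool :=
  Nat.beq c'.N (c.N + 1) && (Nat.beq c'.M c.M && (Nat.beq c'.y c.yL && (Nat.beq c'.x c.xL &&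
    (Nat.beq c'.yT c.yQ && Nat.beq c'.xT c.xQ))))

/-- the cell `c'` lies behind the top edge of `c` -/
def matchT (c c' : Cell) : Bool :=
  Nat.beq c'.N c.N && (Nat.beq c'.M (c.M + 1) && (Nat.beq c'.y c.yT && (Nat.beq c'.x c.xT &&
    (Nat.beq c'.yL c.yQ && Nat.beq c'.xL c.xQ))))

/-- the cell is monotone -/
def monoC (c : Cell) : Bool :=
  (Nat.ble c.y c.yL && (Nat.ble c.x c.xL && (Nat.ble c.y c.yT && Nat.ble c.x c.xT))) &&
    (Nat.ble c.yL c.yQ && (Nat.ble c.xL c.xQ && (Nat.ble c.yT c.yQ && Nat.ble c.xT c.xQ)))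

/-- the conditions on a cell -/
def okC (K G S : ℕ) (c : Cell) : Bool :=
  monoC c && ((okV K G (c.yL - c.y) (c.xL - c.x) (c.yT - c.y) (c.xT - c.x) (c.N + 1) c.M c.yL c.xL &&
    (okV K G (c.yL - c.y) (c.xL - c.x) (c.yT - c.y) (c.xT - c.x) c.N (c.M + 1) c.yT c.xT &&
    okV K G (c.yQ - c.yT) (c.xQ - c.xT) (c.yQ - c.yL) (c.xQ - c.xL) (c.N + 1) (c.M + 1) c.yQ
      c.xQ)) &&
  ((Nat.ble (c.yL - c.y) S && (Nat.ble (c.xL - c.x) S && (Nat.ble (c.yT - c.y) S &&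
    Nat.ble (c.xT - c.x) S))) &&
  ((Nat.ble (c.yQ - c.yT) S && (Nat.ble (c.xQ - c.xT) S && (Nat.ble (c.yQ - c.yL) S &&
    Nat.ble (c.xQ - c.xL) S))) &&
  (Nat.ble 1 ((c.yL - c.y) + (c.xL - c.x) + ((c.yT - c.y) + (c.xT - c.x))) &&
    Nat.ble 1 ((c.yQ - c.yT) + (c.xQ - c.xT) + ((c.yQ - c.yL) + (c.xQ - c.xL)))))))

section
variable {c c' : Cell} {q l₀ l₁ l₂ m₁ m₂ m₃ N M y x K G S : ℕ}

theorem InLL.diag (h : InLL c q 0 l₁ l₂ N M y x) : InUR c q l₁ l₂ 0 N M y x := by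
  obtain ⟨h1, h2, h3, h4, h5⟩ := h
  exact ⟨by omega, by omega, by omega, by omega, by omega⟩

theorem InUR.right (h : InUR c q m₁ 0 m₃ N M y x) (hm : matchR c c' = true) :
    InLL c' q m₁ 0 m₃ N M y x := by
  unfold matchR at hm
  simp only [Bool.and_eq_true] at hm
  obtain ⟨e1, e2, e3, e4, e5, e6⟩ := hm
  have e1 := Nat.eq_of_beq_eq_true e1
  have e2 := Nat.eq_of_beq_eq_true e2
  have e3 := Nat.eq_of_beq_eq_true e3
  have e4 := Nat.eq_of_beq_eq_true e4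
  have e5 := Nat.eq_of_beq_eq_true e5
  have e6 := Nat.eq_of_beq_eq_true e6
  obtain ⟨h1, h2, h3, h4, h5⟩ := h
  refine ⟨by omega, ?_, ?_, ?_, ?_⟩
  · rw [e1, h2, ← h1]
    ring
  · rw [e2, h3]
    ring
  · rw [e3, e5, h4]
    ring
  · rw [e4, e6, h5]
    ring

theorem InUR.top (h : InUR c q 0 m₂ m₃ N M y x) (hm : matchT c c' = true) :
    InLL c' q m₂ m₃ 0 N M y x := by
  unfold matchT at hm
  simp only [Bool.and_eq_true] at hm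
  obtain ⟨e1, e2, e3, e4, e5, e6⟩ := hm
  have e1 := Nat.eq_of_beq_eq_true e1
  have e2 := Nat.eq_of_beq_eq_true e2
  have e3 := Nat.eq_of_beq_eq_true e3
  have e4 := Nat.eq_of_beq_eq_true e4
  have e5 := Nat.eq_of_beq_eq_true e5
  have e6 := Nat.eq_of_beq_eq_true e6
  obtain ⟨h1, h2, h3, h4, h5⟩ := h
  refine ⟨by omega, ?_, ?_, ?_, ?_⟩
  · rw [e1, h2]
    ring
  · rw [e2, h3, ← h1]
    ring
  · rw [e3, e5, h4]
    ring
  · rw [e4, e6, h5]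
    ring

/-- L step in the first triangle -/
theorem InLL.stepL (h : InLL c q (l₀ + 1) l₁ l₂ N M y x) (hY : c.y ≤ c.yL) (hX : c.x ≤ c.xL) :
    InLL c q l₀ (l₁ + 1) l₂ (N + 1) M (y + (c.yL - c.y)) (x + (c.xL - c.x)) := by
  obtain ⟨i, hi⟩ := Nat.exists_eq_add_of_le hY
  obtain ⟨j, hj⟩ := Nat.exists_eq_add_of_le hX
  obtain ⟨h1, h2, h3, h4, h5⟩ := h
  refine ⟨by omega, by omega, by omega, ?_, ?_⟩
  · rw [hi, Nat.add_sub_cancel_left, h4, hi]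
    ring
  · rw [hj, Nat.add_sub_cancel_left, h5, hj]
    ring

/-- T step in the first triangle -/
theorem InLL.stepT (h : InLL c q (l₀ + 1) l₁ l₂ N M y x) (hY : c.y ≤ c.yT) (hX : c.x ≤ c.xT) :
    InLL c q l₀ l₁ (l₂ + 1) N (M + 1) (y + (c.yT - c.y)) (x + (c.xT - c.x)) := by
  obtain ⟨i, hi⟩ := Nat.exists_eq_add_of_le hY
  obtain ⟨j, hj⟩ := Nat.exists_eq_add_of_le hX
  obtain ⟨h1, h2, h3, h4, h5⟩ := h
  refine ⟨by omega, by omega, by omega, ?_, ?_⟩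
  · rw [hi, Nat.add_sub_cancel_left, h4, hi]
    ring
  · rw [hj, Nat.add_sub_cancel_left, h5, hj]
    ring

/-- L step in the second triangle -/
theorem InUR.stepL (h : InUR c q m₁ (m₂ + 1) m₃ N M y x) (hY : c.yT ≤ c.yQ) (hX : c.xT ≤ c.xQ) :
    InUR c q m₁ m₂ (m₃ + 1) (N + 1) M (y + (c.yQ - c.yT)) (x + (c.xQ - c.xT)) := by
  obtain ⟨i, hi⟩ := Nat.exists_eq_add_of_le hY
  obtain ⟨j, hj⟩ := Nat.exists_eq_add_of_le hX
  obtain ⟨h1, h2, h3, h4, h5⟩ := h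
  refine ⟨by omega, by omega, by omega, ?_, ?_⟩
  · rw [hi, Nat.add_sub_cancel_left, h4, hi]
    ring
  · rw [hj, Nat.add_sub_cancel_left, h5, hj]
    ring

/-- T step in the second triangle -/
theorem InUR.stepT (h : InUR c q (m₁ + 1) m₂ m₃ N M y x) (hY : c.yL ≤ c.yQ) (hX : c.xL ≤ c.xQ) :
    InUR c q m₁ m₂ (m₃ + 1) N (M + 1) (y + (c.yQ - c.yL)) (x + (c.xQ - c.xL)) := by
  obtain ⟨i, hi⟩ := Nat.exists_eq_add_of_le hY
  obtain ⟨j, hj⟩ := Nat.exists_eq_add_of_le hX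
  obtain ⟨h1, h2, h3, h4, h5⟩ := h
  refine ⟨by omega, by omega, by omega, ?_, ?_⟩
  · rw [hi, Nat.add_sub_cancel_left, h4, hi]
    ring
  · rw [hj, Nat.add_sub_cancel_left, h5, hj]
    ring

/-- the costs are monotone in the position -/
theorem costs_mono {i j i' j' a b u v a' b' u' v' : ℕ} (ha : a ≤ a') (hb : b ≤ b') (hu : u ≤ u')
    (hv : v ≤ v')
    (h : a' + (i + 1) * (b' + v') + j * (a' + u') ≤ K ∧ b' + (j' + 1) * (a' + u') + i' * (b' + v') ≤ K ∧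
      a' + u' + (b' + v') + 1 ≤ G) :
    a + (i + 1) * (b + v) + j * (a + u) ≤ K ∧ b + (j' + 1) * (a + u) + i' * (b + v) ≤ K ∧
      a + u + (b + v) + 1 ≤ G := by
  obtain ⟨h1, h2, h3⟩ := h
  have e1 : b + v ≤ b' + v' := by omega
  have e2 : a + u ≤ a' + u' := by omega
  have e3 := Nat.mul_le_mul_left (i + 1) e1
  have e4 := Nat.mul_le_mul_left j e2
  have e5 := Nat.mul_le_mul_left (j' + 1) e2
  have e6 := Nat.mul_le_mul_left i' e1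
  exact ⟨by omega, by omega, by omega⟩

/-- the combination of three points -/
theorem costs_comb {i j i' j' a₀ b₀ u₀ v₀ a₁ b₁ u₁ v₁ a₂ b₂ u₂ v₂ : ℕ} (hs : l₀ + l₁ + l₂ = q)
    (h₀ : a₀ + (i + 1) * (b₀ + v₀) + j * (a₀ + u₀) ≤ K ∧ b₀ + (j' + 1) * (a₀ + u₀) + i' * (b₀ + v₀) ≤ K ∧
      a₀ + u₀ + (b₀ + v₀) + 1 ≤ G)
    (h₁ : a₁ + (i + 1) * (b₁ + v₁) + j * (a₁ + u₁) ≤ K ∧ b₁ + (j' + 1) * (a₁ + u₁) + i' * (b₁ + v₁) ≤ K ∧
      a₁ + u₁ + (b₁ + v₁) + 1 ≤ G)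
    (h₂ : a₂ + (i + 1) * (b₂ + v₂) + j * (a₂ + u₂) ≤ K ∧ b₂ + (j' + 1) * (a₂ + u₂) + i' * (b₂ + v₂) ≤ K ∧
      a₂ + u₂ + (b₂ + v₂) + 1 ≤ G)
    (eN : N = l₀ * a₀ + l₁ * a₁ + l₂ * a₂) (eM : M = l₀ * b₀ + l₁ * b₁ + l₂ * b₂)
    (ey : y = l₀ * u₀ + l₁ * u₁ + l₂ * u₂) (ex : x = l₀ * v₀ + l₁ * v₁ + l₂ * v₂) :
    N + (i + 1) * (M + x) + j * (N + y) ≤ K * q ∧ M + (j' + 1) * (N + y) + i' * (M + x) ≤ K * q ∧
      N + y + (M + x) + q ≤ G * q := by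
  obtain ⟨x1, x2, x3⟩ := h₀
  obtain ⟨y1, y2, y3⟩ := h₁
  obtain ⟨z1, z2, z3⟩ := h₂
  refine ⟨?_, ?_, ?_⟩
  · refine le_trans (le_of_eq ?_) (lin3 hs x1 y1 z1)
    rw [eN, eM, ey, ex]
    ring
  · refine le_trans (le_of_eq ?_) (lin3 hs x2 y2 z2)
    rw [eN, eM, ey, ex]
    ring
  · refine le_trans (le_of_eq ?_) (lin3 hs x3 y3 z3)
    rw [eN, eM, ey, ex, ← hs]
    ring

/-- the data of a cell -/
theorem okC_iff (h : okC K G S c = true) :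
    ((c.y ≤ c.yL ∧ c.x ≤ c.xL ∧ c.y ≤ c.yT ∧ c.x ≤ c.xT) ∧
      (c.yL ≤ c.yQ ∧ c.xL ≤ c.xQ ∧ c.yT ≤ c.yQ ∧ c.xT ≤ c.xQ)) ∧
    (okV K G (c.yL - c.y) (c.xL - c.x) (c.yT - c.y) (c.xT - c.x) (c.N + 1) c.M c.yL c.xL = true ∧
    okV K G (c.yL - c.y) (c.xL - c.x) (c.yT - c.y) (c.xT - c.x) c.N (c.M + 1) c.yT c.xT = true ∧
    okV K G (c.yQ - c.yT) (c.xQ - c.xT) (c.yQ - c.yL) (c.xQ - c.xL) (c.N + 1) (c.M + 1) c.yQ
      c.xQ = true) ∧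
    (c.yL - c.y ≤ S ∧ c.xL - c.x ≤ S ∧ c.yT - c.y ≤ S ∧ c.xT - c.x ≤ S) ∧
    (c.yQ - c.yT ≤ S ∧ c.xQ - c.xT ≤ S ∧ c.yQ - c.yL ≤ S ∧ c.xQ - c.xL ≤ S) ∧
    1 ≤ (c.yL - c.y) + (c.xL - c.x) + ((c.yT - c.y) + (c.xT - c.x)) ∧
    1 ≤ (c.yQ - c.yT) + (c.xQ - c.xT) + ((c.yQ - c.yL) + (c.xQ - c.xL)) := by
  unfold okC monoC at h
  simp only [Bool.and_eq_true] at h
  obtain ⟨⟨⟨a1, a2, a3, a4⟩, a5, a6, a7, a8⟩, ⟨b1, b2, b3⟩, ⟨d1, d2, d3, d4⟩, ⟨d5, d6, d7, d8⟩,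
    f1, f2⟩ := h
  exact ⟨⟨⟨Nat.le_of_ble_eq_true a1, Nat.le_of_ble_eq_true a2, Nat.le_of_ble_eq_true a3,
    Nat.le_of_ble_eq_true a4⟩, Nat.le_of_ble_eq_true a5, Nat.le_of_ble_eq_true a6,
    Nat.le_of_ble_eq_true a7, Nat.le_of_ble_eq_true a8⟩, ⟨b1, b2, b3⟩,
    ⟨Nat.le_of_ble_eq_true d1, Nat.le_of_ble_eq_true d2, Nat.le_of_ble_eq_true d3,
    Nat.le_of_ble_eq_true d4⟩, ⟨Nat.le_of_ble_eq_true d5, Nat.le_of_ble_eq_true d6,
    Nat.le_of_ble_eq_true d7, Nat.le_of_ble_eq_true d8⟩, Nat.le_of_ble_eq_true f1,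
    Nat.le_of_ble_eq_true f2⟩

/-- the costs in the first triangle -/
theorem InLL.cost (h : InLL c q l₀ l₁ l₂ N M y x) (hok : okC K G S c = true) :
    N + ((c.yL - c.y) + 1) * (M + x) + (c.xL - c.x) * (N + y) ≤ K * q ∧
      M + ((c.xT - c.x) + 1) * (N + y) + (c.yT - c.y) * (M + x) ≤ K * q ∧
      N + y + (M + x) + q ≤ G * q := by
  obtain ⟨⟨⟨a1, a2, a3, a4⟩, _⟩, ⟨b1, b2, _⟩, _⟩ := okC_iff hok
  have b1 := okV_iff b1
  have b2 := okV_iff b2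
  have b0 := costs_mono (Nat.le_succ c.N) (le_refl c.M) a1 a2 b1
  obtain ⟨hs, e1, e2, e3, e4⟩ := h
  refine costs_comb hs b0 b1 b2 ?_ ?_ e3 e4
  · rw [e1, ← hs]
    ring
  · rw [e2, ← hs]
    ring

/-- the costs in the second triangle -/
theorem InUR.cost (h : InUR c q m₁ m₂ m₃ N M y x) (hok : okC K G S c = true) :
    N + ((c.yQ - c.yT) + 1) * (M + x) + (c.xQ - c.xT) * (N + y) ≤ K * q ∧
      M + ((c.xQ - c.xL) + 1) * (N + y) + (c.yQ - c.yL) * (M + x) ≤ K * q ∧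
      N + y + (M + x) + q ≤ G * q := by
  obtain ⟨⟨_, ⟨a1, a2, a3, a4⟩⟩, ⟨_, _, b3⟩, _⟩ := okC_iff hok
  have b3 := okV_iff b3
  have b1 := costs_mono (le_refl (c.N + 1)) (Nat.le_succ c.M) a1 a2 b3
  have b2 := costs_mono (Nat.le_succ c.N) (le_refl (c.M + 1)) a3 a4 b3
  obtain ⟨hs, e1, e2, e3, e4⟩ := h
  refine costs_comb hs b1 b2 b3 ?_ ?_ e3 e4
  · rw [e1, ← hs]
    ring
  · rw [e2, ← hs]
    ring

end

/-! ## The plan -/

/-- the domain of the plan -/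
def CDom (c : ℕ → Cell) (C q N M y x : ℕ) : Prop :=
  ∃ e < C, (∃ l₀ l₁ l₂, InLL (c e) q l₀ l₁ l₂ N M y x) ∨ ∃ m₁ m₂ m₃, InUR (c e) q m₁ m₂ m₃ N M y x

/-- a point on an exit edge -/
def CExit (c : ℕ → Cell) (C q N M y x : ℕ) : Prop :=
  (∃ e < C, C ≤ (c e).iR ∧ ∃ m₁ m₃, InUR (c e) q m₁ 0 m₃ N M y x) ∨
    ∃ e < C, C ≤ (c e).iT ∧ ∃ m₂ m₃, InUR (c e) q 0 m₂ m₃ N M y x

/-- the next cells -/
def okN (c : ℕ → Cell) (C e : ℕ) : Bool :=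
  (Nat.ble C (c e).iR || matchR (c e) (c (c e).iR)) &&
    (Nat.ble C (c e).iT || matchT (c e) (c (c e).iT))

section
variable {c : ℕ → Cell} {C q K G S B n N M y x : ℕ}

theorem okN_right {e : ℕ} (h : okN c C e = true) :
    C ≤ (c e).iR ∨ ((c e).iR < C ∧ matchR (c e) (c (c e).iR) = true) := by
  unfold okN at h
  rw [Bool.and_eq_true, Bool.or_eq_true, Bool.or_eq_true] at h
  rcases Nat.lt_or_ge (c e).iR C with h1 | h1
  · rcases h.1 with h2 | h2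
    · exact Or.inl (Nat.le_of_ble_eq_true h2)
    · exact Or.inr ⟨h1, h2⟩
  · exact Or.inl h1

theorem okN_top {e : ℕ} (h : okN c C e = true) :
    C ≤ (c e).iT ∨ ((c e).iT < C ∧ matchT (c e) (c (c e).iT) = true) := by
  unfold okN at h
  rw [Bool.and_eq_true, Bool.or_eq_true, Bool.or_eq_true] at h
  rcases Nat.lt_or_ge (c e).iT C with h1 | h1
  · rcases h.2 with h2 | h2
    · exact Or.inl (Nat.le_of_ble_eq_true h2)
    · exact Or.inr ⟨h1, h2⟩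
  · exact Or.inl h1

/-- an interior point -/
def CInt (c : ℕ → Cell) (C q N M y x : ℕ) : Prop :=
  ∃ e < C, (∃ l₀ l₁ l₂, InLL (c e) q (l₀ + 1) l₁ l₂ N M y x) ∨
    ∃ m₁ m₂ m₃, InUR (c e) q (m₁ + 1) (m₂ + 1) m₃ N M y x

theorem InUR.norm_right (hN : ∀ e < C, okN c C e = true) {e : ℕ} (he : e < C) {m₁ m₃ : ℕ}
    (h : InUR (c e) q m₁ 0 m₃ N M y x) :
    CExit c C q N M y x ∨ ∃ e' < C, InLL (c e') q m₁ 0 m₃ N M y x := by
  rcases okN_right (hN e he) with h1 | ⟨h1, h2⟩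
  · exact Or.inl (Or.inl ⟨e, he, h1, m₁, m₃, h⟩)
  · exact Or.inr ⟨_, h1, h.right h2⟩

theorem InUR.norm_top (hN : ∀ e < C, okN c C e = true) {e : ℕ} (he : e < C) {m₂ m₃ : ℕ}
    (h : InUR (c e) q 0 m₂ m₃ N M y x) :
    CExit c C q N M y x ∨ ∃ e' < C, InLL (c e') q m₂ m₃ 0 N M y x := by
  rcases okN_top (hN e he) with h1 | ⟨h1, h2⟩
  · exact Or.inl (Or.inr ⟨e, he, h1, m₂, m₃, h⟩)
  · exact Or.inr ⟨_, h1, h.top h2⟩

theorem CDom.norm (hq : 1 ≤ q) (hN : ∀ e < C, okN c C e = true) (h : CDom c C q N M y x) :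
    CExit c C q N M y x ∨ CInt c C q N M y x := by
  -- an LL point with positive first coordinate
  have hLL : ∀ {e l₀ l₁ l₂ : ℕ}, e < C → 1 ≤ l₀ → InLL (c e) q l₀ l₁ l₂ N M y x →
      CInt c C q N M y x := by
    intro e l₀ l₁ l₂ he hl h
    obtain ⟨l, rfl⟩ := Nat.exists_eq_add_of_le' hl
    exact ⟨e, he, Or.inl ⟨l, l₁, l₂, h⟩⟩
  have hUR : ∀ {e m₁ m₂ m₃ : ℕ}, e < C → InUR (c e) q m₁ m₂ m₃ N M y x →
      CExit c C q N M y x ∨ CInt c C q N M y x := by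
    intro e m₁ m₂ m₃ he h
    rcases Nat.eq_zero_or_pos m₂ with rfl | h2
    · rcases h.norm_right hN he with h3 | ⟨e', he', h3⟩
      · exact Or.inl h3
      · rcases Nat.eq_zero_or_pos m₁ with rfl | h1
        · rcases h3.diag.norm_top hN he' with h4 | ⟨e'', he'', h4⟩
          · exact Or.inl h4
          · have := h4.sum
            exact Or.inr (hLL he'' (by omega) h4)
        · exact Or.inr (hLL he' h1 h3)
    · rcases Nat.eq_zero_or_pos m₁ with rfl | h1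
      · rcases h.norm_top hN he with h3 | ⟨e', he', h3⟩
        · exact Or.inl h3
        · exact Or.inr (hLL he' h2 h3)
      · obtain ⟨a, rfl⟩ := Nat.exists_eq_add_of_le' h1
        obtain ⟨b, rfl⟩ := Nat.exists_eq_add_of_le' h2
        exact Or.inr ⟨e, he, Or.inr ⟨a, b, m₃, h⟩⟩
  obtain ⟨e, he, ⟨l₀, l₁, l₂, h⟩ | ⟨m₁, m₂, m₃, h⟩⟩ := h
  · rcases Nat.eq_zero_or_pos l₀ with rfl | h0
    · exact hUR he h.diag
    · exact Or.inr (hLL he h0 h)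
  · exact hUR he h

theorem boundL {i j N M y x : ℕ} (hB : K * q + (1 + S + S * S) ≤ B)
    (h : N + (i + 1) * (M + x) + j * (N + y) ≤ K * q) (hi : i ≤ S) (hj : j ≤ S) :
    1 + N + (M + x) + i * (M + x) + j * (N + y + 1) + i * j ≤ B := by
  have e2 : i * j ≤ S * S := Nat.mul_le_mul hi hj
  calc 1 + N + (M + x) + i * (M + x) + j * (N + y + 1) + i * j
      = (N + (i + 1) * (M + x) + j * (N + y)) + (1 + j + i * j) := by ring
    _ ≤ K * q + (1 + S + S * S) := by omega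
    _ ≤ B := hB

theorem boundT {i j N M y x : ℕ} (hB : K * q + (1 + S + S * S) ≤ B)
    (h : M + (j + 1) * (N + y) + i * (M + x) ≤ K * q) (hi : i ≤ S) (hj : j ≤ S) :
    1 + M + (N + y) + i * (M + x + 1) + j * (N + y) + i * j ≤ B := by
  have e2 : i * j ≤ S * S := Nat.mul_le_mul hi hj
  calc 1 + M + (N + y) + i * (M + x + 1) + j * (N + y) + i * j
      = (M + (j + 1) * (N + y) + i * (M + x)) + (1 + i + i * j) := by ring
    _ ≤ K * q + (1 + S + S * S) := by omega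
    _ ≤ B := hB

/-- The steps of the plan: at every point of the domain which is on no exit edge both attacks can
be answered, with at least one purchase in one of the two answers. -/
theorem cells_step (hq : 2 * S + 1 ≤ q) (hB : K * q + (1 + S + S * S) ≤ B) (hn : G * q ≤ n)
    (hok : ∀ e < C, okC K G S (c e) = true) (hN : ∀ e < C, okN c C e = true)
    (h : CDom c C q N M y x) :
    CExit c C q N M y x ∨ ∃ i j i' j', GoodL (CDom c C q) B i j N M y x ∧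
      GoodT (CDom c C q) B i' j' N M y x ∧ 1 ≤ i + j + (i' + j') ∧
      N + y + (M + x) + (i + j + 1) ≤ n ∧ N + y + (M + x) + (i' + j' + 1) ≤ n := by
  rcases h.norm (by omega) hN with h | ⟨e, he, ⟨l₀, l₁, l₂, h⟩ | ⟨m₁, m₂, m₃, h⟩⟩
  · exact Or.inl h
  · right
    obtain ⟨c1, c2, c3⟩ := h.cost (hok e he)
    obtain ⟨⟨⟨a1, a2, a3, a4⟩, _⟩, _, ⟨s1, s2, s3, s4⟩, _, f1, _⟩ := okC_iff (hok e he)
    exact ⟨_, _, _, _, ⟨boundL hB c1 s1 s2, e, he, Or.inl ⟨_, _, _, h.stepL a1 a2⟩⟩,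
      ⟨boundT hB c2 s3 s4, e, he, Or.inl ⟨_, _, _, h.stepT a3 a4⟩⟩, f1, by omega, by omega⟩
  · right
    obtain ⟨c1, c2, c3⟩ := h.cost (hok e he)
    obtain ⟨⟨_, ⟨a1, a2, a3, a4⟩⟩, _, _, ⟨s1, s2, s3, s4⟩, _, f2⟩ := okC_iff (hok e he)
    exact ⟨_, _, _, _, ⟨boundL hB c1 s1 s2, e, he, Or.inr ⟨_, _, _, h.stepL a3 a4⟩⟩,
      ⟨boundT hB c2 s3 s4, e, he, Or.inr ⟨_, _, _, h.stepT a1 a2⟩⟩, f2, by omega, by omega⟩

end

end Pool.Agent.OCN
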