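import Pool.Agent.Lib_helper29.OCN.Cells
import Pool.Agent.Lib_helper16.OCN.Exit

/-!
# MP_aeb124_co: phase 1 from a list of cells
-/

set_option autoImplicit false

namespace Pool.Agent.OCN

variable {V : Type} [Fintype V]

/-- Phase 1 from a list of cells: the class `E` of the next phase and the positions of the plan form a
closed class. -/
theorem P1s.cells {B n q K G S C : ℕ} {E : Set (V → V → Prop)} {c : ℕ → Cell}
    (hq : 2 * S + 1 ≤ q) (hB : K * q + (1 + S + S * S) ≤ B) (hn : G * q ≤ n)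
    (hok : ∀ e < C, okC K G S (c e) = true) (hN : ∀ e < C, okN c C e = true)
    (hExit : ∀ (r : V → V → Prop) (o N M y x : ℕ), CExit c C q N M y x →
      P1s r n o y N x M → r ∈ E)
    (hE : ∀ r ∈ E, Ans B (E ∪ {r | ∃ o y N x M, P1s r n o y N x M ∧ CDom c C q N M y x}) r) :
    ClosedR B (E ∪ {r : V → V → Prop | ∃ o y N x M, P1s r n o y N x M ∧
      CDom c C q N M y x}) := by
  refine P1s.closed (fun _ y N x M => CDom c C q N M y x) ?_ hE
  intro o y N x M hD ho
  rcases cells_step hq hB hn hok hN hD with h | ⟨i, j, i', j', ⟨h1, h2⟩, ⟨h3, h4⟩, h0, h5, h6⟩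
  · exact Or.inl fun r hr => hExit r o N M y x h hr
  · right
    refine ⟨by omega, i, j, o - (i + j + 1), i', j', o - (i' + j' + 1), by omega,
      ⟨by omega, ?_, h2⟩, ⟨by omega, ?_, h4⟩⟩
    · have e1 : i * (x + M) = i * (M + x) := by rw [Nat.add_comm x M]
      have e2 : j * (y + N + 1) = j * (N + y + 1) := by rw [Nat.add_comm y N]
      rw [e1, e2]
      omega
    · have e1 : i' * (x + M + 1) = i' * (M + x + 1) := by rw [Nat.add_comm x M]
      have e2 : j' * (y + N) = j' * (N + y) := by rw [Nat.add_comm y N]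
      rw [e1, e2]
      omega

/-- the first position, with `x` columns -/
theorem P1s.start (x : ℕ) (hx : x ≤ Fintype.card V) :
    P1s (fun _ _ : V => False) (Fintype.card V) (Fintype.card V - x) 0 0 x 0 := by
  have h : P1s (fun _ _ : V => False) (Fintype.card V) ((Fintype.card V - x) + 0 + x) 0 0 0 0 := by
    have := P1s.init (V := V)
    rwa [Nat.add_zero, Nat.sub_add_cancel hx]
  obtain ⟨r', h1, _, h3⟩ := h.buy 0 x
  have h4 : newP (fun _ _ : V => False) r' = 0 := by omega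
  have h5 : r' = fun _ _ => False := by
    classical
    funext u v
    refine propext ⟨fun huv => ?_, fun h => h.elim⟩
    unfold newP at h4
    have h6 := Finset.eq_empty_iff_forall_notMem.1 (Finset.card_eq_zero.1 h4) (u, v)
    simp only [Finset.mem_filter, Finset.mem_univ, true_and, not_false_eq_true, and_true] at h6
    exact h6 huv
  rw [h5] at h1
  simpa using h1

/-! ## The dual class -/

/-- the reversed relations -/
def Fl (E : Set (V → V → Prop)) : Set (V → V → Prop) := {r | flip r ∈ E}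

theorem Fl.closed {B : ℕ} {E : Set (V → V → Prop)} (h : ClosedR B E) : ClosedR B (Fl E) := by
  intro r hr x y hxy h1 h2
  obtain ⟨r', h3, h4, h5, h6⟩ := h (flip r) hr y x hxy.symm h1 h2
  refine ⟨flip r', h3, fun a b hab => h4 b a hab, h5, ?_⟩
  rw [← newP_flip]
  exact h6

theorem ClosedR.union {B : ℕ} {E E' : Set (V → V → Prop)} (h : ClosedR B E) (h' : ClosedR B E') :
    ClosedR B (E ∪ E') := by
  rintro r (hr | hr) x y hxy h1 h2
  · obtain ⟨r', h3, h4⟩ := h r hr x y hxy h1 h2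
    exact ⟨r', Or.inl h3, h4⟩
  · obtain ⟨r', h3, h4⟩ := h' r hr x y hxy h1 h2
    exact ⟨r', Or.inr h3, h4⟩

/-! ## Exits into the class T1 -/

/-- the condition of T1 at the end of phase 1, scaled -/
def t1V (g G N M y x : ℕ) : Bool :=
  Nat.ble g (y + N) && (Nat.ble g x && (Nat.ble (2 * g) (x + M + y) &&
    Nat.ble (2 * g + (N + M + x)) (G + y)))

/-- the exit edges of a cell -/
def okX (g G C : ℕ) (c : Cell) : Bool :=
  (Nat.ble (c.iR + 1) C || ((t1V g G (c.N + 1) c.M c.yL c.xL && t1V g G (c.N + 1) (c.M + 1) c.yQ c.xQ)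
    || (t1V g G c.M (c.N + 1) c.xL c.yL && t1V g G (c.M + 1) (c.N + 1) c.xQ c.yQ))) &&
  (Nat.ble (c.iT + 1) C || ((t1V g G c.N (c.M + 1) c.yT c.xT && t1V g G (c.N + 1) (c.M + 1) c.yQ c.xQ)
    || (t1V g G (c.M + 1) c.N c.xT c.yT && t1V g G (c.M + 1) (c.N + 1) c.xQ c.yQ)))

theorem t1V_iff {g G N M y x : ℕ} (h : t1V g G N M y x = true) :
    g ≤ y + N ∧ g ≤ x ∧ 2 * g ≤ x + M + y ∧ 2 * g + (N + M + x) ≤ G + y := by
  unfold t1V at h
  simp only [Bool.and_eq_true] at h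
  exact ⟨Nat.le_of_ble_eq_true h.1, Nat.le_of_ble_eq_true h.2.1, Nat.le_of_ble_eq_true h.2.2.1,
    Nat.le_of_ble_eq_true h.2.2.2⟩

/-- the segment between two points with `t1V` -/
theorem t1V_seg {g G a b u v a' b' u' v' m m' q N M y x : ℕ} (h : t1V g G a b u v = true)
    (h' : t1V g G a' b' u' v' = true) (hm : m + m' = q) (eN : N = m * a + m' * a')
    (eM : M = m * b + m' * b') (ey : y = m * u + m' * u') (ex : x = m * v + m' * v') :
    g * q ≤ y + N ∧ g * q ≤ x ∧ 2 * (g * q) ≤ x + M + y ∧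
      2 * (g * q) + (N + M + x) ≤ G * q + y := by
  obtain ⟨a1, a2, a3, a4⟩ := t1V_iff h
  obtain ⟨b1, b2, b3, b4⟩ := t1V_iff h'
  subst hm eN eM ey ex
  refine ⟨?_, ?_, ?_, ?_⟩
  · nlinarith [Nat.mul_le_mul_left m a1, Nat.mul_le_mul_left m' b1]
  · nlinarith [Nat.mul_le_mul_left m a2, Nat.mul_le_mul_left m' b2]
  · nlinarith [Nat.mul_le_mul_left m a3, Nat.mul_le_mul_left m' b3]
  · nlinarith [Nat.mul_le_mul_left m a4, Nat.mul_le_mul_left m' b4]

/-- the exit from the scaled inequalities -/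
theorem P1s.t1s {r : V → V → Prop} {B n g G q o y N x M : ℕ} (h : P1s r n o y N x M)
    (hn : G * q ≤ n) (hB : n + 2 ≤ B + g * q) (hsz : N + y + (M + x) + 1 ≤ G * q)
    (h1 : g * q ≤ y + N) (h2 : g * q ≤ x) (h3 : 2 * (g * q) ≤ x + M + y)
    (h4 : 2 * (g * q) + (N + M + x) ≤ G * q + y) : r ∈ Cls (V := V) (T1T B) := by
  have hc := h.card
  obtain ⟨o', rfl⟩ : ∃ o', o = o' + 1 := ⟨o - 1, by omega⟩
  exact h.t1 (by omega) (by omega) (by omega) (by omega)

/-- the exits of the plan into T1 and its dual -/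
theorem P1s.exitT1 {B n q K G S C g : ℕ} {c : ℕ → Cell} (hq : 1 ≤ q) (hn : G * q ≤ n)
    (hg : n + 2 ≤ B + g * q) (hok : ∀ e < C, okC K G S (c e) = true)
    (hX : ∀ e < C, okX g G C (c e) = true) {r : V → V → Prop} {o N M y x : ℕ}
    (hE : CExit c C q N M y x) (h : P1s r n o y N x M) :
    r ∈ Cls (V := V) (T1T B) ∪ Fl (Cls (V := V) (T1T B)) := by
  obtain ⟨e, he, hi, m₁, m₃, hp⟩ | ⟨e, he, hi, m₂, m₃, hp⟩ := hE
  · have hx := hX e he
    obtain ⟨_, _, c3⟩ := hp.cost (hok e he)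
    unfold okX at hx
    rw [Bool.and_eq_true, Bool.or_eq_true] at hx
    have hx1 : (t1V g G ((c e).N + 1) (c e).M (c e).yL (c e).xL = true ∧
        t1V g G ((c e).N + 1) ((c e).M + 1) (c e).yQ (c e).xQ = true) ∨
        (t1V g G (c e).M ((c e).N + 1) (c e).xL (c e).yL = true ∧
          t1V g G ((c e).M + 1) ((c e).N + 1) (c e).xQ (c e).yQ = true) := by
      rcases hx.1 with h1 | h1
      · have := Nat.le_of_ble_eq_true h1
        omega
      · rwa [Bool.or_eq_true, Bool.and_eq_true, Bool.and_eq_true] at h1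
    obtain ⟨k1, k2, k3, k4, k5⟩ := hp
    have k1' : m₁ + m₃ = q := by omega
    have k2' : N = m₁ * ((c e).N + 1) + m₃ * ((c e).N + 1) := by
      rw [k2, ← k1']
      ring
    have k3' : M = m₁ * (c e).M + m₃ * ((c e).M + 1) := by
      rw [k3, ← k1']
      ring
    have k4' : y = m₁ * (c e).yL + m₃ * (c e).yQ := by rw [k4]; ring
    have k5' : x = m₁ * (c e).xL + m₃ * (c e).xQ := by rw [k5]; ring
    rcases hx1 with ⟨h1, h2⟩ | ⟨h1, h2⟩
    · obtain ⟨a1, a2, a3, a4⟩ := t1V_seg h1 h2 k1' k2' k3' k4' k5'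
      exact Or.inl (h.t1s hn hg (by omega) a1 a2 a3 a4)
    · obtain ⟨a1, a2, a3, a4⟩ := t1V_seg h1 h2 k1' k3' k2' k5' k4'
      exact Or.inr (h.flip.t1s hn hg (by omega) a1 a2 a3 a4)
  · have hx := hX e he
    obtain ⟨_, _, c3⟩ := hp.cost (hok e he)
    unfold okX at hx
    rw [Bool.and_eq_true, Bool.or_eq_true (Nat.ble ((c e).iT + 1) C)] at hx
    have hx1 : (t1V g G (c e).N ((c e).M + 1) (c e).yT (c e).xT = true ∧
        t1V g G ((c e).N + 1) ((c e).M + 1) (c e).yQ (c e).xQ = true) ∨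
        (t1V g G ((c e).M + 1) (c e).N (c e).xT (c e).yT = true ∧
          t1V g G ((c e).M + 1) ((c e).N + 1) (c e).xQ (c e).yQ = true) := by
      rcases hx.2 with h1 | h1
      · have := Nat.le_of_ble_eq_true h1
        omega
      · rwa [Bool.or_eq_true, Bool.and_eq_true, Bool.and_eq_true] at h1
    obtain ⟨k1, k2, k3, k4, k5⟩ := hp
    have k1' : m₂ + m₃ = q := by omega
    have k2' : N = m₂ * (c e).N + m₃ * ((c e).N + 1) := by
      rw [k2, ← k1']
      ring
    have k3' : M = m₂ * ((c e).M + 1) + m₃ * ((c e).M + 1) := by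
      rw [k3, ← k1']
      ring
    have k4' : y = m₂ * (c e).yT + m₃ * (c e).yQ := by rw [k4]; ring
    have k5' : x = m₂ * (c e).xT + m₃ * (c e).xQ := by rw [k5]; ring
    rcases hx1 with ⟨h1, h2⟩ | ⟨h1, h2⟩
    · obtain ⟨a1, a2, a3, a4⟩ := t1V_seg h1 h2 k1' k2' k3' k4' k5'
      exact Or.inl (h.t1s hn hg (by omega) a1 a2 a3 a4)
    · obtain ⟨a1, a2, a3, a4⟩ := t1V_seg h1 h2 k1' k3' k2' k5' k4'
      exact Or.inr (h.flip.t1s hn hg (by omega) a1 a2 a3 a4)

/-- A winning class for the whole game from a list of cells with exits into T1 and its dual. The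
first cell is the cell `0`, with `N = M = y = 0`. -/
theorem class_of_cells {B q K G S C g : ℕ} {c : ℕ → Cell} (hq : 2 * S + 1 ≤ q)
    (hB : K * q + (1 + S + S * S) ≤ B) (hn : G * q ≤ Fintype.card V)
    (hg : Fintype.card V + 2 ≤ B + g * q) (hC : 1 ≤ C)
    (hok : ∀ e < C, okC K G S (c e) = true) (hN : ∀ e < C, okN c C e = true)
    (hX : ∀ e < C, okX g G C (c e) = true) (h0 : (c 0).N = 0 ∧ (c 0).M = 0 ∧ (c 0).y = 0) :
    ∃ D : Set (V → V → Prop), (fun _ _ => False) ∈ D ∧ (∀ r ∈ D, SO r) ∧ ClosedR B D := by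
  have hE : ClosedR B (Cls (V := V) (T1T B) ∪ Fl (Cls (V := V) (T1T B))) :=
    (t1_closed B).union (Fl.closed (t1_closed B))
  have hx0 : q * (c 0).x ≤ Fintype.card V := by
    obtain ⟨⟨⟨_, a2, _, _⟩, _⟩, ⟨b1, _, _⟩, _⟩ := okC_iff (hok 0 hC)
    have := (okV_iff b1).2.2
    calc q * (c 0).x ≤ q * G := Nat.mul_le_mul_left _ (by omega)
      _ = G * q := Nat.mul_comm _ _
      _ ≤ _ := hn
  have h00 : CDom c C q 0 0 0 (q * (c 0).x) := by
    obtain ⟨e1, e2, e3⟩ := h0
    exact ⟨0, hC, Or.inl ⟨q, 0, 0, by omega, by rw [e1]; simp, by rw [e2]; simp,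
      by rw [e3]; simp, by simp⟩⟩
  refine ⟨_, Or.inr ⟨_, _, _, _, _, P1s.start (q * (c 0).x) hx0, h00⟩, ?_,
    P1s.cells (n := Fintype.card V) hq hB hn hok hN
      (fun r o N M y x h1 h2 => P1s.exitT1 (by omega) hn hg hok hX h1 h2)
      (fun r hr => ((closedR_iff _ _).1 hE r hr).mono Set.subset_union_left)⟩
  rintro r ((⟨K, R, h1, _⟩ | ⟨K, R, h1, _⟩) | ⟨o, y, N, x, M, h1, _⟩)
  · exact h1.so
  · have h2 := h1.so
    exact ⟨fun x hx => h2.irr x hx, fun x y z hxy hyz => h2.tr z y x hyz hxy⟩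
  · exact h1.so

end Pool.Agent.OCN
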