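import Pool.Agent.Lib_helper29.OCN.Cells2

/-!
# MP_aeb124_co: lists of cells as one number, for the kernel
-/

set_option autoImplicit false

namespace Pool.Agent.OCN

/-- the `k`-th digit in base `65536` -/
def dig (v k : ℕ) : ℕ := Nat.mod (Nat.shiftRight v (16 * k)) 65536

/-- the cell of a number with twelve digits -/
def cellOf (v : ℕ) : Cell :=
  ⟨dig v 0, dig v 1, dig v 2, dig v 3, dig v 4, dig v 5, dig v 6, dig v 7, dig v 8, dig v 9,
    dig v 10, dig v 11⟩

/-- the `e`-th record -/
def recd (T e : ℕ) : ℕ :=
  Nat.mod (Nat.shiftRight T (192 * e)) 0x1000000000000000000000000000000000000000000000000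

/-- the `e`-th cell -/
def cget (T e : ℕ) : Cell := cellOf (recd T e)

/-- evaluate `n` first -/
def withN (n : ℕ) (f : ℕ → Bool) : Bool := Nat.rec (f 0) (fun k _ => f (Nat.succ k)) n

theorem withN_eq (n : ℕ) (f : ℕ → Bool) : withN n f = f n := by cases n <;> rfl

/-- evaluate the entries of a cell first -/
def forceC (c : Cell) (f : Cell → Bool) : Bool :=
  withN c.N fun a0 => withN c.M fun a1 => withN c.y fun a2 => withN c.x fun a3 =>
  withN c.yL fun a4 => withN c.xL fun a5 => withN c.yT fun a6 => withN c.xT fun a7 =>
  withN c.yQ fun a8 => withN c.xQ fun a9 => withN c.iR fun a10 => withN c.iT fun a11 =>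
    f ⟨a0, a1, a2, a3, a4, a5, a6, a7, a8, a9, a10, a11⟩

theorem forceC_eq (c : Cell) (f : Cell → Bool) : forceC c f = f c := by
  unfold forceC
  simp only [withN_eq]

/-- a check for all numbers below `n` -/
def allB (f : ℕ → Bool) (n : ℕ) : Bool := Nat.rec true (fun m ih => f m && ih) n

theorem allB_iff {f : ℕ → Bool} {n : ℕ} (h : allB f n = true) : ∀ e < n, f e = true := by
  induction n with
  | zero => intro e he; omega
  | succ n ih =>
    have h' : (f n && allB f n) = true := h
    rw [Bool.and_eq_true] at h'
    intro e he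
    rcases Nat.lt_succ_iff_lt_or_eq.1 he with h1 | rfl
    · exact ih h'.2 e h1
    · exact h'.1

/-- the next cells -/
def okM (T C : ℕ) (c : Cell) : Bool :=
  (Nat.ble C c.iR || withN (recd T c.iR) fun v => forceC (cellOf v) (matchR c)) &&
    (Nat.ble C c.iT || withN (recd T c.iT) fun v => forceC (cellOf v) (matchT c))

/-- the check of the whole table, `X` is the check of the exits -/
def okTab (T K G S C : ℕ) (X : Cell → Bool) : Bool :=
  allB (fun e => withN (recd T e) fun v => forceC (cellOf v) fun c =>
    okC K G S c && (okM T C c && X c)) C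

theorem okTab_iff {T K G S C : ℕ} {X : Cell → Bool} (h : okTab T K G S C X = true) :
    (∀ e < C, okC K G S (cget T e) = true) ∧ (∀ e < C, okN (cget T) C e = true) ∧
      ∀ e < C, X (cget T e) = true := by
  have h1 : ∀ e < C, okC K G S (cget T e) = true ∧ okM T C (cget T e) = true ∧
      X (cget T e) = true := by
    intro e he
    have h2 := allB_iff h e he
    simp only [withN_eq, forceC_eq, Bool.and_eq_true] at h2
    exact h2
  refine ⟨fun e he => (h1 e he).1, fun e he => ?_, fun e he => (h1 e he).2.2⟩
  have h2 := (h1 e he).2.1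
  unfold okM at h2
  simp only [withN_eq, forceC_eq] at h2
  exact h2

end Pool.Agent.OCN
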