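import Pool.Agent.Lib_helper29.OCN.CellsV
import Pool.Agent.Lib_helper29.OCN.Cells2

/-!
# MP_aeb124_co: the steps of a plan made of cells of three kinds
-/

set_option autoImplicit false

namespace Pool.Agent.OCN

section
variable {c : ℕ → CellV} {C q K G S B n N M y x : ℕ}

/-- The steps of the plan: at every interior point both attacks can be answered, with at least one
purchase in one of the two answers. -/
theorem VInt.step (hq : 2 * S + 1 ≤ q) (hB : K * q + (1 + S + S * S) ≤ B) (hn : G * q ≤ n)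
    (hok : ∀ e < C, okCV K G S (c e) = true) (h : VInt c C q N M y x) :
    ∃ i j i' j', GoodL (VDom c C q) B i j N M y x ∧
      GoodT (VDom c C q) B i' j' N M y x ∧ 1 ≤ i + j + (i' + j') ∧
      N + y + (M + x) + (i + j + 1) ≤ n ∧ N + y + (M + x) + (i' + j' + 1) ≤ n := by
  obtain ⟨e, he, ⟨w₀, w₁, w₂, h, ht⟩ | ⟨w₁, w₂, w₃, h, ht⟩ | ⟨w₀, w₁, w₂, w₃, h, ht, hw⟩⟩ := h
  · -- the triangle `P, P_L, P_T`
    have hk := hok e he
    have hS : ∀ a b d, Supp (c e).ty a b d 0 := by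
      intro a b d
      rcases ht with ht | ht
      · exact Or.inl ⟨ht, Or.inr rfl⟩
      · exact Or.inr (Or.inr ⟨ht, rfl⟩)
    have hLL : okLL K G (c e) = true := by
      unfold okCV at hk
      simp only [Bool.and_eq_true, Bool.or_eq_true] at hk
      rcases hk.2 with h1 | h1 | h1
      · exact h1.2.2.1
      · have := Nat.eq_of_beq_eq_true h1.1
        omega
      · exact h1.2
    have hV0 : okV0 S (c e) = true := by
      unfold okCV at hk
      rw [Bool.and_eq_true] at hk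
      exact hk.1
    obtain ⟨⟨a1, a2, a3, a4⟩, ⟨s1, s2, s3, s4⟩, f⟩ := okV0_iff hV0
    obtain ⟨⟨b1, b2, b3, b4⟩, z1, z2⟩ := okLL_iff hLL
    have c1 := h.costL (K := K) (i := (c e).yL - (c e).y) (j := (c e).xL - (c e).x)
      (Or.inr (monoL (Nat.le_succ _) le_rfl a1 a2 b1)) (Or.inr b1) (Or.inr b2) (Or.inl rfl)
    have c2 := h.costT (K := K) (i := (c e).yT - (c e).y) (j := (c e).xT - (c e).x)
      (Or.inr (monoT (Nat.le_succ _) le_rfl a1 a2 b3)) (Or.inr b3) (Or.inr b4) (Or.inl rfl)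
    have c3 := h.size (G := G) (Or.inr (by omega)) (Or.inr z1) (Or.inr z2) (Or.inl rfl)
    exact ⟨_, _, _, _, ⟨boundL hB c1 s1 s2, e, he, _, _, _, _, h.stepL01 a1 a2, hS _ _ _⟩,
      ⟨boundT hB c2 s3 s4, e, he, _, _, _, _, h.stepT02 a3 a4, hS _ _ _⟩, f, by omega, by omega⟩
  · -- the triangle `P_L, P_T, Q`
    have hk := hok e he
    unfold okCV at hk
    simp only [Bool.and_eq_true, Bool.or_eq_true] at hk
    have h1 : okV1 G S (c e) = true ∧ okLL K G (c e) = true ∧ okUR K (c e) = true ∧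
        Nat.ble 1 (((c e).yQ - (c e).yT) + ((c e).xQ - (c e).xT) +
          (((c e).yQ - (c e).yL) + ((c e).xQ - (c e).xL))) = true := by
      rcases hk.2 with h1 | h1 | h1
      · exact h1.2
      · have := Nat.eq_of_beq_eq_true h1.1
        omega
      · have := Nat.eq_of_beq_eq_true h1.1
        omega
    obtain ⟨g1, _, g3, g4⟩ := h1
    obtain ⟨⟨a1, a2, a3, a4⟩, ⟨s1, s2, s3, s4⟩, sz⟩ := okV1_iff g1
    obtain ⟨b1, b2⟩ := okUR_iff g3
    have f := Nat.le_of_ble_eq_true g4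
    have c1 := h.costL (K := K) (i := (c e).yQ - (c e).yT) (j := (c e).xQ - (c e).xT)
      (Or.inl rfl) (Or.inr (monoL le_rfl (Nat.le_succ _) a1 a2 b1))
      (Or.inr (monoL (Nat.le_succ _) le_rfl a3 a4 b1)) (Or.inr b1)
    have c2 := h.costT (K := K) (i := (c e).yQ - (c e).yL) (j := (c e).xQ - (c e).xL)
      (Or.inl rfl) (Or.inr (monoT le_rfl (Nat.le_succ _) a1 a2 b2))
      (Or.inr (monoT (Nat.le_succ _) le_rfl a3 a4 b2)) (Or.inr b2)
    have c3 := h.size (G := G) (Or.inl rfl) (Or.inr (by omega)) (Or.inr (by omega)) (Or.inr sz)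
    have hS : ∀ a b d, Supp (c e).ty 0 a b d := fun a b d => Or.inl ⟨ht, Or.inl rfl⟩
    exact ⟨_, _, _, _, ⟨boundL hB c1 s1 s2, e, he, _, _, _, _, h.stepL23 a3 a4, hS _ _ _⟩,
      ⟨boundT hB c2 s3 s4, e, he, _, _, _, _, h.stepT13 a1 a2, hS _ _ _⟩, f, by omega, by omega⟩
  · -- the triangles of the second kind
    have hk := hok e he
    unfold okCV at hk
    simp only [Bool.and_eq_true, Bool.or_eq_true] at hk
    obtain ⟨hV0, hk⟩ := hk
    have h1 : okV1 G S (c e) = true ∧ okPQ K (c e) = true ∧ okUR K (c e) = true ∧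
        Nat.ble 1 (((c e).yL - (c e).y) + ((c e).xL - (c e).x) +
          (((c e).yQ - (c e).yL) + ((c e).xQ - (c e).xL))) = true ∧
        Nat.ble 1 (((c e).yQ - (c e).yT) + ((c e).xQ - (c e).xT) +
          (((c e).yT - (c e).y) + ((c e).xT - (c e).x))) = true := by
      rcases hk with h1 | h1 | h1
      · have := Nat.eq_of_beq_eq_true h1.1
        omega
      · exact h1.2
      · have := Nat.eq_of_beq_eq_true h1.1
        omega
    obtain ⟨g1, g2, g3, g4, g5⟩ := h1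
    obtain ⟨⟨p1, p2, p3, p4⟩, ⟨t1, t2, t3, t4⟩, f0⟩ := okV0_iff hV0
    obtain ⟨⟨a1, a2, a3, a4⟩, ⟨s1, s2, s3, s4⟩, sz⟩ := okV1_iff g1
    obtain ⟨b1, b2⟩ := okUR_iff g3
    obtain ⟨b3, b4⟩ := okPQ_iff g2
    have f1 := Nat.le_of_ble_eq_true g4
    have f2 := Nat.le_of_ble_eq_true g5
    have mL : ∀ {i j : ℕ}, (c e).N + 1 + (i + 1) * ((c e).M + 1 + (c e).xQ) +
        j * ((c e).N + 1 + (c e).yQ) ≤ K → N + (i + 1) * (M + x) + j * (N + y) ≤ K * q :=
      fun {i j} hb => h.costL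
        (Or.inr (monoL (Nat.le_succ _) (Nat.le_succ _) (by omega) (by omega) hb))
        (Or.inr (monoL le_rfl (Nat.le_succ _) a1 a2 hb))
        (Or.inr (monoL (Nat.le_succ _) le_rfl a3 a4 hb)) (Or.inr hb)
    have mT : ∀ {i j : ℕ}, (c e).M + 1 + (j + 1) * ((c e).N + 1 + (c e).yQ) +
        i * ((c e).M + 1 + (c e).xQ) ≤ K → M + (j + 1) * (N + y) + i * (M + x) ≤ K * q :=
      fun {i j} hb => h.costT
        (Or.inr (monoT (Nat.le_succ _) (Nat.le_succ _) (by omega) (by omega) hb))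
        (Or.inr (monoT le_rfl (Nat.le_succ _) a1 a2 hb))
        (Or.inr (monoT (Nat.le_succ _) le_rfl a3 a4 hb)) (Or.inr hb)
    have c3 := h.size (G := G) (Or.inr (by omega)) (Or.inr (by omega)) (Or.inr (by omega))
      (Or.inr sz)
    have hS : ∀ {a b d e'}, b = 0 ∨ d = 0 → Supp (c e).ty a b d e' :=
      fun hb => Or.inr (Or.inl ⟨ht, hb⟩)
    rcases Nat.eq_zero_or_pos w₁ with rfl | h1
    · rcases Nat.eq_zero_or_pos w₂ with rfl | h2
      · exact ⟨_, _, _, _, ⟨boundL hB (mL b3) t1 t2, e, he, _, _, _, _, h.stepL01 p1 p2,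
          hS (Or.inr rfl)⟩, ⟨boundT hB (mT b4) t3 t4, e, he, _, _, _, _, h.stepT02 p3 p4,
          hS (Or.inl rfl)⟩, f0, by omega, by omega⟩
      · obtain ⟨w, rfl⟩ := Nat.exists_eq_add_of_le' h2
        exact ⟨_, _, _, _, ⟨boundL hB (mL b1) s1 s2, e, he, _, _, _, _, h.stepL23 a3 a4,
          hS (Or.inl rfl)⟩, ⟨boundT hB (mT b4) t3 t4, e, he, _, _, _, _, h.stepT02 p3 p4,
          hS (Or.inl rfl)⟩, f2, by omega, by omega⟩
    · have h2 : w₂ = 0 := by omega
      rw [h2] at h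
      obtain ⟨w, rfl⟩ := Nat.exists_eq_add_of_le' h1
      exact ⟨_, _, _, _, ⟨boundL hB (mL b3) t1 t2, e, he, _, _, _, _, h.stepL01 p1 p2,
        hS (Or.inr rfl)⟩, ⟨boundT hB (mT b2) s3 s4, e, he, _, _, _, _, h.stepT13 a1 a2,
        hS (Or.inr rfl)⟩, f1, by omega, by omega⟩

end

/-- The plan in the form needed by the number game of phase 1. -/
theorem VDom.moves {c : ℕ → CellV} {C q K G S B n o y N x M : ℕ} (hq : 2 * S + 1 ≤ q)
    (hB : K * q + (1 + S + S * S) ≤ B) (hn : G * q ≤ n)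
    (hok : ∀ e < C, okCV K G S (c e) = true) (hN : ∀ e < C, okNV c C e = true)
    (hD : VDom c C q N M y x) (ho : n = o + y + N + x + M) :
    VExit c C q N M y x ∨
    (1 ≤ o ∧ ∃ i j o' i' j' o'', 1 ≤ i + j + i' + j' ∧
      (o = o' + i + j + 1 ∧
        n + i * (x + M) + j * (y + N + 1) + i * j ≤ B + (o - 1 + y) ∧
        VDom c C q (N + 1) M (y + i) (x + j)) ∧
      (o = o'' + i' + j' + 1 ∧
        n + i' * (x + M + 1) + j' * (y + N) + i' * j' ≤ B + (o - 1 + x) ∧
        VDom c C q N (M + 1) (y + i') (x + j'))) := by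
  rcases hD.norm (by omega) hok hN with h | h
  · exact Or.inl h
  obtain ⟨i, j, i', j', ⟨h1, h2⟩, ⟨h3, h4⟩, h0, h5, h6⟩ := h.step hq hB hn hok
  right
  refine ⟨by omega, i, j, o - (i + j + 1), i', j', o - (i' + j' + 1), by omega,
    ⟨by omega, ?_, h2⟩, ⟨by omega, ?_, h4⟩⟩
  · have e1 : i * (x + M) = i * (M + x) := by rw [Nat.add_comm x M]
    have e2 : j * (y + N + 1) = j * (N + y + 1) := by rw [Nat.add_comm y N]
    rw [e1, e2]
    omega
  · have e1 : i' * (x + M + 1) = i' * (M + x + 1) := by rw [Nat.add_comm x M]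
    have e2 : j' * (y + N) = j' * (N + y) := by rw [Nat.add_comm y N]
    rw [e1, e2]
    omega

variable {V : Type} [Fintype V]

/-- Phase 1 from a list of cells of three kinds: the class `E` of the next phase and the positions of
the plan form a closed class. -/
theorem P1s.cellsV {B n q K G S C : ℕ} {E : Set (V → V → Prop)} {c : ℕ → CellV}
    (hq : 2 * S + 1 ≤ q) (hB : K * q + (1 + S + S * S) ≤ B) (hn : G * q ≤ n)
    (hok : ∀ e < C, okCV K G S (c e) = true) (hN : ∀ e < C, okNV c C e = true)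
    (hExit : ∀ (r : V → V → Prop) (o N M y x : ℕ), VExit c C q N M y x →
      P1s r n o y N x M → r ∈ E)
    (hE : ∀ r ∈ E, Ans B (E ∪ {r | ∃ o y N x M, P1s r n o y N x M ∧ VDom c C q N M y x}) r) :
    ClosedR B (E ∪ {r : V → V → Prop | ∃ o y N x M, P1s r n o y N x M ∧
      VDom c C q N M y x}) := by
  refine P1s.closed (fun _ y N x M => VDom c C q N M y x) ?_ hE
  intro o y N x M hD ho
  rcases hD.moves hq hB hn hok hN ho with h | h
  · exact Or.inl fun r hr => hExit r o N M y x h hr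
  · exact Or.inr h

end Pool.Agent.OCN
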