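import Pool.Agent.Lib_helper29.OCN.CellsX
import Pool.Agent.Lib_helper87.OCN.P1eV

/-!
# MP_aeb124_co: a fine plan whose exit edges are parts of edges of a coarse plan

One unit of the coarse grid is `ρ` units of the fine grid. An exit edge of the fine plan is the `t`-th
of the `ρ` parts of an edge `P, P_T` or `P, P_L` of a cell of the coarse plan.
-/

set_option autoImplicit false

namespace Pool.Agent.OCN

/-- the right edge of the fine cell `f` is the `t`-th part of the edge `P, P_T` of the cell `c` -/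
def subR (ρ t : ℕ) (c f : CellV) : Bool :=
  Nat.ble (t + 1) ρ && (Nat.ble c.y c.yT && (Nat.ble c.x c.xT && (Nat.beq (f.N + 1) (ρ * c.N) &&
  (Nat.beq f.M (ρ * c.M + t) && (Nat.beq f.yL (ρ * c.y + t * (c.yT - c.y)) &&
  (Nat.beq f.xL (ρ * c.x + t * (c.xT - c.x)) && (Nat.beq f.yQ (f.yL + (c.yT - c.y)) &&
  Nat.beq f.xQ (f.xL + (c.xT - c.x)))))))))

/-- the top edge of the fine cell `f` is the `t`-th part of the edge `P, P_L` of the cell `c` -/
def subT (ρ t : ℕ) (c f : CellV) : Bool :=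
  Nat.ble (t + 1) ρ && (Nat.ble c.y c.yL && (Nat.ble c.x c.xL && (Nat.beq (f.M + 1) (ρ * c.M) &&
  (Nat.beq f.N (ρ * c.N + t) && (Nat.beq f.yT (ρ * c.y + t * (c.yL - c.y)) &&
  (Nat.beq f.xT (ρ * c.x + t * (c.xL - c.x)) && (Nat.beq f.yQ (f.yT + (c.yL - c.y)) &&
  Nat.beq f.xQ (f.xT + (c.xL - c.x)))))))))

/-- the exits of the fine cell `f` into the coarse plan `c` with `C` cells, `k` gives the number of the
coarse cell and of the part -/
def okF (ρ C : ℕ) (c : ℕ → CellV) (C' : ℕ) (k : ℕ → ℕ × ℕ) (f : CellV) : Bool :=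
  (Nat.beq f.ty 1 || Nat.beq f.ty 2) &&
  ((Nat.ble (f.iR + 1) C' || (Nat.ble ((k (f.iR - C')).1 + 1) C &&
    subR ρ (k (f.iR - C')).2 (c (k (f.iR - C')).1) f)) &&
  (Nat.ble (f.iT + 1) C' || (Nat.ble ((k (f.iT - C')).1 + 1) C &&
    subT ρ (k (f.iT - C')).2 (c (k (f.iT - C')).1) f)))

theorem InC.subR {c f : CellV} {ρ t q w w' N M y x : ℕ} (h : InC f q 0 w 0 w' N M y x)
    (hs : subR ρ t c f = true) :
    InC c (ρ * q) (ρ * q - (t * q + w')) 0 (t * q + w') 0 N M y x := by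
  unfold Pool.Agent.OCN.subR at hs
  simp only [Bool.and_eq_true] at hs
  obtain ⟨a1, a2, a3, a4, a5, a6, a7, a8, a9⟩ := hs
  have a1 := Nat.le_of_ble_eq_true a1
  have a2 := Nat.le_of_ble_eq_true a2
  have a3 := Nat.le_of_ble_eq_true a3
  have a4 := Nat.eq_of_beq_eq_true a4
  have a5 := Nat.eq_of_beq_eq_true a5
  have a6 := Nat.eq_of_beq_eq_true a6
  have a7 := Nat.eq_of_beq_eq_true a7
  have a8 := Nat.eq_of_beq_eq_true a8
  have a9 := Nat.eq_of_beq_eq_true a9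
  obtain ⟨h1, h2, h3, h4, h5⟩ := h
  obtain ⟨d, hd⟩ := Nat.exists_eq_add_of_le a2
  obtain ⟨d', hd'⟩ := Nat.exists_eq_add_of_le a3
  rw [hd, Nat.add_sub_cancel_left] at a6 a8
  rw [hd', Nat.add_sub_cancel_left] at a7 a9
  obtain ⟨ρ', hρ⟩ := Nat.exists_eq_add_of_le a1
  have hq : w + w' = q := by omega
  have hle : ρ * q - (t * q + w') = ρ' * q + w := by
    rw [hρ, ← hq, Nat.sub_eq_iff_eq_add]
    · ring
    · nlinarith
  rw [hle]
  refine ⟨?_, ?_, ?_, ?_, ?_⟩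
  · rw [hρ, ← hq]
    ring
  · calc N = q * (f.N + 1) := by rw [h2, ← hq]; ring
      _ = ρ * q * c.N + (0 + 0) := by rw [a4]; ring
  · calc M = q * f.M + w' := by rw [h3]; ring
      _ = ρ * q * c.M + (t * q + w' + 0) := by rw [a5]; ring
  · rw [h4, a8, a6, hd, hρ, ← hq]
    ring
  · rw [h5, a9, a7, hd', hρ, ← hq]
    ring

theorem InC.subT {c f : CellV} {ρ t q w w' N M y x : ℕ} (h : InC f q 0 0 w w' N M y x)
    (hs : subT ρ t c f = true) :
    InC c (ρ * q) (ρ * q - (t * q + w')) (t * q + w') 0 0 N M y x := by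
  unfold Pool.Agent.OCN.subT at hs
  simp only [Bool.and_eq_true] at hs
  obtain ⟨a1, a2, a3, a4, a5, a6, a7, a8, a9⟩ := hs
  have a1 := Nat.le_of_ble_eq_true a1
  have a2 := Nat.le_of_ble_eq_true a2
  have a3 := Nat.le_of_ble_eq_true a3
  have a4 := Nat.eq_of_beq_eq_true a4
  have a5 := Nat.eq_of_beq_eq_true a5
  have a6 := Nat.eq_of_beq_eq_true a6
  have a7 := Nat.eq_of_beq_eq_true a7
  have a8 := Nat.eq_of_beq_eq_true a8
  have a9 := Nat.eq_of_beq_eq_true a9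
  obtain ⟨h1, h2, h3, h4, h5⟩ := h
  obtain ⟨d, hd⟩ := Nat.exists_eq_add_of_le a2
  obtain ⟨d', hd'⟩ := Nat.exists_eq_add_of_le a3
  rw [hd, Nat.add_sub_cancel_left] at a6 a8
  rw [hd', Nat.add_sub_cancel_left] at a7 a9
  obtain ⟨ρ', hρ⟩ := Nat.exists_eq_add_of_le a1
  have hq : w + w' = q := by omega
  have hle : ρ * q - (t * q + w') = ρ' * q + w := by
    rw [hρ, ← hq, Nat.sub_eq_iff_eq_add]
    · ring
    · nlinarith
  rw [hle]
  refine ⟨?_, ?_, ?_, ?_, ?_⟩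
  · rw [hρ, ← hq]
    ring
  · calc N = q * f.N + w' := by rw [h2]; ring
      _ = ρ * q * c.N + (t * q + w' + 0) := by rw [a5]; ring
  · calc M = q * (f.M + 1) := by rw [h3, ← hq]; ring
      _ = ρ * q * c.M + (0 + 0) := by rw [a4]; ring
  · rw [h4, a8, a6, hd, hρ, ← hq]
    ring
  · rw [h5, a9, a7, hd', hρ, ← hq]
    ring

/-- the exits of the fine plan lie in the coarse plan -/
theorem VExit.coarse {ρ C C' q N M y x K G S : ℕ} {c c' : ℕ → CellV} {k : ℕ → ℕ × ℕ}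
    (hok : ∀ e < C, okCV K G S (c e) = true) (hF : ∀ e < C', okF ρ C c C' k (c' e) = true)
    (h : VExit c' C' q N M y x) : VDom c C (ρ * q) N M y x := by
  obtain ⟨e, he, h⟩ := h
  have hf := hF e he
  unfold okF at hf
  rw [Bool.and_eq_true, Bool.and_eq_true] at hf
  obtain ⟨h1, h2, h3⟩ := hf
  have hty : ∀ {e a b : ℕ}, e < C → (a = 0 ∨ b = 0) → ∀ w₀, Supp (c e).ty w₀ a b 0 := by
    intro e a b he hw w₀
    rcases okCV_ty (hok e he) with h1 | h1 | h1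
    · exact Or.inl ⟨h1, Or.inr rfl⟩
    · exact Or.inr (Or.inl ⟨h1, hw⟩)
    · exact Or.inr (Or.inr ⟨h1, rfl⟩)
  rcases h with ⟨h4, h5, w, w', hp⟩ | ⟨h4, h5, w, w', hp⟩ | ⟨h4, _⟩
  · rw [Bool.or_eq_true] at h2
    rcases h2 with h2 | h2
    · have := Nat.le_of_ble_eq_true h2
      omega
    · rw [Bool.and_eq_true] at h2
      have h6 := Nat.le_of_ble_eq_true h2.1
      exact ⟨_, h6, _, _, _, _, hp.subR h2.2, hty h6 (Or.inl rfl) _⟩
  · rw [Bool.or_eq_true] at h3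
    rcases h3 with h3 | h3
    · have := Nat.le_of_ble_eq_true h3
      omega
    · rw [Bool.and_eq_true] at h3
      have h6 := Nat.le_of_ble_eq_true h3.1
      exact ⟨_, h6, _, _, _, _, hp.subT h3.2, hty h6 (Or.inr rfl) _⟩
  · rw [Bool.or_eq_true] at h1
    rcases h1 with h1 | h1
    · have := Nat.eq_of_beq_eq_true h1
      omega
    · have := Nat.eq_of_beq_eq_true h1
      omega

/-- The negation of the statement from a fine and a coarse plan and, for all large `q`, an end class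
on `ρ * G * q` elements which contains all exits of the coarse plan. -/
theorem final_two {K G S S' C C' R0 q0 ρ : ℕ} {c c' : ℕ → CellV} {k : ℕ → ℕ × ℕ}
    (hKG : 2 * (K * K) < G * G) (hK : 1 ≤ K) (hρ : 1 ≤ ρ) (hR : 1 + S + S * S ≤ R0)
    (hR' : 1 + S' + S' * S' ≤ R0) (hC : 1 ≤ C')
    (hok : ∀ e < C, okCV K G S (c e) = true) (hN : ∀ e < C, okNV c C e = true)
    (hok' : ∀ e < C', okCV (ρ * K) (ρ * G) S' (c' e) = true) (hN' : ∀ e < C', okNV c' C' e = true)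
    (hF : ∀ e < C', okF ρ C c C' k (c' e) = true)
    (h0 : (c' 0).N = 0 ∧ (c' 0).M = 0 ∧ (c' 0).y = 0 ∧ 1 ≤ (c' 0).x ∧ (c' 0).x ≤ ρ * G)
    (hE : ∀ q, q0 ≤ q → ∃ E : Set (Fin (ρ * G * q) → Fin (ρ * G * q) → Prop), (∀ r ∈ E, SO r) ∧
      ClosedR (K * (ρ * q) + R0) E ∧
      ∀ (r : Fin (ρ * G * q) → Fin (ρ * G * q) → Prop) (o N M y x : ℕ),
        VExit c C (ρ * q) N M y x → 1 ≤ x → P1e r (ρ * G * q) o y N x M → r ∈ E) :
    ¬ (∀ ε : ℝ, 0 < ε → ∃ N : ℕ, ∀ n : ℕ, N ≤ n → ∀ b : ℕ, 1 ≤ b →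
    (b : ℝ) ≤ (1 / Real.sqrt 2 - ε) * (n : ℝ) →
    ∀ WM WB : Set (Finset (Fin n × Fin n)),
      (∀ D : Finset (Fin n × Fin n),
          (∃ v : Fin n, Relation.TransGen (fun x y => (x, y) ∈ D) v v) →
            D ∈ WM ∧ D ∈ WB) →
      (∀ D : Finset (Fin n × Fin n),
          (∃ i j : Fin n, i ≠ j ∧ (i, j) ∉ D ∧ (j, i) ∉ D ∧ insert (i, j) D ∈ WB) →
            D ∈ WM) →
      (∀ D : Finset (Fin n × Fin n),
          (∃ i j : Fin n, i ≠ j ∧ (i, j) ∉ D ∧ (j, i) ∉ D) →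
          (∀ A : Finset (Fin n × Fin n), A.Nonempty → A.card ≤ b →
              (∀ p ∈ A, p.1 ≠ p.2 ∧ p ∉ D ∧ p.swap ∉ D ∧ p.swap ∉ A) →
                D ∪ A ∈ WM) →
            D ∈ WB) →
      (∅ : Finset (Fin n × Fin n)) ∈ WM) := by
  have hρK : 1 ≤ ρ * K := Nat.mul_pos hρ hK
  have hKG' : 2 * (ρ * K * (ρ * K)) < ρ * G * (ρ * G) := by
    have h1 : 0 < ρ * ρ := Nat.mul_pos hρ hρ
    calc 2 * (ρ * K * (ρ * K)) = (ρ * ρ) * (2 * (K * K)) := by ring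
      _ < (ρ * ρ) * (G * G) := Nat.mul_lt_mul_of_pos_left hKG h1
      _ = ρ * G * (ρ * G) := by ring
  refine final_of_cellsE (q0 := q0 + (2 * S + 1)) hKG' hρK hR' hC hok' hN' h0 fun q hq => ?_
  obtain ⟨E, hE1, hE2, hE3⟩ := hE q (by omega)
  have e1 : ρ * K * q = K * (ρ * q) := by ring
  have e2 : G * (ρ * q) ≤ ρ * G * q := le_of_eq (by ring)
  have hρq : q ≤ ρ * q := Nat.le_mul_of_pos_left q hρ
  refine ⟨E ∪ {r | ∃ o y N x M, P1e r (ρ * G * q) o y N x M ∧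
    (VDom c C (ρ * q) N M y x ∧ 1 ≤ x)}, ?_, ?_, ?_⟩
  · rintro r (h1 | ⟨o, y, N, x, M, h1, _⟩)
    · exact hE1 r h1
    · exact h1.p1s.so
  · rw [e1]
    exact P1e.cellsV (by omega) (by omega) e2 hok hN
      (fun r o N M y x h1 h2 h3 => hE3 r o N M y x h1 h2 h3)
      (fun r hr => ((closedR_iff _ _).1 hE2 r hr).mono Set.subset_union_left)
  · intro r o N M y x h1 h2 h3
    exact Or.inr ⟨o, y, N, x, M, h3, h1.coarse hok hF, h2⟩

end Pool.Agent.OCN
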