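import Pool.Agent.Lib_helper29.OCN.CellsV4

/-!
# MP_aeb124_co: exits of a fine table into a coarse table, for the kernel
-/

set_option autoImplicit false

namespace Pool.Agent.OCN

/-- the exits of the fine cell `f` into the coarse table `T` with `C` cells, arranged for the kernel -/
noncomputable def okFT (ρ C : ℕ) (T : BT) (C' : ℕ) (F : BT) (f : CellV) : Bool :=
  (Nat.beq f.ty 1 || Nat.beq f.ty 2) &&
  ((Nat.ble (f.iR + 1) C' || withN (fget2 F (f.iR - C')).1 fun k => withN (fget2 F (f.iR - C')).2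
    fun t => (Nat.ble (k + 1) C && withN (recV T k) fun v => forceV (cellOfV v) fun c =>
      subR ρ t c f)) &&
  (Nat.ble (f.iT + 1) C' || withN (fget2 F (f.iT - C')).1 fun k => withN (fget2 F (f.iT - C')).2
    fun t => (Nat.ble (k + 1) C && withN (recV T k) fun v => forceV (cellOfV v) fun c =>
      subT ρ t c f)))

theorem okFT_eq (ρ C : ℕ) (T : BT) (C' : ℕ) (F : BT) (f : CellV) :
    okFT ρ C T C' F f = okF ρ C (cgetV T) C' (fget2 F) f := by
  unfold okFT
  simp only [withN_eq, forceV_eq]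
  rfl

theorem okTabV_iffX {T X : BT} {p : XPar} {K G g S C C' : ℕ} {s m : ℕ}
    (h : okTabV T K G S C (okXT p G g C' X) s m = true) {e : ℕ} (h1 : s ≤ e) (h2 : e < s + m) :
    okCV K G S (cgetV T e) = true ∧ okNV (cgetV T) C e = true ∧
      okXT p G g C' X (cgetV T e) = true :=
  okTabV_iff h h1 h2

theorem okTabV_iffF {T T' F : BT} {K G S C' ρ C : ℕ} {s m : ℕ}
    (h : okTabV T' K G S C' (okFT ρ C T C' F) s m = true) {e : ℕ} (h1 : s ≤ e)
    (h2 : e < s + m) :
    okCV K G S (cgetV T' e) = true ∧ okNV (cgetV T') C' e = true ∧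
      okF ρ C (cgetV T) C' (fget2 F) (cgetV T' e) = true := by
  have h3 := okTabV_iff h h1 h2
  rw [okFT_eq] at h3
  exact h3

end Pool.Agent.OCN
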