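import Pool.Agent.Lib_helper29.OCN.Cells

/-!
# MP_aeb124_co: plans made of cells with four corners, three kinds of cells

A cell has the corners `P = (N, M, y, x)`, `P_L = (N + 1, M, yL, xL)`, `P_T = (N, M + 1, yT, xT)`,
`Q = (N + 1, M + 1, yQ, xQ)` and a kind `ty`.

* `ty = 1`: the triangles `P, P_L, P_T` and `P_L, P_T, Q`,
* `ty = 2`: the triangles `P, P_L, Q` and `P, P_T, Q`,
* `ty = 3`: the triangle `P, P_L, P_T`, with the exit behind `P_L, P_T`.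
-/

set_option autoImplicit false

namespace Pool.Agent.OCN

/-- a cell of a plan -/
structure CellV where
  /-- the first corner -/
  N : ℕ
  /-- the first corner -/
  M : ℕ
  /-- the first corner -/
  y : ℕ
  /-- the first corner -/
  x : ℕ
  /-- the corner `P_L` -/
  yL : ℕ
  /-- the corner `P_L` -/
  xL : ℕ
  /-- the corner `P_T` -/
  yT : ℕ
  /-- the corner `P_T` -/
  xT : ℕ
  /-- the corner `Q` -/
  yQ : ℕ
  /-- the corner `Q` -/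
  xQ : ℕ
  /-- the next cell behind the right edge -/
  iR : ℕ
  /-- the next cell behind the top edge -/
  iT : ℕ
  /-- the kind -/
  ty : ℕ

/-- `(N, M, y, x)` is the point with the weights `w₀, w₁, w₂, w₃` at the corners -/
structure InC (c : CellV) (q w₀ w₁ w₂ w₃ N M y x : ℕ) : Prop where
  sum : w₀ + w₁ + w₂ + w₃ = q
  eN : N = q * c.N + (w₁ + w₃)
  eM : M = q * c.M + (w₂ + w₃)
  ey : y = w₀ * c.y + w₁ * c.yL + w₂ * c.yT + w₃ * c.yQ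
  ex : x = w₀ * c.x + w₁ * c.xL + w₂ * c.xT + w₃ * c.xQ

/-- the weights lie in one of the triangles -/
def Supp (ty w₀ w₁ w₂ w₃ : ℕ) : Prop :=
  (ty = 1 ∧ (w₀ = 0 ∨ w₃ = 0)) ∨ (ty = 2 ∧ (w₁ = 0 ∨ w₂ = 0)) ∨ (ty = 3 ∧ w₃ = 0)

/-- the cell `c'` lies behind the right edge of `c` -/
def matchRV (c c' : CellV) : Bool :=
  Nat.beq c'.N (c.N + 1) && (Nat.beq c'.M c.M && (Nat.beq c'.y c.yL && (Nat.beq c'.x c.xL &&
    (Nat.beq c'.yT c.yQ && Nat.beq c'.xT c.xQ))))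

/-- the cell `c'` lies behind the top edge of `c` -/
def matchTV (c c' : CellV) : Bool :=
  Nat.beq c'.N c.N && (Nat.beq c'.M (c.M + 1) && (Nat.beq c'.y c.yT && (Nat.beq c'.x c.xT &&
    (Nat.beq c'.yL c.yQ && Nat.beq c'.xL c.xQ))))

/-- the condition for an L step with the purchases `i`, `j` -/
def okL (K i j N M y x : ℕ) : Bool := Nat.ble (N + (i + 1) * (M + x) + j * (N + y)) K

/-- the condition for a T step with the purchases `i`, `j` -/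
def okT' (K i j N M y x : ℕ) : Bool := Nat.ble (M + (j + 1) * (N + y) + i * (M + x)) K

/-- the size -/
def okS (G N M y x : ℕ) : Bool := Nat.ble (N + y + (M + x) + 1) G

/-- the conditions which all kinds have in common -/
def okV0 (S : ℕ) (c : CellV) : Bool :=
  (Nat.ble c.y c.yL && (Nat.ble c.x c.xL && (Nat.ble c.y c.yT && Nat.ble c.x c.xT))) &&
  ((Nat.ble (c.yL - c.y) S && (Nat.ble (c.xL - c.x) S && (Nat.ble (c.yT - c.y) S &&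
    Nat.ble (c.xT - c.x) S))) &&
  Nat.ble 1 ((c.yL - c.y) + (c.xL - c.x) + ((c.yT - c.y) + (c.xT - c.x))))

/-- the conditions for the corner `Q` -/
def okV1 (G S : ℕ) (c : CellV) : Bool :=
  (Nat.ble c.yL c.yQ && (Nat.ble c.xL c.xQ && (Nat.ble c.yT c.yQ && Nat.ble c.xT c.xQ))) &&
  ((Nat.ble (c.yQ - c.yT) S && (Nat.ble (c.xQ - c.xT) S && (Nat.ble (c.yQ - c.yL) S &&
    Nat.ble (c.xQ - c.xL) S))) &&
  okS G (c.N + 1) (c.M + 1) c.yQ c.xQ)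

/-- the first triangle of the kinds 1 and 3 -/
def okLL (K G : ℕ) (c : CellV) : Bool :=
  (okL K (c.yL - c.y) (c.xL - c.x) (c.N + 1) c.M c.yL c.xL &&
    (okL K (c.yL - c.y) (c.xL - c.x) c.N (c.M + 1) c.yT c.xT &&
    (okT' K (c.yT - c.y) (c.xT - c.x) (c.N + 1) c.M c.yL c.xL &&
    okT' K (c.yT - c.y) (c.xT - c.x) c.N (c.M + 1) c.yT c.xT))) &&
  (okS G (c.N + 1) c.M c.yL c.xL && okS G c.N (c.M + 1) c.yT c.xT)

/-- the steps into the corner `Q` -/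
def okUR (K : ℕ) (c : CellV) : Bool :=
  okL K (c.yQ - c.yT) (c.xQ - c.xT) (c.N + 1) (c.M + 1) c.yQ c.xQ &&
    okT' K (c.yQ - c.yL) (c.xQ - c.xL) (c.N + 1) (c.M + 1) c.yQ c.xQ

/-- the steps out of the corner `P` are possible at the corner `Q` -/
def okPQ (K : ℕ) (c : CellV) : Bool :=
  okL K (c.yL - c.y) (c.xL - c.x) (c.N + 1) (c.M + 1) c.yQ c.xQ &&
    okT' K (c.yT - c.y) (c.xT - c.x) (c.N + 1) (c.M + 1) c.yQ c.xQ

/-- the conditions on a cell -/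
def okCV (K G S : ℕ) (c : CellV) : Bool :=
  okV0 S c && (
    (Nat.beq c.ty 1 && (okV1 G S c && (okLL K G c && (okUR K c &&
      Nat.ble 1 ((c.yQ - c.yT) + (c.xQ - c.xT) + ((c.yQ - c.yL) + (c.xQ - c.xL))))))) ||
    ((Nat.beq c.ty 2 && (okV1 G S c && (okPQ K c && (okUR K c &&
      (Nat.ble 1 ((c.yL - c.y) + (c.xL - c.x) + ((c.yQ - c.yL) + (c.xQ - c.xL))) &&
      Nat.ble 1 ((c.yQ - c.yT) + (c.xQ - c.xT) + ((c.yT - c.y) + (c.xT - c.x)))))))) ||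
    (Nat.beq c.ty 3 && okLL K G c)))

section
variable {c c' : CellV} {q w₀ w₁ w₂ w₃ N M y x K G S B : ℕ}

theorem InC.right (h : InC c q 0 w₁ 0 w₃ N M y x) (hm : matchRV c c' = true) :
    InC c' q w₁ 0 w₃ 0 N M y x := by
  unfold matchRV at hm
  simp only [Bool.and_eq_true] at hm
  obtain ⟨e1, e2, e3, e4, e5, e6⟩ := hm
  have e1 := Nat.eq_of_beq_eq_true e1
  have e2 := Nat.eq_of_beq_eq_true e2
  have e3 := Nat.eq_of_beq_eq_true e3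
  have e4 := Nat.eq_of_beq_eq_true e4
  have e5 := Nat.eq_of_beq_eq_true e5
  have e6 := Nat.eq_of_beq_eq_true e6
  obtain ⟨h1, h2, h3, h4, h5⟩ := h
  refine ⟨by omega, ?_, ?_, ?_, ?_⟩
  · rw [e1, h2, ← h1]
    ring
  · rw [e2, h3]
    ring
  · rw [e3, e5, h4]
    ring
  · rw [e4, e6, h5]
    ring

theorem InC.top (h : InC c q 0 0 w₂ w₃ N M y x) (hm : matchTV c c' = true) :
    InC c' q w₂ w₃ 0 0 N M y x := by
  unfold matchTV at hm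
  simp only [Bool.and_eq_true] at hm
  obtain ⟨e1, e2, e3, e4, e5, e6⟩ := hm
  have e1 := Nat.eq_of_beq_eq_true e1
  have e2 := Nat.eq_of_beq_eq_true e2
  have e3 := Nat.eq_of_beq_eq_true e3
  have e4 := Nat.eq_of_beq_eq_true e4
  have e5 := Nat.eq_of_beq_eq_true e5
  have e6 := Nat.eq_of_beq_eq_true e6
  obtain ⟨h1, h2, h3, h4, h5⟩ := h
  refine ⟨by omega, ?_, ?_, ?_, ?_⟩
  · rw [e1, h2]
    ring
  · rw [e2, h3, ← h1]
    ring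
  · rw [e3, e5, h4]
    ring
  · rw [e4, e6, h5]
    ring

/-- L step from `P` to `P_L` -/
theorem InC.stepL01 (h : InC c q (w₀ + 1) w₁ w₂ w₃ N M y x) (hY : c.y ≤ c.yL) (hX : c.x ≤ c.xL) :
    InC c q w₀ (w₁ + 1) w₂ w₃ (N + 1) M (y + (c.yL - c.y)) (x + (c.xL - c.x)) := by
  obtain ⟨i, hi⟩ := Nat.exists_eq_add_of_le hY
  obtain ⟨j, hj⟩ := Nat.exists_eq_add_of_le hX
  obtain ⟨h1, h2, h3, h4, h5⟩ := h
  refine ⟨by omega, by omega, by omega, ?_, ?_⟩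
  · rw [hi, Nat.add_sub_cancel_left, h4, hi]
    ring
  · rw [hj, Nat.add_sub_cancel_left, h5, hj]
    ring

/-- T step from `P` to `P_T` -/
theorem InC.stepT02 (h : InC c q (w₀ + 1) w₁ w₂ w₃ N M y x) (hY : c.y ≤ c.yT) (hX : c.x ≤ c.xT) :
    InC c q w₀ w₁ (w₂ + 1) w₃ N (M + 1) (y + (c.yT - c.y)) (x + (c.xT - c.x)) := by
  obtain ⟨i, hi⟩ := Nat.exists_eq_add_of_le hY
  obtain ⟨j, hj⟩ := Nat.exists_eq_add_of_le hX
  obtain ⟨h1, h2, h3, h4, h5⟩ := h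
  refine ⟨by omega, by omega, by omega, ?_, ?_⟩
  · rw [hi, Nat.add_sub_cancel_left, h4, hi]
    ring
  · rw [hj, Nat.add_sub_cancel_left, h5, hj]
    ring

/-- L step from `P_T` to `Q` -/
theorem InC.stepL23 (h : InC c q w₀ w₁ (w₂ + 1) w₃ N M y x) (hY : c.yT ≤ c.yQ)
    (hX : c.xT ≤ c.xQ) :
    InC c q w₀ w₁ w₂ (w₃ + 1) (N + 1) M (y + (c.yQ - c.yT)) (x + (c.xQ - c.xT)) := by
  obtain ⟨i, hi⟩ := Nat.exists_eq_add_of_le hY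
  obtain ⟨j, hj⟩ := Nat.exists_eq_add_of_le hX
  obtain ⟨h1, h2, h3, h4, h5⟩ := h
  refine ⟨by omega, by omega, by omega, ?_, ?_⟩
  · rw [hi, Nat.add_sub_cancel_left, h4, hi]
    ring
  · rw [hj, Nat.add_sub_cancel_left, h5, hj]
    ring

/-- T step from `P_L` to `Q` -/
theorem InC.stepT13 (h : InC c q w₀ (w₁ + 1) w₂ w₃ N M y x) (hY : c.yL ≤ c.yQ)
    (hX : c.xL ≤ c.xQ) :
    InC c q w₀ w₁ w₂ (w₃ + 1) N (M + 1) (y + (c.yQ - c.yL)) (x + (c.xQ - c.xL)) := by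
  obtain ⟨i, hi⟩ := Nat.exists_eq_add_of_le hY
  obtain ⟨j, hj⟩ := Nat.exists_eq_add_of_le hX
  obtain ⟨h1, h2, h3, h4, h5⟩ := h
  refine ⟨by omega, by omega, by omega, ?_, ?_⟩
  · rw [hi, Nat.add_sub_cancel_left, h4, hi]
    ring
  · rw [hj, Nat.add_sub_cancel_left, h5, hj]
    ring

theorem lin4 {a b d e u₀ u₁ u₂ u₃ : ℕ} (hs : a + b + d + e = q) (h₀ : a = 0 ∨ u₀ ≤ K)
    (h₁ : b = 0 ∨ u₁ ≤ K) (h₂ : d = 0 ∨ u₂ ≤ K) (h₃ : e = 0 ∨ u₃ ≤ K) :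
    a * u₀ + b * u₁ + d * u₂ + e * u₃ ≤ K * q := by
  have key : ∀ {w u : ℕ}, (w = 0 ∨ u ≤ K) → w * u ≤ w * K := by
    rintro w u (rfl | h)
    · simp
    · exact Nat.mul_le_mul_left _ h
  calc a * u₀ + b * u₁ + d * u₂ + e * u₃ ≤ a * K + b * K + d * K + e * K := by
        have := key h₀
        have := key h₁
        have := key h₂
        have := key h₃
        omega
    _ = K * q := by rw [← hs]; ring

/-- the costs of an L step -/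
theorem InC.costL (h : InC c q w₀ w₁ w₂ w₃ N M y x) {i j : ℕ}
    (h₀ : w₀ = 0 ∨ c.N + (i + 1) * (c.M + c.x) + j * (c.N + c.y) ≤ K)
    (h₁ : w₁ = 0 ∨ c.N + 1 + (i + 1) * (c.M + c.xL) + j * (c.N + 1 + c.yL) ≤ K)
    (h₂ : w₂ = 0 ∨ c.N + (i + 1) * (c.M + 1 + c.xT) + j * (c.N + c.yT) ≤ K)
    (h₃ : w₃ = 0 ∨ c.N + 1 + (i + 1) * (c.M + 1 + c.xQ) + j * (c.N + 1 + c.yQ) ≤ K) :
    N + (i + 1) * (M + x) + j * (N + y) ≤ K * q := by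
  obtain ⟨hs, e1, e2, e3, e4⟩ := h
  refine le_trans (le_of_eq ?_) (lin4 hs h₀ h₁ h₂ h₃)
  rw [e1, e2, e3, e4, ← hs]
  ring

/-- the costs of a T step -/
theorem InC.costT (h : InC c q w₀ w₁ w₂ w₃ N M y x) {i j : ℕ}
    (h₀ : w₀ = 0 ∨ c.M + (j + 1) * (c.N + c.y) + i * (c.M + c.x) ≤ K)
    (h₁ : w₁ = 0 ∨ c.M + (j + 1) * (c.N + 1 + c.yL) + i * (c.M + c.xL) ≤ K)
    (h₂ : w₂ = 0 ∨ c.M + 1 + (j + 1) * (c.N + c.yT) + i * (c.M + 1 + c.xT) ≤ K)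
    (h₃ : w₃ = 0 ∨ c.M + 1 + (j + 1) * (c.N + 1 + c.yQ) + i * (c.M + 1 + c.xQ) ≤ K) :
    M + (j + 1) * (N + y) + i * (M + x) ≤ K * q := by
  obtain ⟨hs, e1, e2, e3, e4⟩ := h
  refine le_trans (le_of_eq ?_) (lin4 hs h₀ h₁ h₂ h₃)
  rw [e1, e2, e3, e4, ← hs]
  ring

/-- the size -/
theorem InC.size (h : InC c q w₀ w₁ w₂ w₃ N M y x)
    (h₀ : w₀ = 0 ∨ c.N + c.y + (c.M + c.x) + 1 ≤ G)
    (h₁ : w₁ = 0 ∨ c.N + 1 + c.yL + (c.M + c.xL) + 1 ≤ G)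
    (h₂ : w₂ = 0 ∨ c.N + c.yT + (c.M + 1 + c.xT) + 1 ≤ G)
    (h₃ : w₃ = 0 ∨ c.N + 1 + c.yQ + (c.M + 1 + c.xQ) + 1 ≤ G) :
    N + y + (M + x) + q ≤ G * q := by
  obtain ⟨hs, e1, e2, e3, e4⟩ := h
  refine le_trans (le_of_eq ?_) (lin4 hs h₀ h₁ h₂ h₃)
  rw [e1, e2, e3, e4, ← hs]
  ring

/-- the costs are monotone -/
theorem monoL {i j a b u v a' b' u' v' : ℕ} (ha : a ≤ a') (hb : b ≤ b') (hu : u ≤ u')
    (hv : v ≤ v') (h : a' + (i + 1) * (b' + v') + j * (a' + u') ≤ K) :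
    a + (i + 1) * (b + v) + j * (a + u) ≤ K := by
  have e3 := Nat.mul_le_mul_left (i + 1) (show b + v ≤ b' + v' by omega)
  have e4 := Nat.mul_le_mul_left j (show a + u ≤ a' + u' by omega)
  omega

theorem monoT {i j a b u v a' b' u' v' : ℕ} (ha : a ≤ a') (hb : b ≤ b') (hu : u ≤ u')
    (hv : v ≤ v') (h : b' + (j + 1) * (a' + u') + i * (b' + v') ≤ K) :
    b + (j + 1) * (a + u) + i * (b + v) ≤ K := by
  have e3 := Nat.mul_le_mul_left i (show b + v ≤ b' + v' by omega)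
  have e4 := Nat.mul_le_mul_left (j + 1) (show a + u ≤ a' + u' by omega)
  omega

end

/-! ## The plan -/

/-- the domain of the plan -/
def VDom (c : ℕ → CellV) (C q N M y x : ℕ) : Prop :=
  ∃ e < C, ∃ w₀ w₁ w₂ w₃, InC (c e) q w₀ w₁ w₂ w₃ N M y x ∧ Supp (c e).ty w₀ w₁ w₂ w₃

/-- a point on an exit edge -/
def VExit (c : ℕ → CellV) (C q N M y x : ℕ) : Prop :=
  ∃ e < C, ((c e).ty ≠ 3 ∧ C ≤ (c e).iR ∧ ∃ w₁ w₃, InC (c e) q 0 w₁ 0 w₃ N M y x) ∨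
    ((c e).ty ≠ 3 ∧ C ≤ (c e).iT ∧ ∃ w₂ w₃, InC (c e) q 0 0 w₂ w₃ N M y x) ∨
    ((c e).ty = 3 ∧ ∃ w₁ w₂, InC (c e) q 0 w₁ w₂ 0 N M y x)

/-- the next cells -/
def okNV (c : ℕ → CellV) (C e : ℕ) : Bool :=
  Nat.beq (c e).ty 3 || ((Nat.ble C (c e).iR || matchRV (c e) (c (c e).iR)) &&
    (Nat.ble C (c e).iT || matchTV (c e) (c (c e).iT)))

/-- an interior point -/
def VInt (c : ℕ → CellV) (C q N M y x : ℕ) : Prop :=
  ∃ e < C, (∃ w₀ w₁ w₂, InC (c e) q (w₀ + 1) w₁ w₂ 0 N M y x ∧ ((c e).ty = 1 ∨ (c e).ty = 3)) ∨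
    (∃ w₁ w₂ w₃, InC (c e) q 0 (w₁ + 1) (w₂ + 1) w₃ N M y x ∧ (c e).ty = 1) ∨
    (∃ w₀ w₁ w₂ w₃, InC (c e) q (w₀ + 1) w₁ w₂ w₃ N M y x ∧ (c e).ty = 2 ∧ (w₁ = 0 ∨ w₂ = 0))

section
variable {c : ℕ → CellV} {C q K G S B n N M y x : ℕ}

theorem okNV_right {e : ℕ} (h : okNV c C e = true) :
    (c e).ty = 3 ∨ C ≤ (c e).iR ∨ ((c e).iR < C ∧ matchRV (c e) (c (c e).iR) = true) := by
  unfold okNV at h
  rw [Bool.or_eq_true, Bool.and_eq_true, Bool.or_eq_true, Bool.or_eq_true] at h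
  rcases h with h | h
  · exact Or.inl (Nat.eq_of_beq_eq_true h)
  · rcases Nat.lt_or_ge (c e).iR C with h1 | h1
    · rcases h.1 with h2 | h2
      · exact Or.inr (Or.inl (Nat.le_of_ble_eq_true h2))
      · exact Or.inr (Or.inr ⟨h1, h2⟩)
    · exact Or.inr (Or.inl h1)

theorem okNV_top {e : ℕ} (h : okNV c C e = true) :
    (c e).ty = 3 ∨ C ≤ (c e).iT ∨ ((c e).iT < C ∧ matchTV (c e) (c (c e).iT) = true) := by
  unfold okNV at h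
  rw [Bool.or_eq_true, Bool.and_eq_true, Bool.or_eq_true, Bool.or_eq_true] at h
  rcases h with h | h
  · exact Or.inl (Nat.eq_of_beq_eq_true h)
  · rcases Nat.lt_or_ge (c e).iT C with h1 | h1
    · rcases h.2 with h2 | h2
      · exact Or.inr (Or.inl (Nat.le_of_ble_eq_true h2))
      · exact Or.inr (Or.inr ⟨h1, h2⟩)
    · exact Or.inr (Or.inl h1)

/-- the kind of a cell -/
theorem okCV_ty {c : CellV} (h : okCV K G S c = true) : c.ty = 1 ∨ c.ty = 2 ∨ c.ty = 3 := by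
  unfold okCV at h
  simp only [Bool.and_eq_true, Bool.or_eq_true] at h
  rcases h.2 with h | h | h
  · exact Or.inl (Nat.eq_of_beq_eq_true h.1)
  · exact Or.inr (Or.inl (Nat.eq_of_beq_eq_true h.1))
  · exact Or.inr (Or.inr (Nat.eq_of_beq_eq_true h.1))

theorem VInt.of_pos {e w₀ w₁ w₂ w₃ : ℕ} (he : e < C)
    (hw : 1 ≤ w₀) (h : InC (c e) q w₀ w₁ w₂ w₃ N M y x) (hs : Supp (c e).ty w₀ w₁ w₂ w₃) :
    VInt c C q N M y x := by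
  obtain ⟨w, rfl⟩ := Nat.exists_eq_add_of_le' hw
  rcases hs with ⟨h1, h2⟩ | ⟨h1, h2⟩ | ⟨h1, h2⟩
  · have h3 : w₃ = 0 := by omega
    rw [h3] at h
    exact ⟨e, he, Or.inl ⟨w, w₁, w₂, h, Or.inl h1⟩⟩
  · exact ⟨e, he, Or.inr (Or.inr ⟨w, w₁, w₂, w₃, h, h1, h2⟩)⟩
  · rw [h2] at h
    exact ⟨e, he, Or.inl ⟨w, w₁, w₂, h, Or.inr h1⟩⟩

theorem VDom.norm (hq : 1 ≤ q) (hok : ∀ e < C, okCV K G S (c e) = true)
    (hN : ∀ e < C, okNV c C e = true) (h : VDom c C q N M y x) :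
    VExit c C q N M y x ∨ VInt c C q N M y x := by
  have hR : ∀ {e w₁ w₃ : ℕ}, e < C → InC (c e) q 0 w₁ 0 w₃ N M y x → (c e).ty ≠ 3 →
      VExit c C q N M y x ∨ ∃ e' < C, InC (c e') q w₁ 0 w₃ 0 N M y x := by
    intro e w₁ w₃ he h h3
    rcases okNV_right (hN e he) with h1 | h1 | ⟨h1, h2⟩
    · exact absurd h1 h3
    · exact Or.inl ⟨e, he, Or.inl ⟨h3, h1, w₁, w₃, h⟩⟩
    · exact Or.inr ⟨_, h1, h.right h2⟩
  have hT : ∀ {e w₂ w₃ : ℕ}, e < C → InC (c e) q 0 0 w₂ w₃ N M y x → (c e).ty ≠ 3 →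
      VExit c C q N M y x ∨ ∃ e' < C, InC (c e') q w₂ w₃ 0 0 N M y x := by
    intro e w₂ w₃ he h h3
    rcases okNV_top (hN e he) with h1 | h1 | ⟨h1, h2⟩
    · exact absurd h1 h3
    · exact Or.inl ⟨e, he, Or.inr (Or.inl ⟨h3, h1, w₂, w₃, h⟩)⟩
    · exact Or.inr ⟨_, h1, h.top h2⟩
  have s0 : ∀ {e w₀ w₁ w₂ : ℕ}, e < C → (w₁ = 0 ∨ w₂ = 0) → Supp (c e).ty w₀ w₁ w₂ 0 := by
    intro e w₀ w₁ w₂ he hw
    rcases okCV_ty (hok e he) with h1 | h1 | h1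
    · exact Or.inl ⟨h1, Or.inr rfl⟩
    · exact Or.inr (Or.inl ⟨h1, hw⟩)
    · exact Or.inr (Or.inr ⟨h1, rfl⟩)
  obtain ⟨e, he, w₀, w₁, w₂, w₃, h, hs⟩ := h
  rcases Nat.eq_zero_or_pos w₀ with rfl | h0
  swap
  · exact Or.inr (VInt.of_pos he h0 h hs)
  by_cases h3 : (c e).ty = 3
  · left
    have h4 : w₃ = 0 := by
      rcases hs with ⟨h1, _⟩ | ⟨h1, _⟩ | ⟨_, h2⟩
      · omega
      · omega
      · exact h2
    rw [h4] at h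
    exact ⟨e, he, Or.inr (Or.inr ⟨h3, w₁, w₂, h⟩)⟩
  rcases Nat.eq_zero_or_pos w₂ with rfl | h2
  · -- the right edge
    rcases hR he h h3 with h4 | ⟨e', he', h4⟩
    · exact Or.inl h4
    rcases Nat.eq_zero_or_pos w₁ with rfl | h1
    · by_cases h3' : (c e').ty = 3
      · exact Or.inl ⟨e', he', Or.inr (Or.inr ⟨h3', 0, w₃, h4⟩)⟩
      · rcases hT he' h4 h3' with h5 | ⟨e'', he'', h5⟩
        · exact Or.inl h5
        · have := h5.sum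
          exact Or.inr (VInt.of_pos he'' (by omega) h5 (s0 he'' (Or.inl rfl)))
    · exact Or.inr (VInt.of_pos he' h1 h4 (s0 he' (Or.inl rfl)))
  · rcases Nat.eq_zero_or_pos w₁ with rfl | h1
    · -- the top edge
      rcases hT he h h3 with h4 | ⟨e', he', h4⟩
      · exact Or.inl h4
      · exact Or.inr (VInt.of_pos he' h2 h4 (s0 he' (Or.inr rfl)))
    · -- the interior
      right
      have h4 : (c e).ty = 1 := by
        rcases hs with ⟨h4, _⟩ | ⟨_, h5⟩ | ⟨h4, _⟩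
        · exact h4
        · omega
        · exact absurd h4 h3
      obtain ⟨a, rfl⟩ := Nat.exists_eq_add_of_le' h1
      obtain ⟨b, rfl⟩ := Nat.exists_eq_add_of_le' h2
      exact ⟨e, he, Or.inr (Or.inl ⟨a, b, w₃, h, h4⟩)⟩

/-- the conditions which all kinds have in common -/
theorem okV0_iff {c : CellV} (h : okV0 S c = true) :
    (c.y ≤ c.yL ∧ c.x ≤ c.xL ∧ c.y ≤ c.yT ∧ c.x ≤ c.xT) ∧
    (c.yL - c.y ≤ S ∧ c.xL - c.x ≤ S ∧ c.yT - c.y ≤ S ∧ c.xT - c.x ≤ S) ∧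
    1 ≤ (c.yL - c.y) + (c.xL - c.x) + ((c.yT - c.y) + (c.xT - c.x)) := by
  unfold okV0 at h
  simp only [Bool.and_eq_true] at h
  obtain ⟨⟨a1, a2, a3, a4⟩, ⟨b1, b2, b3, b4⟩, f⟩ := h
  exact ⟨⟨Nat.le_of_ble_eq_true a1, Nat.le_of_ble_eq_true a2, Nat.le_of_ble_eq_true a3,
    Nat.le_of_ble_eq_true a4⟩, ⟨Nat.le_of_ble_eq_true b1, Nat.le_of_ble_eq_true b2,
    Nat.le_of_ble_eq_true b3, Nat.le_of_ble_eq_true b4⟩, Nat.le_of_ble_eq_true f⟩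

theorem okV1_iff {c : CellV} (h : okV1 G S c = true) :
    (c.yL ≤ c.yQ ∧ c.xL ≤ c.xQ ∧ c.yT ≤ c.yQ ∧ c.xT ≤ c.xQ) ∧
    (c.yQ - c.yT ≤ S ∧ c.xQ - c.xT ≤ S ∧ c.yQ - c.yL ≤ S ∧ c.xQ - c.xL ≤ S) ∧
    c.N + 1 + c.yQ + (c.M + 1 + c.xQ) + 1 ≤ G := by
  unfold okV1 okS at h
  simp only [Bool.and_eq_true] at h
  obtain ⟨⟨a1, a2, a3, a4⟩, ⟨b1, b2, b3, b4⟩, f⟩ := h
  exact ⟨⟨Nat.le_of_ble_eq_true a1, Nat.le_of_ble_eq_true a2, Nat.le_of_ble_eq_true a3,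
    Nat.le_of_ble_eq_true a4⟩, ⟨Nat.le_of_ble_eq_true b1, Nat.le_of_ble_eq_true b2,
    Nat.le_of_ble_eq_true b3, Nat.le_of_ble_eq_true b4⟩, Nat.le_of_ble_eq_true f⟩

theorem okLL_iff {c : CellV} (h : okLL K G c = true) :
    (c.N + 1 + ((c.yL - c.y) + 1) * (c.M + c.xL) + (c.xL - c.x) * (c.N + 1 + c.yL) ≤ K ∧
      c.N + ((c.yL - c.y) + 1) * (c.M + 1 + c.xT) + (c.xL - c.x) * (c.N + c.yT) ≤ K ∧
      c.M + ((c.xT - c.x) + 1) * (c.N + 1 + c.yL) + (c.yT - c.y) * (c.M + c.xL) ≤ K ∧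
      c.M + 1 + ((c.xT - c.x) + 1) * (c.N + c.yT) + (c.yT - c.y) * (c.M + 1 + c.xT) ≤ K) ∧
    c.N + 1 + c.yL + (c.M + c.xL) + 1 ≤ G ∧ c.N + c.yT + (c.M + 1 + c.xT) + 1 ≤ G := by
  unfold okLL okL okT' okS at h
  simp only [Bool.and_eq_true] at h
  obtain ⟨⟨a1, a2, a3, a4⟩, b1, b2⟩ := h
  exact ⟨⟨Nat.le_of_ble_eq_true a1, Nat.le_of_ble_eq_true a2, Nat.le_of_ble_eq_true a3,
    Nat.le_of_ble_eq_true a4⟩, Nat.le_of_ble_eq_true b1, Nat.le_of_ble_eq_true b2⟩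

theorem okUR_iff {c : CellV} (h : okUR K c = true) :
    c.N + 1 + ((c.yQ - c.yT) + 1) * (c.M + 1 + c.xQ) + (c.xQ - c.xT) * (c.N + 1 + c.yQ) ≤ K ∧
      c.M + 1 + ((c.xQ - c.xL) + 1) * (c.N + 1 + c.yQ) + (c.yQ - c.yL) * (c.M + 1 + c.xQ) ≤ K := by
  unfold okUR okL okT' at h
  rw [Bool.and_eq_true] at h
  exact ⟨Nat.le_of_ble_eq_true h.1, Nat.le_of_ble_eq_true h.2⟩

theorem okPQ_iff {c : CellV} (h : okPQ K c = true) :
    c.N + 1 + ((c.yL - c.y) + 1) * (c.M + 1 + c.xQ) + (c.xL - c.x) * (c.N + 1 + c.yQ) ≤ K ∧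
      c.M + 1 + ((c.xT - c.x) + 1) * (c.N + 1 + c.yQ) + (c.yT - c.y) * (c.M + 1 + c.xQ) ≤ K := by
  unfold okPQ okL okT' at h
  rw [Bool.and_eq_true] at h
  exact ⟨Nat.le_of_ble_eq_true h.1, Nat.le_of_ble_eq_true h.2⟩

end

end Pool.Agent.OCN
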