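import Pool.Agent.Lib_helper29.OCN.CellsV2
import Pool.Agent.Lib_helper29.OCN.Cells3

/-!
# MP_aeb124_co: lists of cells of three kinds as a tree of numbers, for the kernel
-/

set_option autoImplicit false

namespace Pool.Agent.OCN

/-- a binary tree of numbers -/
inductive BT : Type
  /-- a leaf -/
  | leaf : ℕ → BT
  /-- a node -/
  | node : BT → BT → BT

/-- the leaf with the number `k`, the last binary digit first -/
noncomputable def BT.get (t : BT) (k : ℕ) : ℕ :=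
  (BT.rec (motive := fun _ => ℕ → ℕ) (fun n _ => n)
    (fun _ _ fl fr k => Nat.rec (fl (Nat.div k (nat_lit 2))) (fun _ _ => fr (Nat.div k (nat_lit 2)))
      (Nat.mod k (nat_lit 2))) t :
      ℕ → ℕ) k

/-- the cell of a number with thirteen digits in base `65536` -/
def cellOfV (v : ℕ) : CellV :=
  ⟨Nat.mod v (nat_lit 65536), Nat.mod (Nat.shiftRight v (nat_lit 16)) (nat_lit 65536), Nat.mod
    (Nat.shiftRight v (nat_lit 32)) (nat_lit 65536), Nat.mod (Nat.shiftRight v (nat_lit 48))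
    (nat_lit 65536), Nat.mod (Nat.shiftRight v (nat_lit 64)) (nat_lit 65536), Nat.mod
    (Nat.shiftRight v (nat_lit 80)) (nat_lit 65536), Nat.mod (Nat.shiftRight v (nat_lit 96))
    (nat_lit 65536), Nat.mod (Nat.shiftRight v (nat_lit 112)) (nat_lit 65536), Nat.mod
    (Nat.shiftRight v (nat_lit 128)) (nat_lit 65536), Nat.mod (Nat.shiftRight v (nat_lit 144))
    (nat_lit 65536), Nat.mod (Nat.shiftRight v (nat_lit 160)) (nat_lit 65536), Nat.mod
    (Nat.shiftRight v (nat_lit 176)) (nat_lit 65536), Nat.mod (Nat.shiftRight v (nat_lit 192))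
    (nat_lit 65536)⟩

/-- the `e`-th record, 64 records of 208 binary digits in each leaf -/
noncomputable def recV (T : BT) (e : ℕ) : ℕ :=
  Nat.mod (Nat.shiftRight (T.get (Nat.div e (nat_lit 64)))
    (Nat.mul (nat_lit 208) (Nat.mod e (nat_lit 64))))
    (nat_lit 0x10000000000000000000000000000000000000000000000000000)

/-- the `e`-th cell -/
noncomputable def cgetV (T : BT) (e : ℕ) : CellV := cellOfV (recV T e)

/-- evaluate the entries of a cell first -/
def forceV (c : CellV) (f : CellV → Bool) : Bool :=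
  withN c.N fun a0 => withN c.M fun a1 => withN c.y fun a2 => withN c.x fun a3 =>
  withN c.yL fun a4 => withN c.xL fun a5 => withN c.yT fun a6 => withN c.xT fun a7 =>
  withN c.yQ fun a8 => withN c.xQ fun a9 => withN c.iR fun a10 => withN c.iT fun a11 =>
  withN c.ty fun a12 =>
    f ⟨a0, a1, a2, a3, a4, a5, a6, a7, a8, a9, a10, a11, a12⟩

theorem forceV_eq (c : CellV) (f : CellV → Bool) : forceV c f = f c := by
  unfold forceV
  simp only [withN_eq]

/-- the condition for an L step, with the heights `s`, `t` -/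
def rL (K i j N s t : ℕ) : Bool :=
  Nat.ble (Nat.add (Nat.add N (Nat.mul (Nat.add i (nat_lit 1)) t)) (Nat.mul j s)) K

/-- the condition for a T step, with the heights `s`, `t` -/
def rT (K i j M s t : ℕ) : Bool :=
  Nat.ble (Nat.add (Nat.add M (Nat.mul (Nat.add j (nat_lit 1)) s)) (Nat.mul i t)) K

/-- the conditions on a cell, arranged for the kernel -/
def rC (K G S : ℕ) (c : CellV) : Bool :=
  (Nat.ble c.y c.yL && (Nat.ble c.x c.xL && (Nat.ble c.y c.yT && (Nat.ble c.x c.xT && (withN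
    (Nat.sub c.yL c.y) fun i => withN (Nat.sub c.xL c.x) fun j => withN (Nat.sub c.yT c.y) fun i3
    => withN (Nat.sub c.xT c.x) fun j3 => withN (Nat.add c.N (nat_lit 1)) fun N1 => withN (Nat.add
    c.M (nat_lit 1)) fun M1 => (Nat.ble i S && (Nat.ble j S && (Nat.ble i3 S && (Nat.ble j3 S &&
    (Nat.ble (nat_lit 1) (Nat.add (Nat.add i j) (Nat.add i3 j3)) && cond (Nat.beq c.ty (nat_lit
    3)) (withN (Nat.add N1 c.yL) fun sL => withN (Nat.add c.M c.xL) fun tL => withN (Nat.add c.N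
    c.yT) fun sT => withN (Nat.add M1 c.xT) fun tT => ((rL K i j N1 sL tL && (rL K i j c.N sT tT
    && (rT K i3 j3 c.M sL tL && rT K i3 j3 M1 sT tT))) && (Nat.ble (Nat.add (Nat.add sL tL)
    (nat_lit 1)) G && Nat.ble (Nat.add (Nat.add sT tT) (nat_lit 1)) G))) (Nat.ble c.yL c.yQ &&
    (Nat.ble c.xL c.xQ && (Nat.ble c.yT c.yQ && (Nat.ble c.xT c.xQ && (withN (Nat.sub c.yQ c.yT)
    fun i2 => withN (Nat.sub c.xQ c.xT) fun j2 => withN (Nat.sub c.yQ c.yL) fun i1 => withN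
    (Nat.sub c.xQ c.xL) fun j1 => withN (Nat.add N1 c.yQ) fun sQ => withN (Nat.add M1 c.xQ) fun tQ
    => (Nat.ble i2 S && (Nat.ble j2 S && (Nat.ble i1 S && (Nat.ble j1 S && (Nat.ble (Nat.add
    (Nat.add sQ tQ) (nat_lit 1)) G && (rL K i2 j2 N1 sQ tQ && (rT K i1 j1 M1 sQ tQ && cond
    (Nat.beq c.ty (nat_lit 1)) (Nat.ble (nat_lit 1) (Nat.add (Nat.add i2 j2) (Nat.add i1 j1)) &&
    (withN (Nat.add N1 c.yL) fun sL => withN (Nat.add c.M c.xL) fun tL => withN (Nat.add c.N c.yT)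
    fun sT => withN (Nat.add M1 c.xT) fun tT => ((rL K i j N1 sL tL && (rL K i j c.N sT tT && (rT
    K i3 j3 c.M sL tL && rT K i3 j3 M1 sT tT))) && (Nat.ble (Nat.add (Nat.add sL tL) (nat_lit 1))
    G && Nat.ble (Nat.add (Nat.add sT tT) (nat_lit 1)) G)))) (Nat.beq c.ty (nat_lit 2) && (rL K i
    j N1 sQ tQ && (rT K i3 j3 M1 sQ tQ && (Nat.ble (nat_lit 1) (Nat.add (Nat.add i j) (Nat.add i1
    j1)) && Nat.ble (nat_lit 1) (Nat.add (Nat.add i2 j2) (Nat.add i3
    j3))))))))))))))))))))))))))))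

/-- the same conditions in standard notation -/
def nC (K G S : ℕ) (c : CellV) : Bool :=
  (Nat.ble c.y c.yL && (Nat.ble c.x c.xL && (Nat.ble c.y c.yT && (Nat.ble c.x c.xT &&
  (Nat.ble (c.yL - c.y) S && (Nat.ble (c.xL - c.x) S && (Nat.ble (c.yT - c.y) S &&
  (Nat.ble (c.xT - c.x) S &&
  (Nat.ble 1 (c.yL - c.y + (c.xL - c.x) + (c.yT - c.y + (c.xT - c.x))) &&
  cond (Nat.beq c.ty 3) (okLL K G c)
  (Nat.ble c.yL c.yQ && (Nat.ble c.xL c.xQ && (Nat.ble c.yT c.yQ && (Nat.ble c.xT c.xQ &&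
  (Nat.ble (c.yQ - c.yT) S && (Nat.ble (c.xQ - c.xT) S && (Nat.ble (c.yQ - c.yL) S &&
  (Nat.ble (c.xQ - c.xL) S &&
  (Nat.ble (c.N + 1 + c.yQ + (c.M + 1 + c.xQ) + 1) G &&
  (okL K (c.yQ - c.yT) (c.xQ - c.xT) (c.N + 1) (c.M + 1) c.yQ c.xQ &&
  (okT' K (c.yQ - c.yL) (c.xQ - c.xL) (c.N + 1) (c.M + 1) c.yQ c.xQ &&
  cond (Nat.beq c.ty 1)
    (Nat.ble 1 (c.yQ - c.yT + (c.xQ - c.xT) + (c.yQ - c.yL + (c.xQ - c.xL))) && okLL K G c)
    (Nat.beq c.ty 2 &&
    (okL K (c.yL - c.y) (c.xL - c.x) (c.N + 1) (c.M + 1) c.yQ c.xQ &&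
    (okT' K (c.yT - c.y) (c.xT - c.x) (c.N + 1) (c.M + 1) c.yQ c.xQ &&
    (Nat.ble 1 (c.yL - c.y + (c.xL - c.x) + (c.yQ - c.yL + (c.xQ - c.xL))) &&
    Nat.ble 1 (c.yQ - c.yT + (c.xQ - c.xT) + (c.yT - c.y + (c.xT - c.x)))))))))))))))))))))))))))

theorem rC_eq (K G S : ℕ) (c : CellV) : rC K G S c = nC K G S c := by
  unfold rC
  simp only [withN_eq]
  rfl

theorem rC_okCV {K G S : ℕ} {c : CellV} (h : rC K G S c = true) : okCV K G S c = true := by
  rw [rC_eq] at h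
  unfold nC at h
  simp only [Bool.and_eq_true] at h
  obtain ⟨a1, a2, a3, a4, a5, a6, a7, a8, a9, h⟩ := h
  unfold okCV okV0
  simp only [Bool.and_eq_true, Bool.or_eq_true]
  refine ⟨⟨⟨a1, a2, a3, a4⟩, ⟨a5, a6, a7, a8⟩, a9⟩, ?_⟩
  cases h3 : Nat.beq c.ty 3
  · rw [h3, cond_false] at h
    simp only [Bool.and_eq_true] at h
    obtain ⟨b1, b2, b3, b4, b5, b6, b7, b8, b9, b10, b11, h⟩ := h
    have hV1 : okV1 G S c = true := by
      unfold okV1 okS
      simp only [Bool.and_eq_true]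
      exact ⟨⟨b1, b2, b3, b4⟩, ⟨b5, b6, b7, b8⟩, b9⟩
    have hUR : okUR K c = true := by
      unfold okUR
      rw [Bool.and_eq_true]
      exact ⟨b10, b11⟩
    cases h1 : Nat.beq c.ty 1
    · rw [h1, cond_false] at h
      simp only [Bool.and_eq_true] at h
      obtain ⟨d1, d2, d3, d4, d5⟩ := h
      refine Or.inr (Or.inl ⟨d1, hV1, ?_, hUR, d4, d5⟩)
      unfold okPQ
      rw [Bool.and_eq_true]
      exact ⟨d2, d3⟩
    · rw [h1, cond_true, Bool.and_eq_true] at h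
      exact Or.inl ⟨rfl, hV1, h.2, hUR, h.1⟩
  · rw [h3, cond_true] at h
    exact Or.inr (Or.inr ⟨rfl, h⟩)

/-- the cell `c'` lies behind the right edge of `c` -/
def rR (c c' : CellV) : Bool :=
  Nat.beq c'.N (Nat.add c.N (nat_lit 1)) && (Nat.beq c'.M c.M && (Nat.beq c'.y c.yL &&
    (Nat.beq c'.x c.xL && (Nat.beq c'.yT c.yQ && Nat.beq c'.xT c.xQ))))

/-- the cell `c'` lies behind the top edge of `c` -/
def rTp (c c' : CellV) : Bool :=
  Nat.beq c'.N c.N && (Nat.beq c'.M (Nat.add c.M (nat_lit 1)) && (Nat.beq c'.y c.yT &&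
    (Nat.beq c'.x c.xT && (Nat.beq c'.yL c.yQ && Nat.beq c'.xL c.xQ))))

/-- the next cells -/
noncomputable def okMV (T : BT) (C : ℕ) (c : CellV) : Bool :=
  Nat.beq c.ty (nat_lit 3) ||
    ((Nat.ble C c.iR || withN (recV T c.iR) fun v => rR c (cellOfV v)) &&
      (Nat.ble C c.iT || withN (recV T c.iT) fun v => rTp c (cellOfV v)))

/-- the check of the cells `s, …, s + m - 1`, `X` is the check of the exits -/
noncomputable def okTabV (T : BT) (K G S C : ℕ) (X : CellV → Bool) (s m : ℕ) : Bool :=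
  allB (fun e => withN (recV T (Nat.add s e)) fun v => forceV (cellOfV v) fun c =>
    rC K G S c && (okMV T C c && X c)) m

theorem okTabV_iff {T : BT} {K G S C : ℕ} {X : CellV → Bool} {s m : ℕ}
    (h : okTabV T K G S C X s m = true) {e : ℕ} (h1 : s ≤ e) (h2 : e < s + m) :
    okCV K G S (cgetV T e) = true ∧ okNV (cgetV T) C e = true ∧ X (cgetV T e) = true := by
  have h3 := allB_iff h (e - s) (by omega)
  simp only [withN_eq, forceV_eq, Bool.and_eq_true] at h3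
  have e1 : Nat.add s (e - s) = e := Nat.add_sub_cancel' h1
  rw [e1] at h3
  obtain ⟨h4, h5, h6⟩ := h3
  refine ⟨rC_okCV h4, ?_, h6⟩
  unfold okMV at h5
  simp only [withN_eq] at h5
  exact h5

end Pool.Agent.OCN
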