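import Pool.Agent.Lib_helper29.OCN.CellsF
import Pool.Agent.Lib_helper29.OCN.CellsV3

/-!
# MP_aeb124_co: the exit records as a tree of numbers, for the kernel
-/

set_option autoImplicit false

namespace Pool.Agent.OCN

/-- the `k`-th exit record, 64 records of ten digits in each leaf -/
noncomputable def recX (T : BT) (k : ℕ) : ℕ :=
  Nat.mod (Nat.shiftRight (T.get (Nat.div k (nat_lit 64)))
    (Nat.mul (nat_lit 160) (Nat.mod k (nat_lit 64))))
    (nat_lit 0x10000000000000000000000000000000000000000)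

/-- the exit record of a number with ten digits -/
def xOf (v : ℕ) : XRec :=
  ⟨dig v 0, dig v 1, dig v 2, dig v 3, dig v 4, dig v 5, dig v 6, dig v 7, dig v 8, dig v 9⟩

/-- the `k`-th exit record -/
noncomputable def xget (T : BT) (k : ℕ) : XRec := xOf (recX T k)

/-- evaluate the entries of a record first -/
def forceX (r : XRec) (f : XRec → Bool) : Bool :=
  withN r.e₀ fun a0 => withN r.G₀ fun a1 => withN r.D₀ fun a2 => withN r.f₀ fun a3 =>
  withN r.h₀ fun a4 => withN r.e₁ fun a5 => withN r.G₁ fun a6 => withN r.D₁ fun a7 =>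
  withN r.f₁ fun a8 => withN r.h₁ fun a9 => f ⟨a0, a1, a2, a3, a4, a5, a6, a7, a8, a9⟩

theorem forceX_eq (r : XRec) (f : XRec → Bool) : forceX r f = f r := by
  unfold forceX
  simp only [withN_eq]

/-- the exit edges of a cell, evaluated -/
noncomputable def okXT (p : XPar) (H g C : ℕ) (T : BT) (c : CellV) : Bool :=
  (Nat.beq c.ty 3 && withN (recX T (c.iR - C)) fun v => forceX (xOf v) fun r =>
    exX p H g (c.N + 1) c.M c.yL c.xL c.N (c.M + 1) c.yT c.xT r) ||
  ((Nat.beq c.ty 1 || Nat.beq c.ty 2) &&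
  ((Nat.ble (c.iR + 1) C || withN (recX T (c.iR - C)) fun v => forceX (xOf v) fun r =>
    exX p H g (c.N + 1) c.M c.yL c.xL (c.N + 1) (c.M + 1) c.yQ c.xQ r) &&
  (Nat.ble (c.iT + 1) C || withN (recX T (c.iT - C)) fun v => forceX (xOf v) fun r =>
    exX p H g c.N (c.M + 1) c.yT c.xT (c.N + 1) (c.M + 1) c.yQ c.xQ r)))

theorem okXT_eq (p : XPar) (H g C : ℕ) (T : BT) (c : CellV) :
    okXT p H g C T c = okXV p H g C (xget T) c := by
  unfold okXT
  simp only [withN_eq, forceX_eq]
  rfl

/-- the number of the coarse cell and of the part, two digits in each record, 64 records in a leaf -/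
noncomputable def fget2 (T : BT) (k : ℕ) : ℕ × ℕ :=
  (dig (Nat.shiftRight (T.get (Nat.div k (nat_lit 64)))
    (Nat.mul (nat_lit 32) (Nat.mod k (nat_lit 64)))) 0,
  dig (Nat.shiftRight (T.get (Nat.div k (nat_lit 64)))
    (Nat.mul (nat_lit 32) (Nat.mod k (nat_lit 64)))) 1)

end Pool.Agent.OCN
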