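import Pool.Agent.Lib_helper29.OCN.Tab239L0

/-!
# MP_aeb124_co: level 0 of the nested table, check of the cells 8000 to 11999
-/

set_option autoImplicit false

namespace Pool.Agent.OCN

set_option maxRecDepth 100000 in
theorem Tab239L0_ok8 : okTabV Tab239L0C 239 338 5 12683 (okXT Tab239P 338 99 12683 Tab239L0X) 8000 1000 = true := by
  decide +kernel

set_option maxRecDepth 100000 in
theorem Tab239L0_ok9 : okTabV Tab239L0C 239 338 5 12683 (okXT Tab239P 338 99 12683 Tab239L0X) 9000 1000 = true := by
  decide +kernel

set_option maxRecDepth 100000 in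
theorem Tab239L0_ok10 : okTabV Tab239L0C 239 338 5 12683 (okXT Tab239P 338 99 12683 Tab239L0X) 10000 1000 = true := by
  decide +kernel

set_option maxRecDepth 100000 in
theorem Tab239L0_ok11 : okTabV Tab239L0C 239 338 5 12683 (okXT Tab239P 338 99 12683 Tab239L0X) 11000 1000 = true := by
  decide +kernel

end Pool.Agent.OCN
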