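import Pool.Agent.Lib_helper29.OCN.Tab239L0_0
import Pool.Agent.Lib_helper29.OCN.Tab239L0_1
import Pool.Agent.Lib_helper29.OCN.Tab239L0_2
import Pool.Agent.Lib_helper29.OCN.Tab239L0_3

/-!
# MP_aeb124_co: level 0 of the nested table
-/

set_option autoImplicit false

namespace Pool.Agent.OCN

theorem Tab239L0_ok {e : ℕ} (he : e < 12683) :
    okCV 239 338 5 (cgetV Tab239L0C e) = true ∧ okNV (cgetV Tab239L0C) 12683 e = true ∧
      okXT Tab239P 338 99 12683 Tab239L0X (cgetV Tab239L0C e) = true := by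
  by_cases h0 : e < 1000
  · exact okTabV_iffX Tab239L0_ok0 (by omega) (by omega)
  by_cases h1 : e < 2000
  · exact okTabV_iffX Tab239L0_ok1 (by omega) (by omega)
  by_cases h2 : e < 3000
  · exact okTabV_iffX Tab239L0_ok2 (by omega) (by omega)
  by_cases h3 : e < 4000
  · exact okTabV_iffX Tab239L0_ok3 (by omega) (by omega)
  by_cases h4 : e < 5000
  · exact okTabV_iffX Tab239L0_ok4 (by omega) (by omega)
  by_cases h5 : e < 6000
  · exact okTabV_iffX Tab239L0_ok5 (by omega) (by omega)
  by_cases h6 : e < 7000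
  · exact okTabV_iffX Tab239L0_ok6 (by omega) (by omega)
  by_cases h7 : e < 8000
  · exact okTabV_iffX Tab239L0_ok7 (by omega) (by omega)
  by_cases h8 : e < 9000
  · exact okTabV_iffX Tab239L0_ok8 (by omega) (by omega)
  by_cases h9 : e < 10000
  · exact okTabV_iffX Tab239L0_ok9 (by omega) (by omega)
  by_cases h10 : e < 11000
  · exact okTabV_iffX Tab239L0_ok10 (by omega) (by omega)
  by_cases h11 : e < 12000
  · exact okTabV_iffX Tab239L0_ok11 (by omega) (by omega)
  exact okTabV_iffX Tab239L0_ok12 (by omega) (by omega)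

end Pool.Agent.OCN
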