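import Pool.Agent.Lib_helper29.OCN.Tab239L1
import Pool.Agent.Lib_helper29.OCN.Tab239L0_1

/-!
# MP_aeb124_co: level 1 of the nested table, check of the cells 0 to 3999
-/

set_option autoImplicit false

namespace Pool.Agent.OCN

set_option maxRecDepth 100000 in
theorem Tab239L1_ok0 : okTabV Tab239L1C 478 676 6 11308 (okFT 2 12683 Tab239L0C 11308 Tab239L1X) 0 1000 = true := by
  decide +kernel

set_option maxRecDepth 100000 in
theorem Tab239L1_ok1 : okTabV Tab239L1C 478 676 6 11308 (okFT 2 12683 Tab239L0C 11308 Tab239L1X) 1000 1000 = true := by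
  decide +kernel

set_option maxRecDepth 100000 in
theorem Tab239L1_ok2 : okTabV Tab239L1C 478 676 6 11308 (okFT 2 12683 Tab239L0C 11308 Tab239L1X) 2000 1000 = true := by
  decide +kernel

set_option maxRecDepth 100000 in
theorem Tab239L1_ok3 : okTabV Tab239L1C 478 676 6 11308 (okFT 2 12683 Tab239L0C 11308 Tab239L1X) 3000 1000 = true := by
  decide +kernel

end Pool.Agent.OCN
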