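import Pool.Agent.Lib_helper29.OCN.Tab239L2
import Pool.Agent.Lib_helper29.OCN.Tab239L2_0

/-!
# MP_aeb124_co: level 2 of the nested table, check of the cells 12000 to 14054
-/

set_option autoImplicit false

namespace Pool.Agent.OCN

set_option maxRecDepth 100000 in
theorem Tab239L2_ok12 : okTabV Tab239L2C 956 1352 6 14055 (okFT 2 11308 Tab239L1C 14055 Tab239L2X) 12000 1000 = true := by
  decide +kernel

set_option maxRecDepth 100000 in
theorem Tab239L2_ok13 : okTabV Tab239L2C 956 1352 6 14055 (okFT 2 11308 Tab239L1C 14055 Tab239L2X) 13000 1000 = true := by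
  decide +kernel

set_option maxRecDepth 100000 in
theorem Tab239L2_ok14 : okTabV Tab239L2C 956 1352 6 14055 (okFT 2 11308 Tab239L1C 14055 Tab239L2X) 14000 55 = true := by
  decide +kernel

end Pool.Agent.OCN
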