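import Pool.Agent.Lib_helper29.OCN.Tab239L2_0
import Pool.Agent.Lib_helper29.OCN.Tab239L2_1
import Pool.Agent.Lib_helper29.OCN.Tab239L2_2
import Pool.Agent.Lib_helper29.OCN.Tab239L2_3

/-!
# MP_aeb124_co: level 2 of the nested table
-/

set_option autoImplicit false

namespace Pool.Agent.OCN

theorem Tab239L2_ok {e : ℕ} (he : e < 14055) :
    okCV (2 * (2 * 239)) (2 * (2 * 338)) 6 (cgetV Tab239L2C e) = true ∧ okNV (cgetV Tab239L2C) 14055 e = true ∧
      okF 2 11308 (cgetV Tab239L1C) 14055 (fget2 Tab239L2X) (cgetV Tab239L2C e) = true := by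
  by_cases h0 : e < 1000
  · exact okTabV_iffF Tab239L2_ok0 (by omega) (by omega)
  by_cases h1 : e < 2000
  · exact okTabV_iffF Tab239L2_ok1 (by omega) (by omega)
  by_cases h2 : e < 3000
  · exact okTabV_iffF Tab239L2_ok2 (by omega) (by omega)
  by_cases h3 : e < 4000
  · exact okTabV_iffF Tab239L2_ok3 (by omega) (by omega)
  by_cases h4 : e < 5000
  · exact okTabV_iffF Tab239L2_ok4 (by omega) (by omega)
  by_cases h5 : e < 6000
  · exact okTabV_iffF Tab239L2_ok5 (by omega) (by omega)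
  by_cases h6 : e < 7000
  · exact okTabV_iffF Tab239L2_ok6 (by omega) (by omega)
  by_cases h7 : e < 8000
  · exact okTabV_iffF Tab239L2_ok7 (by omega) (by omega)
  by_cases h8 : e < 9000
  · exact okTabV_iffF Tab239L2_ok8 (by omega) (by omega)
  by_cases h9 : e < 10000
  · exact okTabV_iffF Tab239L2_ok9 (by omega) (by omega)
  by_cases h10 : e < 11000
  · exact okTabV_iffF Tab239L2_ok10 (by omega) (by omega)
  by_cases h11 : e < 12000
  · exact okTabV_iffF Tab239L2_ok11 (by omega) (by omega)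
  by_cases h12 : e < 13000
  · exact okTabV_iffF Tab239L2_ok12 (by omega) (by omega)
  by_cases h13 : e < 14000
  · exact okTabV_iffF Tab239L2_ok13 (by omega) (by omega)
  exact okTabV_iffF Tab239L2_ok14 (by omega) (by omega)

theorem Tab239L2_start : (cgetV Tab239L2C 0).N = 0 ∧ (cgetV Tab239L2C 0).M = 0 ∧ (cgetV Tab239L2C 0).y = 0 ∧
    (cgetV Tab239L2C 0).x = 176 := by
  decide +kernel

end Pool.Agent.OCN
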