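import Pool.Agent.Lib_helper16.OCN.End5
import Pool.Agent.Lib_helper29.OCN.Tab239L0_all
import Pool.Agent.Lib_helper29.OCN.Tab239L1_all
import Pool.Agent.Lib_helper29.OCN.Tab239L2_all

/-!
# MP_aeb124_co: the negation of the statement from the theorem on the game of numbers
-/

set_option autoImplicit false

namespace Pool.Agent.OCN

theorem final239 (hNum : NumThm Tab239P) :
    ¬ (∀ ε : ℝ, 0 < ε → ∃ N : ℕ, ∀ n : ℕ, N ≤ n → ∀ b : ℕ, 1 ≤ b →
    (b : ℝ) ≤ (1 / Real.sqrt 2 - ε) * (n : ℝ) →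
    ∀ WM WB : Set (Finset (Fin n × Fin n)),
      (∀ D : Finset (Fin n × Fin n),
          (∃ v : Fin n, Relation.TransGen (fun x y => (x, y) ∈ D) v v) →
            D ∈ WM ∧ D ∈ WB) →
      (∀ D : Finset (Fin n × Fin n),
          (∃ i j : Fin n, i ≠ j ∧ (i, j) ∉ D ∧ (j, i) ∉ D ∧ insert (i, j) D ∈ WB) →
            D ∈ WM) →
      (∀ D : Finset (Fin n × Fin n),
          (∃ i j : Fin n, i ≠ j ∧ (i, j) ∉ D ∧ (j, i) ∉ D) →
          (∀ A : Finset (Fin n × Fin n), A.Nonempty → A.card ≤ b →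
              (∀ p ∈ A, p.1 ≠ p.2 ∧ p ∉ D ∧ p.swap ∉ D ∧ p.swap ∉ A) →
                D ∪ A ∈ WM) →
            D ∈ WB) →
      (∅ : Finset (Fin n × Fin n)) ∈ WM) := by
  refine final_of_num3 (K := 239) (G := 338) (g := 99) (S := 5) (S' := 6) (S'' := 6)
    (C := 12683) (C' := 11308) (C'' := 14055) (R0 := 43) (p := Tab239P)
    (T := Tab239L0C) (XT := Tab239L0X) (T' := Tab239L1C) (F' := Tab239L1X) (T'' := Tab239L2C)
    (F'' := Tab239L2X) (by norm_num) rfl (by norm_num) (by norm_num) (by decide) (by decide)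
    (by norm_num) (by norm_num) (by norm_num) (by norm_num) (by norm_num)
    (fun _ he => Tab239L0_ok he) (fun _ he => Tab239L1_ok he) (fun _ he => Tab239L2_ok he)
    ⟨Tab239L2_start.1, Tab239L2_start.2.1, Tab239L2_start.2.2.1, ?_, ?_⟩ hNum
  · rw [Tab239L2_start.2.2.2]
    norm_num
  · rw [Tab239L2_start.2.2.2]
    norm_num

end Pool.Agent.OCN
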