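import Pool.Agent.Lib_helper29.OCN.Tab34

/-!
# MP_aeb124_co: from a closed class to the game
-/

set_option autoImplicit false

namespace Pool.Agent.OCN

/-- The monotone orientation game on `n` vertices with bias `b`. A position is the set `D` of the
directed edges so far. `OMakerWins n b` says that OMaker, who moves first, can force a directed cycle:
the empty position lies in every set `WM` (positions with OMaker to move) which together with some set
`WB` (positions with OBreaker to move) is closed under the rules: a position with a directed cycle is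
won, OMaker directs one undirected edge, OBreaker directs at least one and at most `b`
undirected edges. -/
def OMakerWins (n b : ℕ) : Prop :=
  ∀ WM WB : Set (Finset (Fin n × Fin n)),
    (∀ D : Finset (Fin n × Fin n),
        (∃ v : Fin n, Relation.TransGen (fun x y => (x, y) ∈ D) v v) →
          D ∈ WM ∧ D ∈ WB) →
    (∀ D : Finset (Fin n × Fin n),
        (∃ i j : Fin n, i ≠ j ∧ (i, j) ∉ D ∧ (j, i) ∉ D ∧ insert (i, j) D ∈ WB) →
          D ∈ WM) →
    (∀ D : Finset (Fin n × Fin n),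
        (∃ i j : Fin n, i ≠ j ∧ (i, j) ∉ D ∧ (j, i) ∉ D) →
        (∀ A : Finset (Fin n × Fin n), A.Nonempty → A.card ≤ b →
            (∀ p ∈ A, p.1 ≠ p.2 ∧ p ∉ D ∧ p.swap ∉ D ∧ p.swap ∉ A) →
              D ∪ A ∈ WM) →
          D ∈ WB) →
    (∅ : Finset (Fin n × Fin n)) ∈ WM

theorem not_OMakerWins {n b : ℕ} {G : Set (Finset (Fin n × Fin n))} (h0 : ∅ ∈ G)
    (hG : ∀ D ∈ G, Acyc D) (hcl : Closed b G) : ¬ OMakerWins n b := by
  intro hmain
  set H : Set (Finset (Fin n × Fin n)) := {D | Acyc D ∧ ((∀ k l, ¬ Free D k l) ∨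
    ∃ D' ∈ G, D ⊆ D' ∧ (D' \ D).Nonempty ∧ (D' \ D).card ≤ b)} with hH
  have key := hmain Gᶜ Hᶜ ?_ ?_ ?_
  · exact key h0
  · rintro D ⟨v, hv⟩
    exact ⟨fun hD => hG D hD v hv, fun hD => hD.1 v hv⟩
  · rintro D ⟨i, j, hij, h1, h2, h3⟩ hD
    apply h3
    rcases hcl D hD i j ⟨hij, h1, h2⟩ with ⟨ha, hf⟩ | ⟨D', hD', hs, hne, hcard⟩
    · exact ⟨ha, Or.inl hf⟩
    · exact ⟨(hG D' hD').mono hs, Or.inr ⟨D', hD', hs, hne, hcard⟩⟩
  · rintro D ⟨i, j, hij, h1, h2⟩ hA hD
    rcases hD with ⟨_, hf | ⟨D', hD', hs, hne, hcard⟩⟩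
    · exact hf i j ⟨hij, h1, h2⟩
    · have := hA (D' \ D) hne hcard (fun p hp => ?_)
      · rw [Finset.union_sdiff_of_subset hs] at this
        exact this hD'
      · rw [Finset.mem_sdiff] at hp
        have hac := hG D' hD'
        refine ⟨fun he => ?_, hp.2, fun hsw => ?_, fun hsw => ?_⟩
        · apply hac.irrefl p.1
          have : p = (p.1, p.1) := Prod.ext rfl he.symm
          rw [← this]
          exact hp.1
        · exact hac.anti (i := p.1) (j := p.2) hp.1 (hs hsw)
        · exact hac.anti (i := p.1) (j := p.2) hp.1 (Finset.mem_sdiff.1 hsw).1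

/-- from a closed class of strict orders -/
theorem not_OMakerWins_of_class {n b : ℕ} {G : Set (Fin n → Fin n → Prop)}
    (h0 : (fun _ _ => False) ∈ G) (hG : ∀ r ∈ G, SO r) (hcl : ClosedR b G) :
    ¬ OMakerWins n b := by
  obtain ⟨e, he⟩ : ∃ e : Fin n ≃ Fin n, e = Equiv.refl _ := ⟨_, rfl⟩
  refine not_OMakerWins (G := {D | ∃ r ∈ G, D = toF e r}) ⟨_, h0, ?_⟩ ?_ ?_
  · symm
    rw [Finset.eq_empty_iff_forall_notMem]
    rintro ⟨i, j⟩ hij
    exact (mem_toF e).1 hij
  · rintro D ⟨r, hr, rfl⟩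
    exact toF_acyc e (hG r hr)
  · rintro D ⟨r, hr, rfl⟩ i j ⟨hij, h1, h2⟩
    rw [mem_toF] at h1 h2
    obtain ⟨r', hr', hrr', hxy, hc'⟩ := hcl r hr (e.symm i) (e.symm j)
      (fun he => hij (e.symm.injective he)) h1 h2
    have hs : insert (i, j) (toF e r) ⊆ toF e r' := by
      rw [Finset.insert_subset_iff]
      exact ⟨(mem_toF e).2 hxy, toF_mono e hrr'⟩
    by_cases hne : (toF e r' \ insert (i, j) (toF e r)).Nonempty
    · refine Or.inr ⟨toF e r', ⟨r', hr', rfl⟩, hs, hne, ?_⟩
      refine le_trans (Finset.card_le_card ?_) ((card_sdiff e r r').trans_le hc')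
      exact Finset.sdiff_subset_sdiff (Finset.Subset.refl _) (Finset.subset_insert _ _)
    · have heq : toF e r' = insert (i, j) (toF e r) := by
        apply Finset.Subset.antisymm _ hs
        rw [← Finset.sdiff_eq_empty_iff_subset]
        exact Finset.not_nonempty_iff_eq_empty.1 hne
      by_cases hf : ∀ k l, ¬ Free (insert (i, j) (toF e r)) k l
      · refine Or.inl ⟨?_, hf⟩
        rw [← heq]
        exact toF_acyc e (hG r' hr')
      · push Not at hf
        obtain ⟨k, l, hkl, h3, h4⟩ := hf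
        rw [← heq, mem_toF] at h3 h4
        obtain ⟨r'', hr'', hrr'', hxy', hc''⟩ := hcl r' hr' (e.symm k) (e.symm l)
          (fun he => hkl (e.symm.injective he)) h3 h4
        refine Or.inr ⟨toF e r'', ⟨r'', hr'', rfl⟩, hs.trans (toF_mono e hrr''), ?_, ?_⟩
        · rw [← heq]
          exact ⟨(k, l), Finset.mem_sdiff.2 ⟨(mem_toF e).2 hxy', fun hm => h3 ((mem_toF e).1 hm)⟩⟩
        · rw [← heq]
          exact (card_sdiff e r' r'').trans_le hc''

/-- OBreaker wins for `b ≥ 3 n / 4` -/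
theorem obreaker_three_quarters {n b : ℕ} (hn : 10000 ≤ n) (hb : 3 * n ≤ 4 * b) :
    ¬ OMakerWins n b := by
  obtain ⟨h1, h2, h3⟩ := okTab_iff tab34_ok
  obtain ⟨D, d1, d2, d3⟩ := class_of_cells (V := Fin n) (B := b) (q := n / 134) (K := 100)
    (G := 134) (S := 4) (g := 34) (C := 618) (c := cget tab34) (by omega) (by omega)
    (by rw [Fintype.card_fin]; omega) (by rw [Fintype.card_fin]; omega) (by norm_num) h1 h2 h3
    (by decide +kernel)
  exact not_OMakerWins_of_class d1 d2 d3

end Pool.Agent.OCN
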