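import Mathlib

/-!
# MP_aeb124_co: path-independent plans on a triangulated grid

`Y a b`, `X a b` are tables on a coarse grid. In the game with parameters scaled by `q` the numbers of
rows and columns bought at `(N, M)` are interpolated linearly on the triangles
`(a, b), (a + 1, b), (a + 1, b + 1)` (`k = false`) and `(a, b), (a, b + 1), (a + 1, b + 1)`
(`k = true`). All slopes are integers, and the prices are affine on the triangles.
-/

set_option autoImplicit false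

namespace Pool.Agent.OCN

/-- the middle vertex of the triangle -/
def mva (a : ℕ) (k : Bool) : ℕ := if k then a else a + 1

/-- the middle vertex of the triangle -/
def mvb (b : ℕ) (k : Bool) : ℕ := if k then b + 1 else b

/-- `(N, M, y, x)` is the point with barycentric coordinates `l₀, l₁, l₂` (of sum `q`) in the triangle
`(a, b), (mva a k, mvb b k), (a + 1, b + 1)` -/
structure Bar (Y X : ℕ → ℕ → ℕ) (q a b : ℕ) (k : Bool) (l₀ l₁ l₂ N M y x : ℕ) : Prop where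
  sum : l₀ + l₁ + l₂ = q
  eN : N = l₀ * a + l₁ * mva a k + l₂ * (a + 1)
  eM : M = l₀ * b + l₁ * mvb b k + l₂ * (b + 1)
  ey : y = l₀ * Y a b + l₁ * Y (mva a k) (mvb b k) + l₂ * Y (a + 1) (b + 1)
  ex : x = l₀ * X a b + l₁ * X (mva a k) (mvb b k) + l₂ * X (a + 1) (b + 1)

/-- the point lies in the triangle -/
def InTri (Y X : ℕ → ℕ → ℕ) (q a b : ℕ) (k : Bool) (N M y x : ℕ) : Prop :=
  ∃ l₀ l₁ l₂, Bar Y X q a b k l₀ l₁ l₂ N M y x

section
variable {Y X : ℕ → ℕ → ℕ} {q a b l₀ l₁ l₂ N M y x : ℕ}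

theorem Bar.right (h : Bar Y X q a b false 0 l₁ l₂ N M y x) :
    Bar Y X q (a + 1) b true l₁ l₂ 0 N M y x := by
  obtain ⟨h1, h2, h3, h4, h5⟩ := h
  simp only [mva, mvb, Bool.false_eq_true, if_false] at *
  refine ⟨by omega, ?_, ?_, ?_, ?_⟩ <;> simp only [mva, mvb, if_true] <;> linarith

theorem Bar.top (h : Bar Y X q a b true 0 l₁ l₂ N M y x) :
    Bar Y X q a (b + 1) false l₁ l₂ 0 N M y x := by
  obtain ⟨h1, h2, h3, h4, h5⟩ := h
  simp only [mva, mvb, if_true] at *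
  refine ⟨by omega, ?_, ?_, ?_, ?_⟩ <;>
    simp only [mva, mvb, Bool.false_eq_true, if_false] <;> linarith

theorem Bar.diag {k : Bool} (k' : Bool) (h : Bar Y X q a b k l₀ 0 l₂ N M y x) :
    Bar Y X q a b k' l₀ 0 l₂ N M y x := by
  obtain ⟨h1, h2, h3, h4, h5⟩ := h
  exact ⟨h1, by linarith, by linarith, by linarith, by linarith⟩

theorem Bar.corner {k : Bool} (k' : Bool) (h : Bar Y X q a b k 0 0 l₂ N M y x) :
    Bar Y X q (a + 1) (b + 1) k' l₂ 0 0 N M y x := by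
  obtain ⟨h1, h2, h3, h4, h5⟩ := h
  exact ⟨by omega, by linarith, by linarith, by linarith, by linarith⟩

/-- L step in the lower triangle -/
theorem Bar.stepL0 (h : Bar Y X q a b false (l₀ + 1) l₁ l₂ N M y x) (hY : Y a b ≤ Y (a + 1) b)
    (hX : X a b ≤ X (a + 1) b) :
    Bar Y X q a b false l₀ (l₁ + 1) l₂ (N + 1) M (y + (Y (a + 1) b - Y a b))
      (x + (X (a + 1) b - X a b)) := by
  obtain ⟨i, hi⟩ := Nat.exists_eq_add_of_le hY
  obtain ⟨j, hj⟩ := Nat.exists_eq_add_of_le hX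
  obtain ⟨h1, h2, h3, h4, h5⟩ := h
  simp only [mva, mvb, Bool.false_eq_true, if_false] at *
  rw [hi] at h4 ⊢
  rw [hj] at h5 ⊢
  rw [Nat.add_sub_cancel_left, Nat.add_sub_cancel_left]
  refine ⟨by omega, ?_, ?_, ?_, ?_⟩ <;>
    simp only [mva, mvb, Bool.false_eq_true, if_false, hi, hj] <;> linarith

/-- L step in the upper triangle -/
theorem Bar.stepL1 (h : Bar Y X q a b true l₀ (l₁ + 1) l₂ N M y x)
    (hY : Y a (b + 1) ≤ Y (a + 1) (b + 1)) (hX : X a (b + 1) ≤ X (a + 1) (b + 1)) :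
    Bar Y X q a b true l₀ l₁ (l₂ + 1) (N + 1) M (y + (Y (a + 1) (b + 1) - Y a (b + 1)))
      (x + (X (a + 1) (b + 1) - X a (b + 1))) := by
  obtain ⟨i, hi⟩ := Nat.exists_eq_add_of_le hY
  obtain ⟨j, hj⟩ := Nat.exists_eq_add_of_le hX
  obtain ⟨h1, h2, h3, h4, h5⟩ := h
  simp only [mva, mvb, if_true] at *
  rw [hi] at h4 ⊢
  rw [hj] at h5 ⊢
  rw [Nat.add_sub_cancel_left, Nat.add_sub_cancel_left]
  refine ⟨by omega, ?_, ?_, ?_, ?_⟩ <;> simp only [mva, mvb, if_true, hi, hj] <;> linarith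

/-- T step in the upper triangle -/
theorem Bar.stepT1 (h : Bar Y X q a b true (l₀ + 1) l₁ l₂ N M y x) (hY : Y a b ≤ Y a (b + 1))
    (hX : X a b ≤ X a (b + 1)) :
    Bar Y X q a b true l₀ (l₁ + 1) l₂ N (M + 1) (y + (Y a (b + 1) - Y a b))
      (x + (X a (b + 1) - X a b)) := by
  obtain ⟨i, hi⟩ := Nat.exists_eq_add_of_le hY
  obtain ⟨j, hj⟩ := Nat.exists_eq_add_of_le hX
  obtain ⟨h1, h2, h3, h4, h5⟩ := h
  simp only [mva, mvb, if_true] at *
  rw [hi] at h4 ⊢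
  rw [hj] at h5 ⊢
  rw [Nat.add_sub_cancel_left, Nat.add_sub_cancel_left]
  refine ⟨by omega, ?_, ?_, ?_, ?_⟩ <;> simp only [mva, mvb, if_true, hi, hj] <;> linarith

/-- T step in the lower triangle -/
theorem Bar.stepT0 (h : Bar Y X q a b false l₀ (l₁ + 1) l₂ N M y x)
    (hY : Y (a + 1) b ≤ Y (a + 1) (b + 1)) (hX : X (a + 1) b ≤ X (a + 1) (b + 1)) :
    Bar Y X q a b false l₀ l₁ (l₂ + 1) N (M + 1) (y + (Y (a + 1) (b + 1) - Y (a + 1) b))
      (x + (X (a + 1) (b + 1) - X (a + 1) b)) := by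
  obtain ⟨i, hi⟩ := Nat.exists_eq_add_of_le hY
  obtain ⟨j, hj⟩ := Nat.exists_eq_add_of_le hX
  obtain ⟨h1, h2, h3, h4, h5⟩ := h
  simp only [mva, mvb, Bool.false_eq_true, if_false] at *
  rw [hi] at h4 ⊢
  rw [hj] at h5 ⊢
  rw [Nat.add_sub_cancel_left, Nat.add_sub_cancel_left]
  refine ⟨by omega, ?_, ?_, ?_, ?_⟩ <;>
    simp only [mva, mvb, Bool.false_eq_true, if_false, hi, hj] <;> linarith

end

/-! ## The checks -/

/-- the coordinates at the vertex `m = 0, 1, 2` -/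
def va (a : ℕ) (k : Bool) (m : ℕ) : ℕ := if m = 0 then a else if m = 1 then mva a k else a + 1

/-- the coordinates at the vertex `m = 0, 1, 2` -/
def vb (b : ℕ) (k : Bool) (m : ℕ) : ℕ := if m = 0 then b else if m = 1 then mvb b k else b + 1

/-- the slopes of an L step: rows -/
def Li (Y : ℕ → ℕ → ℕ) (a b : ℕ) (k : Bool) : ℕ :=
  if k then Y (a + 1) (b + 1) - Y a (b + 1) else Y (a + 1) b - Y a b

/-- the slopes of a T step -/
def Ti (Y : ℕ → ℕ → ℕ) (a b : ℕ) (k : Bool) : ℕ :=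
  if k then Y a (b + 1) - Y a b else Y (a + 1) (b + 1) - Y (a + 1) b

/-- the table is monotone on the triangle -/
def mono (Y : ℕ → ℕ → ℕ) (a b : ℕ) (k : Bool) : Bool :=
  Nat.ble (Y a b) (Y (mva a k) (mvb b k)) && Nat.ble (Y (mva a k) (mvb b k)) (Y (a + 1) (b + 1))

/-- the conditions at a vertex `(N, M, y, x)` -/
def okV (K G i j i' j' N M y x : ℕ) : Bool :=
  Nat.ble (N + (i + 1) * (M + x) + j * (N + y)) K &&
    (Nat.ble (M + (j' + 1) * (N + y) + i' * (M + x)) K && Nat.ble (N + y + (M + x) + 1) G)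

/-- the conditions on a triangle -/
def okT (Y X : ℕ → ℕ → ℕ) (K G S a b : ℕ) (k : Bool) : Bool :=
  (mono Y a b k && mono X a b k) &&
  ((okV K G (Li Y a b k) (Li X a b k) (Ti Y a b k) (Ti X a b k) a b (Y a b) (X a b) &&
    (okV K G (Li Y a b k) (Li X a b k) (Ti Y a b k) (Ti X a b k) (mva a k) (mvb b k)
      (Y (mva a k) (mvb b k)) (X (mva a k) (mvb b k)) &&
    okV K G (Li Y a b k) (Li X a b k) (Ti Y a b k) (Ti X a b k) (a + 1) (b + 1)
      (Y (a + 1) (b + 1)) (X (a + 1) (b + 1)))) &&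
  (Nat.ble (Li Y a b k) S && (Nat.ble (Li X a b k) S && (Nat.ble (Ti Y a b k) S &&
    Nat.ble (Ti X a b k) S))))

/-- the conclusion for an L step at a point -/
def GoodL (Φ : ℕ → ℕ → ℕ → ℕ → Prop) (B i j N M y x : ℕ) : Prop :=
  1 + N + (M + x) + i * (M + x) + j * (N + y + 1) + i * j ≤ B ∧ Φ (N + 1) M (y + i) (x + j)

/-- the conclusion for a T step at a point -/
def GoodT (Φ : ℕ → ℕ → ℕ → ℕ → Prop) (B i j N M y x : ℕ) : Prop :=
  1 + M + (N + y) + i * (M + x + 1) + j * (N + y) + i * j ≤ B ∧ Φ N (M + 1) (y + i) (x + j)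

end Pool.Agent.OCN
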