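import Pool.Agent.Lib_helper29.OCN.Lift

/-!
# MP_aeb124_co: path-independent plans on a triangulated grid, the steps
-/

set_option autoImplicit false

namespace Pool.Agent.OCN

/-- the domain of the plan -/
def Dom (Y X : ℕ → ℕ → ℕ) (q R N M y x : ℕ) : Prop :=
  ∃ a b k, a < R ∧ b < R ∧ InTri Y X q a b k N M y x

/-- a point in a triangle which is not active -/
def Exit (Y X : ℕ → ℕ → ℕ) (act : ℕ → ℕ → Bool → Bool) (q R N M y x : ℕ) : Prop :=
  ∃ a b k, a < R ∧ b < R ∧ act a b k = false ∧ InTri Y X q a b k N M y x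

/-- some purchase is made in the L step or in the T step, on the triangle and on the diagonal -/
def flatT (Y X : ℕ → ℕ → ℕ) (a b : ℕ) (k : Bool) : Bool :=
  Nat.ble 1 (Li Y a b k + Li X a b k + (Ti Y a b k + Ti X a b k)) &&
    Nat.ble 1 (Li Y a b false + Li X a b false + (Ti Y a b true + Ti X a b true))

section
variable {Y X : ℕ → ℕ → ℕ} {q a b l₀ l₁ l₂ N M y x K G : ℕ} {k : Bool}

theorem lin3 {l₀ l₁ l₂ c₀ c₁ c₂ q K : ℕ} (hs : l₀ + l₁ + l₂ = q) (h₀ : c₀ ≤ K) (h₁ : c₁ ≤ K)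
    (h₂ : c₂ ≤ K) : l₀ * c₀ + l₁ * c₁ + l₂ * c₂ ≤ K * q := by
  calc l₀ * c₀ + l₁ * c₁ + l₂ * c₂ ≤ l₀ * K + l₁ * K + l₂ * K := by gcongr
    _ = K * q := by rw [← hs]; ring

theorem okV_iff {K G i j i' j' N M y x : ℕ} (h : okV K G i j i' j' N M y x = true) :
    N + (i + 1) * (M + x) + j * (N + y) ≤ K ∧ M + (j' + 1) * (N + y) + i' * (M + x) ≤ K ∧
      N + y + (M + x) + 1 ≤ G := by
  unfold okV at h
  rw [Bool.and_eq_true, Bool.and_eq_true] at h
  exact ⟨Nat.le_of_ble_eq_true h.1, Nat.le_of_ble_eq_true h.2.1, Nat.le_of_ble_eq_true h.2.2⟩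

/-- the costs on a triangle -/
theorem Bar.cost (h : Bar Y X q a b k l₀ l₁ l₂ N M y x) {i j i' j' : ℕ}
    (h₀ : okV K G i j i' j' a b (Y a b) (X a b) = true)
    (h₁ : okV K G i j i' j' (mva a k) (mvb b k) (Y (mva a k) (mvb b k)) (X (mva a k) (mvb b k)) =
      true)
    (h₂ : okV K G i j i' j' (a + 1) (b + 1) (Y (a + 1) (b + 1)) (X (a + 1) (b + 1)) = true) :
    N + (i + 1) * (M + x) + j * (N + y) ≤ K * q ∧ M + (j' + 1) * (N + y) + i' * (M + x) ≤ K * q ∧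
      N + y + (M + x) + q ≤ G * q := by
  obtain ⟨a1, a2, a3⟩ := okV_iff h₀
  obtain ⟨b1, b2, b3⟩ := okV_iff h₁
  obtain ⟨c1, c2, c3⟩ := okV_iff h₂
  obtain ⟨hs, e1, e2, e3, e4⟩ := h
  refine ⟨?_, ?_, ?_⟩
  · refine le_trans (le_of_eq ?_) (lin3 hs a1 b1 c1)
    rw [e1, e2, e3, e4]
    ring
  · refine le_trans (le_of_eq ?_) (lin3 hs a2 b2 c2)
    rw [e1, e2, e3, e4]
    ring
  · refine le_trans (le_of_eq ?_) (lin3 hs a3 b3 c3)
    rw [e1, e2, e3, e4, ← hs]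
    ring

end

section
variable {Y X : ℕ → ℕ → ℕ} {act : ℕ → ℕ → Bool → Bool} {q R K G S B n N M y x : ℕ}

theorem Dom.norm (hq : 1 ≤ q)
    (hbd : ∀ a < R, ∀ b < R, ∀ k, act a b k = true → a + 1 < R ∧ b + 1 < R)
    (h : Dom Y X q R N M y x) :
    Exit Y X act q R N M y x ∨ ∃ a b k l₀ l₁ l₂, a < R ∧ b < R ∧
      Bar Y X q a b k (l₀ + 1) l₁ l₂ N M y x := by
  obtain ⟨a, b, k, ha, hb, l₀, l₁, l₂, h⟩ := h
  rcases Nat.eq_zero_or_pos l₀ with rfl | h0
  · by_cases hk : act a b k = true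
    · obtain ⟨ha', hb'⟩ := hbd a ha b hb k hk
      right
      rcases Nat.eq_zero_or_pos l₁ with rfl | h1
      · have h2 := h.corner (k' := true)
        have h3 : l₂ = q := by have := h.sum; omega
        refine ⟨a + 1, b + 1, true, l₂ - 1, 0, 0, ha', hb', ?_⟩
        rw [Nat.sub_add_cancel (by omega)]
        exact h2
      · cases k
        · refine ⟨a + 1, b, true, l₁ - 1, l₂, 0, ha', hb, ?_⟩
          rw [Nat.sub_add_cancel (by omega)]
          exact h.right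
        · refine ⟨a, b + 1, false, l₁ - 1, l₂, 0, ha, hb', ?_⟩
          rw [Nat.sub_add_cancel (by omega)]
          exact h.top
    · left
      exact ⟨a, b, k, ha, hb, by simpa using hk, 0, l₁, l₂, h⟩
  · right
    refine ⟨a, b, k, l₀ - 1, l₁, l₂, ha, hb, ?_⟩
    rw [Nat.sub_add_cancel (by omega)]
    exact h

/-- the data of an active triangle -/
theorem okT_iff {a b : ℕ} {k : Bool} (h : okT Y X K G S a b k = true) :
    (Y a b ≤ Y (mva a k) (mvb b k) ∧ Y (mva a k) (mvb b k) ≤ Y (a + 1) (b + 1)) ∧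
    (X a b ≤ X (mva a k) (mvb b k) ∧ X (mva a k) (mvb b k) ≤ X (a + 1) (b + 1)) ∧
    okV K G (Li Y a b k) (Li X a b k) (Ti Y a b k) (Ti X a b k) a b (Y a b) (X a b) = true ∧
    okV K G (Li Y a b k) (Li X a b k) (Ti Y a b k) (Ti X a b k) (mva a k) (mvb b k)
      (Y (mva a k) (mvb b k)) (X (mva a k) (mvb b k)) = true ∧
    okV K G (Li Y a b k) (Li X a b k) (Ti Y a b k) (Ti X a b k) (a + 1) (b + 1)
      (Y (a + 1) (b + 1)) (X (a + 1) (b + 1)) = true ∧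
    Li Y a b k ≤ S ∧ Li X a b k ≤ S ∧ Ti Y a b k ≤ S ∧ Ti X a b k ≤ S := by
  unfold okT mono at h
  simp only [Bool.and_eq_true] at h
  obtain ⟨⟨⟨h1, h2⟩, h3, h4⟩, ⟨h5, h6, h7⟩, h8, h9, h10, h11⟩ := h
  exact ⟨⟨Nat.le_of_ble_eq_true h1, Nat.le_of_ble_eq_true h2⟩,
    ⟨Nat.le_of_ble_eq_true h3, Nat.le_of_ble_eq_true h4⟩, h5, h6, h7,
    Nat.le_of_ble_eq_true h8, Nat.le_of_ble_eq_true h9, Nat.le_of_ble_eq_true h10,
    Nat.le_of_ble_eq_true h11⟩

/-- the L step in a triangle -/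
theorem stepL {a b l₀ l₁ l₂ : ℕ} {k : Bool} (hB : K * q + (1 + S + S * S) ≤ B)
    (hok : okT Y X K G S a b k = true) (ha : a < R) (hb : b < R)
    (h : Bar Y X q a b k l₀ l₁ l₂ N M y x) (hl : (k = false ∧ 1 ≤ l₀) ∨ (k = true ∧ 1 ≤ l₁)) :
    GoodL (Dom Y X q R) B (Li Y a b k) (Li X a b k) N M y x := by
  obtain ⟨⟨y1, y2⟩, ⟨x1, x2⟩, h0, h1, h2, s1, s2, s3, s4⟩ := okT_iff hok
  obtain ⟨c1, _, _⟩ := h.cost h0 h1 h2
  refine ⟨?_, ?_⟩
  · have e1 : Li X a b k ≤ S := s2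
    have e2 : Li Y a b k * Li X a b k ≤ S * S := Nat.mul_le_mul s1 s2
    calc 1 + N + (M + x) + Li Y a b k * (M + x) + Li X a b k * (N + y + 1) + Li Y a b k * Li X a b k
        = (N + (Li Y a b k + 1) * (M + x) + Li X a b k * (N + y)) +
          (1 + Li X a b k + Li Y a b k * Li X a b k) := by ring
      _ ≤ K * q + (1 + S + S * S) := by omega
      _ ≤ B := hB
  · rcases hl with ⟨rfl, hl⟩ | ⟨rfl, hl⟩
    · obtain ⟨l, rfl⟩ := Nat.exists_eq_add_of_le' hl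
      have := h.stepL0 (by simpa [mva, mvb] using y1) (by simpa [mva, mvb] using x1)
      exact ⟨a, b, false, ha, hb, _, _, _, this⟩
    · obtain ⟨l, rfl⟩ := Nat.exists_eq_add_of_le' hl
      have := h.stepL1 (by simpa [mva, mvb] using y2) (by simpa [mva, mvb] using x2)
      exact ⟨a, b, true, ha, hb, _, _, _, this⟩

/-- the T step in a triangle -/
theorem stepT {a b l₀ l₁ l₂ : ℕ} {k : Bool} (hB : K * q + (1 + S + S * S) ≤ B)
    (hok : okT Y X K G S a b k = true) (ha : a < R) (hb : b < R)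
    (h : Bar Y X q a b k l₀ l₁ l₂ N M y x) (hl : (k = true ∧ 1 ≤ l₀) ∨ (k = false ∧ 1 ≤ l₁)) :
    GoodT (Dom Y X q R) B (Ti Y a b k) (Ti X a b k) N M y x := by
  obtain ⟨⟨y1, y2⟩, ⟨x1, x2⟩, h0, h1, h2, s1, s2, s3, s4⟩ := okT_iff hok
  obtain ⟨_, c1, _⟩ := h.cost h0 h1 h2
  refine ⟨?_, ?_⟩
  · have e1 : Ti Y a b k ≤ S := s3
    have e2 : Ti Y a b k * Ti X a b k ≤ S * S := Nat.mul_le_mul s3 s4
    calc 1 + M + (N + y) + Ti Y a b k * (M + x + 1) + Ti X a b k * (N + y) + Ti Y a b k * Ti X a b k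
        = (M + (Ti X a b k + 1) * (N + y) + Ti Y a b k * (M + x)) +
          (1 + Ti Y a b k + Ti Y a b k * Ti X a b k) := by ring
      _ ≤ K * q + (1 + S + S * S) := by omega
      _ ≤ B := hB
  · rcases hl with ⟨rfl, hl⟩ | ⟨rfl, hl⟩
    · obtain ⟨l, rfl⟩ := Nat.exists_eq_add_of_le' hl
      have := h.stepT1 (by simpa [mva, mvb] using y1) (by simpa [mva, mvb] using x1)
      exact ⟨a, b, true, ha, hb, _, _, _, this⟩
    · obtain ⟨l, rfl⟩ := Nat.exists_eq_add_of_le' hl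
      have := h.stepT0 (by simpa [mva, mvb] using y2) (by simpa [mva, mvb] using x2)
      exact ⟨a, b, false, ha, hb, _, _, _, this⟩

/-- The steps of the plan: at every point of the domain which is in no inactive triangle both
attacks can be answered, with at least one purchase in one of the two answers. -/
theorem plan_step (hq : 2 * S + 1 ≤ q) (hB : K * q + (1 + S + S * S) ≤ B) (hn : G * q ≤ n)
    (hact : ∀ a < R, ∀ b < R, ∀ k, act a b k = true →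
      okT Y X K G S a b k = true ∧ flatT Y X a b k = true)
    (hbd : ∀ a < R, ∀ b < R, ∀ k, act a b k = true → a + 1 < R ∧ b + 1 < R)
    (h : Dom Y X q R N M y x) :
    Exit Y X act q R N M y x ∨ ∃ i j i' j', GoodL (Dom Y X q R) B i j N M y x ∧
      GoodT (Dom Y X q R) B i' j' N M y x ∧ 1 ≤ i + j + (i' + j') ∧
      N + y + (M + x) + (i + j + 1) ≤ n ∧ N + y + (M + x) + (i' + j' + 1) ≤ n := by
  by_cases hE : Exit Y X act q R N M y x
  · exact Or.inl hE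
  right
  have hA : ∀ a b k, a < R → b < R → InTri Y X q a b k N M y x → act a b k = true := by
    intro a b k ha hb ht
    by_contra hk
    exact hE ⟨a, b, k, ha, hb, by simpa using hk, ht⟩
  rcases h.norm (act := act) (by omega) hbd with h | ⟨a, b, k, l₀, l₁, l₂, ha, hb, h⟩
  · exact absurd h hE
  obtain ⟨ok1, fl1⟩ := hact a ha b hb k (hA a b k ha hb ⟨_, _, _, h⟩)
  obtain ⟨_, _, h0, h1, h2, s1, s2, s3, s4⟩ := okT_iff ok1
  obtain ⟨_, _, sz⟩ := h.cost h0 h1 h2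
  unfold flatT at fl1
  rw [Bool.and_eq_true] at fl1
  have f1 := Nat.le_of_ble_eq_true fl1.1
  have f2 := Nat.le_of_ble_eq_true fl1.2
  rcases Nat.eq_zero_or_pos l₁ with rfl | hl
  · have d0 := h.diag false
    have d1 := h.diag true
    obtain ⟨ok0, _⟩ := hact a ha b hb false (hA a b false ha hb ⟨_, _, _, d0⟩)
    obtain ⟨ok1, _⟩ := hact a ha b hb true (hA a b true ha hb ⟨_, _, _, d1⟩)
    have t0 := okT_iff ok0
    have t1 := okT_iff ok1
    refine ⟨_, _, _, _, stepL hB ok0 ha hb d0 (Or.inl ⟨rfl, by omega⟩),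
      stepT hB ok1 ha hb d1 (Or.inl ⟨rfl, by omega⟩), f2, ?_, ?_⟩
    · have := t0.2.2.2.2.2
      omega
    · have := t1.2.2.2.2.2
      omega
  · cases k
    · refine ⟨_, _, _, _, stepL hB ok1 ha hb h (Or.inl ⟨rfl, by omega⟩),
        stepT hB ok1 ha hb h (Or.inr ⟨rfl, hl⟩), f1, ?_, ?_⟩ <;> omega
    · refine ⟨_, _, _, _, stepL hB ok1 ha hb h (Or.inr ⟨rfl, hl⟩),
        stepT hB ok1 ha hb h (Or.inl ⟨rfl, by omega⟩), f1, ?_, ?_⟩ <;> omega

end

end Pool.Agent.OCN
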